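import Pool.Agent.P.MP_56695d_gt.Basic

set_option autoImplicit false

/-! Restriction and amalgamation. -/

namespace Pool.Agent.P.MP_56695d_gt

variable {L : Type} [LinearOrder L]

/-- all active coordinates lie below `β` -/
def Sup (β : WithTop L) (p : Cond L) : Prop :=
  ∀ h, Lg p.st h → ∀ γ : L, p.st h γ ≠ none → (γ : WithTop L) < β

theorem sup_top (p : Cond L) : Sup ⊤ p := fun _ _ γ _ => WithTop.coe_lt_top γ

theorem Sup.rr {β : WithTop L} {p : Cond L} (h : Sup β p) {g : Hist L} (G : Lg p.st g) :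
    Sup β (p.rr g G) := fun x X => h _ ((Cond.lg_rr G).1 X)

theorem Sup.mono {β β' : WithTop L} {p : Cond L} (h : Sup β p) (e : β ≤ β') : Sup β' p :=
  fun x X γ y => (h x X γ y).trans_le e

/-- two conditions agree below `β` -/
structure Agree (β : WithTop L) (p p' : Cond L) : Prop where
  mark : p.mark = p'.mark
  kap : p.kap = p'.kap
  st : ∀ g g', Lg p.st g → Lg p'.st g' → cp β g = cp β g' → ∀ γ : L, (γ : WithTop L) < β →
    p.st g γ = p'.st g' γ

theorem Agree.ok {β : WithTop L} {p p' : Cond L} (h : Agree β p p') {g g' : Hist L}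
    (G : Lg p.st g) (G' : Lg p'.st g') (e : cp β g = cp β g') {w : WithTop L} (hw : w < β)
    (o : Ok (p.st g) w) : Ok (p'.st g') w := fun γ x => by
  rw [← h.st g g' G G' e γ (x ▸ hw)]
  exact o γ x

theorem Agree.transfer {β : WithTop L} {p p' : Cond L} (h : Agree β p p')
    (hβ : Ok (p'.st []) β) {g g' s : Hist L} (G : Lg p.st (g ++ s)) (G' : Lg p'.st g')
    (e : cp β g = cp β g') : Lg p'.st (g' ++ cp β s) := by
  induction s using List.reverseRecOn with
  | nil => simpa using G'
  | append_singleton s a ih =>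
    rw [← List.append_assoc, lg_snoc] at G
    have := ih G.1
    rw [cp_append, ← List.append_assoc, cp_cons, cp_nil, lg_snoc]
    refine ⟨this, ?_⟩
    rcases lt_or_ge a.1 β with hl | hl
    · rw [min_eq_left hl.le]
      exact h.ok G.1 this (by simp [e, cp_cp]) hl G.2
    · rw [min_eq_right hl]
      exact Cond.ok_root this hβ

theorem lg_res {p : Cond L} {β : L} (hβ : p.st [] β ≠ none) {g : Hist L}
    (G : Lg (fun g γ => if γ < β then p.st (cp β g) γ else none) g) : Lg p.st (cp β g) := by
  induction g using List.reverseRecOn with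
  | nil => exact lg_nil _
  | append_singleton g a ih =>
    rw [lg_snoc] at G
    rw [cp_append, cp_cons, cp_nil, lg_snoc]
    refine ⟨ih G.1, ?_⟩
    rcases lt_or_ge a.1 β with hl | hl
    · rw [min_eq_left hl.le]
      intro γ e
      have := G.2 γ e
      have e' : a.1 = γ := e
      simp only [] at this
      rwa [if_pos (by simpa [e'] using hl)] at this
    · rw [min_eq_right hl]
      exact Cond.ok_root (ih G.1) (ok_coe.2 hβ)

/-- the restriction below an active coordinate -/
def Cond.res (p : Cond L) (β : L) (hβ : p.st [] β ≠ none) : Cond L where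
  st g γ := if γ < β then p.st (cp β g) γ else none
  mark := p.mark
  kap := p.kap
  fin g G := (p.fin _ (lg_res hβ G)).subset fun γ x => by
    simp only [Set.mem_setOf_eq] at x ⊢
    split_ifs at x with h1
    · exact x
    · exact absurd rfl x
  loc δ g g' G G' e γ x := by
    split_ifs with h1
    · refine p.loc δ _ _ (lg_res hβ G) (lg_res hβ G') ?_ γ x
      rw [cp_cp, cp_cp]
      exact cp_of_le (min_le_right _ _) e
    · rfl
  wait g m G γ x := by
    split_ifs with h1
    · have := lg_res hβ G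
      rw [cp_append, cp_cons, cp_nil] at this ⊢
      exact p.wait _ _ this γ ((min_le_left _ _).trans x)
    · rfl
  move g m G γ x s y := by
    split_ifs at y ⊢ with h1
    have := lg_res hβ G
    rw [cp_append, cp_cons, cp_nil] at this ⊢
    simpa using p.move _ _ this γ (lt_min x (WithTop.coe_lt_coe.2 h1)) s y
  e1 := p.e1
  e2 := p.e2
  e3 := p.e3

theorem Cond.agree_res (p : Cond L) (β : L) (hβ : p.st [] β ≠ none) :
    Agree β (p.res β hβ) p :=
  ⟨rfl, rfl, fun g g' G G' e γ x => by
    simp only [Cond.res, if_pos (WithTop.coe_lt_coe.1 x)]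
    exact p.loc β _ _ (lg_res hβ G) G' (by rw [cp_cp, min_self, e]) γ x⟩

theorem Cond.sup_res (p : Cond L) (β : L) (hβ : p.st [] β ≠ none) : Sup β (p.res β hβ) :=
  fun g _ γ x => by
    simp only [Cond.res] at x
    split_ifs at x with h1
    · exact WithTop.coe_lt_coe.2 h1
    · exact absurd rfl x

variable (L) in
/-- chosen marked moves -/
structure Dec where
  /-- before the marked move -/
  pre : Hist L → Mv L → Hist L
  /-- the marked move -/
  mm : Hist L → Mv L → Mv L
  /-- after the marked move -/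
  post : Hist L → Mv L → Hist L

/-- a simulation with chosen marked moves -/
structure IsDec (F : ℕ → Prop) (r p : Cond L) (π : Hist L → Hist L) (D : Dec L) : Prop where
  sim : Sim F r p π
  dec : ∀ h (m : Mv L), Lg r.st (h ++ [m]) →
    π (h ++ [m]) = π h ++ D.pre h m ++ D.mm h m :: D.post h m ∧ m.1 ≤ (D.mm h m).1 ∧
    p.mark (clk (π h ++ D.pre h m)) (D.mm h m).2 = r.mark (clk h) m.2 ∧
    (F h.length → D.pre h m = [])

theorem Sim.exists_dec {F : ℕ → Prop} {r p : Cond L} {π : Hist L → Hist L} (h : Sim F r p π) :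
    ∃ D, IsDec F r p π D := by
  have : ∀ g (m : Mv L), ∃ (pre : Hist L) (m' : Mv L) (post : Hist L), Lg r.st (g ++ [m]) →
      π (g ++ [m]) = π g ++ pre ++ m' :: post ∧ m.1 ≤ m'.1 ∧
      p.mark (clk (π g ++ pre)) m'.2 = r.mark (clk g) m.2 ∧ (F g.length → pre = []) := by
    intro g m
    by_cases H : Lg r.st (g ++ [m])
    · obtain ⟨a, b, c, x⟩ := h.mrk g m H
      exact ⟨a, b, c, fun _ => x⟩
    · exact ⟨[], m, [], fun x => absurd x H⟩
  choose a b c x using this
  exact ⟨⟨a, b, c⟩, h, x⟩

/-- replace the cut by `b` unless it is below `β` -/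
def hm (β b : WithTop L) (m : Mv L) : Mv L := (if m.1 < β then m.1 else b, m.2)

/-- the history seen by the lower condition -/
def ht (β b : WithTop L) (h : Hist L) : Hist L := h.map (hm β b)

@[simp] theorem ht_nil (β b : WithTop L) : ht β b [] = [] := rfl

@[simp] theorem ht_snoc (β b : WithTop L) (h : Hist L) (m : Mv L) :
    ht β b (h ++ [m]) = ht β b h ++ [hm β b m] := by simp [ht]

@[simp] theorem ht_length (β b : WithTop L) (h : Hist L) : (ht β b h).length = h.length :=
  List.length_map _

@[simp] theorem clk_ht (β b : WithTop L) (h : Hist L) : clk (ht β b h) = clk h := by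
  simp [clk, ht, hm]

theorem ht_top (h : Hist L) : ht ⊤ ⊤ h = h := by
  refine (List.map_congr_left fun m _ => ?_).trans (List.map_id h)
  simp only [hm, id]
  split_ifs with h1
  · rfl
  · exact Prod.ext (top_le_iff.1 (not_lt.1 h1)).symm rfl

theorem min_hm {β b δ : WithTop L} (hb : β ≤ b) (hδ : δ ≤ β) (m : Mv L) :
    min (hm β b m).1 δ = min m.1 δ := by
  simp only [hm]
  split_ifs with h1
  · rfl
  · rw [min_eq_right (hδ.trans hb), min_eq_right (hδ.trans (not_lt.1 h1))]

theorem cp_ht {β b δ : WithTop L} (hb : β ≤ b) (hδ : δ ≤ β) (h : Hist L) :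
    cp δ (ht β b h) = cp δ h := by
  simp only [cp, ht, List.map_map]
  exact List.map_congr_left fun m _ => Prod.ext (min_hm hb hδ m) rfl

theorem hm_congr {β b δ : WithTop L} (hδ : β ≤ δ) {m m' : Mv L} (e : min m.1 δ = min m'.1 δ)
    (e' : m.2 = m'.2) : hm β b m = hm β b m' := by
  have k : ∀ {m m' : Mv L}, min m.1 δ = min m'.1 δ → m.1 < β → m'.1 = m.1 := by
    intro m m' e x
    rw [min_eq_left (x.le.trans hδ)] at e
    rcases le_total m'.1 δ with y | y
    · rw [e, min_eq_left y]
    · rw [min_eq_right y] at e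
      exact absurd (x.trans_le hδ) (e ▸ lt_irrefl _)
  refine Prod.ext ?_ e'
  simp only [hm]
  by_cases x : m.1 < β
  · rw [k e x]
  · by_cases y : m'.1 < β
    · exact absurd (k e.symm y ▸ y) x
    · rw [if_neg x, if_neg y]

theorem ht_congr {β b δ : WithTop L} (hδ : β ≤ δ) {h h' : Hist L} (e : cp δ h = cp δ h') :
    ht β b h = ht β b h' :=
  cp_induction (R := fun h h' => ht β b h = ht β b h') rfl
    (fun _ _ _ _ _ e1 e2 ih => by rw [ht_snoc, ht_snoc, ih, hm_congr hδ e1 e2]) e

/-- the marked move seen by the upper condition -/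
def lift (β w : WithTop L) (m : Mv L) : Mv L := (if m.1 < β then m.1 else max w β, m.2)

theorem min_lift (β w : WithTop L) (m : Mv L) : min (lift β w m).1 β = min m.1 β := by
  simp only [lift]
  split_ifs with h1
  · rfl
  · rw [min_eq_right (le_max_right _ _), min_eq_right (not_lt.1 h1)]

theorem lift_le (β w : WithTop L) (m : Mv L) : (lift β w m).1 ≤ max w β := by
  simp only [lift]
  split_ifs with h1
  · exact h1.le.trans (le_max_right _ _)
  · exact le_rfl

/-- the history seen by the upper condition -/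
def amL (π : Hist L → Hist L) (D : Dec L) (β b : WithTop L) : Hist L → Hist L :=
  srec (cp β (π [])) fun h m acc => acc ++ cp β (D.pre (ht β b h) (hm β b m)) ++
    lift β m.1 (D.mm (ht β b h) (hm β b m)) :: cp β (D.post (ht β b h) (hm β b m))

theorem amL_nil (π : Hist L → Hist L) (D : Dec L) (β b : WithTop L) :
    amL π D β b [] = cp β (π []) := srec_nil _ _

theorem amL_snoc (π : Hist L → Hist L) (D : Dec L) (β b : WithTop L) (h : Hist L) (m : Mv L) :
    amL π D β b (h ++ [m]) = amL π D β b h ++ cp β (D.pre (ht β b h) (hm β b m)) ++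
      lift β m.1 (D.mm (ht β b h) (hm β b m)) :: cp β (D.post (ht β b h) (hm β b m)) :=
  srec_snoc _ _ _ _

theorem amL_cp (π : Hist L → Hist L) (D : Dec L) {β δ : WithTop L} (b : WithTop L) (hδ : β ≤ δ)
    {h h' : Hist L} (e : cp δ h = cp δ h') : cp δ (amL π D β b h) = cp δ (amL π D β b h') := by
  refine cp_induction (R := fun h h' => cp δ (amL π D β b h) = cp δ (amL π D β b h')) rfl
    (fun h h' m m' e0 e1 e2 ih => ?_) e
  rw [amL_snoc, amL_snoc, ht_congr hδ e0, hm_congr hδ e1 e2]
  simp only [cp_append, cp_cons, ih, lift]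
  split_ifs
  · rfl
  · rw [min_max_distrib_right, min_max_distrib_right, e1]

theorem amL_le (π : Hist L → Hist L) (D : Dec L) {β c : WithTop L} (b : WithTop L) (hc : β ≤ c)
    {h : Hist L} (H : ∀ m ∈ h, m.1 ≤ c) : ∀ a ∈ amL π D β b h, a.1 ≤ c := by
  induction h using List.reverseRecOn with
  | nil => exact fun a ha => (cp_le a (amL_nil π D β b ▸ ha)).trans hc
  | append_singleton h m ih =>
    intro a ha
    simp only [amL_snoc, List.mem_append, List.mem_cons] at ha
    rcases ha with (ha | ha) | rfl | ha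
    · exact ih (fun x hx => H x (by simp [hx])) a ha
    · exact (cp_le a ha).trans hc
    · exact (lift_le _ _ _).trans (max_le (H m (by simp)) hc)
    · exact (cp_le a ha).trans hc

/-- the state of the amalgam -/
def amSt (r p : Hist L → St L) (π : Hist L → Hist L) (D : Dec L) (β b : WithTop L) (h : Hist L) :
    St L := fun γ => if (γ : WithTop L) < β then r (ht β b h) γ else p (amL π D β b h) γ

/-- the hypotheses for amalgamation -/
structure AmH (F : ℕ → Prop) (r p₁ p₂ : Cond L) (π : Hist L → Hist L) (D : Dec L)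
    (β b : WithTop L) : Prop where
  dec : IsDec F r p₁ π D
  agr : Agree β p₁ p₂
  le : β ≤ b
  okb : Ok (r.st []) b
  okβ : Ok (p₂.st []) β

namespace AmH

variable {F : ℕ → Prop} {r p₁ p₂ : Cond L} {π : Hist L → Hist L} {D : Dec L} {β b : WithTop L}

theorem inv (A : AmH F r p₁ p₂ π D β b) {h : Hist L} (H : Lg (amSt r.st p₂.st π D β b) h) :
    Lg r.st (ht β b h) ∧ Lg p₂.st (amL π D β b h) ∧
      cp β (amL π D β b h) = cp β (π (ht β b h)) := by
  induction h using List.reverseRecOn with
  | nil =>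
    refine ⟨lg_nil _, ?_, by simp [amL_nil, cp_cp]⟩
    rw [amL_nil]
    exact A.agr.transfer A.okβ (g := []) (g' := []) (A.dec.sim.leg [] (lg_nil _)) (lg_nil _) rfl
  | append_singleton h m ih =>
    rw [lg_snoc] at H
    obtain ⟨i1, i2, i3⟩ := ih H.1
    have l1 : Lg r.st (ht β b h ++ [hm β b m]) := by
      refine lg_snoc.2 ⟨i1, ?_⟩
      simp only [hm]
      split_ifs with h1
      · intro γ e
        have := H.2 γ e
        rwa [amSt, if_pos (e ▸ h1)] at this
      · exact Cond.ok_root i1 A.okb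
    obtain ⟨d1, -⟩ := A.dec.dec _ _ l1
    have l2 := A.dec.sim.leg _ l1
    rw [d1, List.append_cons] at l2
    have l3 := A.agr.transfer A.okβ l2.left.left i2 i3.symm
    have l4 : Lg p₂.st (amL π D β b h ++ cp β (D.pre (ht β b h) (hm β b m)) ++
        [lift β m.1 (D.mm (ht β b h) (hm β b m))]) := by
      refine lg_snoc.2 ⟨l3, ?_⟩
      simp only [lift]
      split_ifs with h1
      · exact A.agr.ok l2.left.left l3 (by simp [i3, cp_cp]) h1 (lg_snoc.1 l2.left).2
      · rcases le_total m.1 β with x | x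
        · rw [max_eq_right x]
          exact Cond.ok_root l3 A.okβ
        · rw [max_eq_left x]
          refine Cond.ok_path l3 fun γ e => ?_
          have := H.2 γ e
          rwa [amSt, if_neg (not_lt.2 (e ▸ x))] at this
    have e4 : cp β (π (ht β b h) ++ D.pre (ht β b h) (hm β b m) ++ [D.mm (ht β b h) (hm β b m)]) =
        cp β (amL π D β b h ++ cp β (D.pre (ht β b h) (hm β b m)) ++
        [lift β m.1 (D.mm (ht β b h) (hm β b m))]) := by
      simp only [cp_append, cp_cons, cp_nil, i3, cp_cp, min_self, min_lift]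
      rfl
    rw [ht_snoc, amL_snoc, d1, List.append_cons (amL π D β b h ++ _),
      List.append_cons (π _ ++ _)]
    refine ⟨l1, A.agr.transfer A.okβ l2 l4 e4, ?_⟩
    rw [cp_append, cp_append β (π _ ++ _ ++ [_]), e4, cp_cp, min_self]

theorem clk_amL (A : AmH F r p₁ p₂ π D β b) {h : Hist L} (H : Lg (amSt r.st p₂.st π D β b) h) :
    clk (amL π D β b h) = clk (π (ht β b h)) := clk_of_cp (A.inv H).2.2

theorem kp (A : AmH F r p₁ p₂ π D β b) {h : Hist L} {m : Mv L}
    (H : Lg (amSt r.st p₂.st π D β b) (h ++ [m])) : ∃ (m' : Mv L) (s : Hist L),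
      amL π D β b (h ++ [m]) = amL π D β b h ++ m' :: s ∧
      r.kap (clk h) m.2 ≤ p₂.kap (clk (amL π D β b h)) m'.2 := by
  have l1 := (A.inv H).1
  rw [ht_snoc] at l1
  obtain ⟨m1, s, h1, h2⟩ := A.dec.sim.kp _ _ l1
  have e := A.clk_amL H
  rw [ht_snoc, h1, amL_snoc, List.append_assoc, clk_append, clk_append (π _), A.clk_amL H.left,
    List.append_cancel_left_eq] at e
  rw [amL_snoc, List.append_assoc]
  generalize cp β _ ++ _ :: cp β _ = x at e
  cases x with
  | nil => simp at e
  | cons a x =>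
    simp only [clk_cons, List.cons.injEq] at e
    refine ⟨a, x, rfl, ?_⟩
    rw [A.clk_amL H.left, e.1, ← A.agr.kap]
    simpa [hm] using h2

/-- a move of an upper coordinate is a single move of the upper condition -/
theorem join (A : AmH F r p₁ p₂ π D β b) {h : Hist L} {m : Mv L}
    (H : Lg (amSt r.st p₂.st π D β b) (h ++ [m])) {γ : L} (h1 : β ≤ γ) (h2 : ↑γ < m.1) :
    ∃ (g : Hist L) (m' : Mv L), Lg p₂.st (g ++ [m']) ∧ m'.1 = m.1 ∧
      p₂.st g γ = amSt r.st p₂.st π D β b h γ ∧
      p₂.st (g ++ [m']) γ = amSt r.st p₂.st π D β b (h ++ [m]) γ ∧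
      r.kap (clk h) m.2 ≤ p₂.kap (clk g) m'.2 := by
  obtain ⟨l1, l2, -⟩ := A.inv H
  rw [ht_snoc] at l1
  rw [amL_snoc, List.append_cons] at l2
  have e : β ≤ (D.mm (ht β b h) (hm β b m)).1 := by
    refine le_trans ?_ (A.dec.dec _ _ l1).2.1
    simp only [hm, if_neg (not_lt.2 (h1.trans h2.le))]
    exact A.le
  refine ⟨_, _, l2.left, ?_, ?_, ?_, ?_⟩
  · simp only [lift, if_neg (not_lt.2 e)]
    exact max_eq_left (h1.trans h2.le)
  · rw [amSt, if_neg (not_lt.2 h1)]
    exact Cond.wait_path l2.left.left fun a ha => (cp_le a ha).trans h1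
  · rw [amSt, if_neg (not_lt.2 h1), amL_snoc, List.append_cons _ _ (cp β _)]
    exact (Cond.wait_path l2 fun a ha => (cp_le a ha).trans h1).symm
  · obtain ⟨m', s, k1, k2⟩ := A.kp H
    refine k2.trans ?_
    rw [amL_snoc, List.append_assoc, List.append_cancel_left_eq] at k1
    generalize cp β (D.pre _ _) = x at k1
    cases x with
    | nil =>
      simp only [List.nil_append, List.cons.injEq] at k1
      simp [k1.1]
    | cons a x =>
      simp only [List.cons_append, List.cons.injEq] at k1
      rw [clk_append, clk_cons, k1.1]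
      exact p₂.kap_le _ _ _ _

/-- the amalgam -/
def amalg (A : AmH F r p₁ p₂ π D β b) : Cond L where
  st := amSt r.st p₂.st π D β b
  mark := r.mark
  kap := r.kap
  fin h H := ((r.fin _ (A.inv H).1).union (p₂.fin _ (A.inv H).2.1)).subset fun γ x => by
    simp only [Set.mem_setOf_eq, amSt, Set.mem_union] at x ⊢
    split_ifs at x
    · exact Or.inl x
    · exact Or.inr x
  loc δ h h' H H' e γ x := by
    simp only [amSt]
    split_ifs with h1
    · refine r.loc (min δ β) _ _ (A.inv H).1 (A.inv H').1 ?_ γ (lt_min x h1)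
      rw [cp_ht A.le (min_le_right _ _), cp_ht A.le (min_le_right _ _)]
      exact cp_of_le (min_le_left _ _) e
    · exact p₂.loc δ _ _ (A.inv H).2.1 (A.inv H').2.1
        (amL_cp π D b ((not_lt.1 h1).trans x.le) e) γ x
  wait h m H γ x := by
    obtain ⟨l1, l2, -⟩ := A.inv H
    simp only [amSt]
    split_ifs with h1
    · rw [ht_snoc] at l1 ⊢
      exact r.wait _ _ l1 γ (by simpa only [hm, if_pos (x.trans_lt h1)] using x)
    · rw [amL_snoc, List.append_assoc] at l2 ⊢
      refine Cond.wait_path l2 fun a ha => ?_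
      simp only [List.mem_append, List.mem_cons] at ha
      rcases ha with ha | rfl | ha
      · exact (cp_le a ha).trans (not_lt.1 h1)
      · exact (lift_le _ _ _).trans (max_le x (not_lt.1 h1))
      · exact (cp_le a ha).trans (not_lt.1 h1)
  move h m H γ x s y := by
    by_cases h1 : (γ : WithTop L) < β
    · have l1 := (A.inv H).1
      simp only [amSt, if_pos h1] at y ⊢
      rw [ht_snoc] at l1 ⊢
      have := r.move _ _ l1 γ (by
        simp only [hm]
        split_ifs
        · exact x
        · exact h1.trans_le A.le) s y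
      simpa [hm] using this
    · obtain ⟨g, m', k1, k2, k3, k4, k5⟩ := A.join H (not_lt.1 h1) x
      obtain ⟨t, t1, t2, t3⟩ := p₂.move _ _ k1 γ (k2 ▸ x) s (k3 ▸ y)
      exact ⟨t, t1, k4 ▸ t2, fun a ha => k5.trans (t3 a ha)⟩
  e1 := r.e1
  e2 := r.e2
  e3 := r.e3

theorem sim_up (A : AmH F r p₁ p₂ π D β b) : Sim F A.amalg p₂ (amL π D β b) where
  leg h H := (A.inv H).2.1
  sits h H γ s x := by
    obtain ⟨l1, l2, l3⟩ := A.inv H
    simp only [amalg, amSt]
    split_ifs with h1
    · refine A.dec.sim.sits _ l1 γ s ?_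
      rw [A.agr.st _ _ (A.dec.sim.leg _ l1) l2 l3.symm γ h1, x]
    · exact x
  mrk h m H := by
    have l1 := (A.inv H).1
    rw [ht_snoc] at l1
    obtain ⟨-, d2, d3, d4⟩ := A.dec.dec _ _ l1
    refine ⟨_, _, _, amL_snoc .., ?_, ?_, fun x => ?_⟩
    · simp only [lift]
      split_ifs with h1
      · refine le_trans ?_ d2
        simp only [hm]
        split_ifs with h2
        · exact le_rfl
        · exact absurd (d2.trans_lt h1) (by simpa only [hm, if_neg h2, not_lt] using A.le)
      · exact le_max_left _ _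
    · rw [clk_append, clk_cp, A.clk_amL H.left, ← clk_append, ← A.agr.mark]
      simpa [lift, amalg, hm] using d3
    · rw [d4 (by simpa using x), cp_nil]
  kp h m H := A.kp H

theorem sim_low (A : AmH F r p₁ p₂ π D β ⊤) (hs : Sup β r) :
    Sim (fun _ => True) A.amalg r (ht β ⊤) where
  leg h H := (A.inv H).1
  sits h H γ s x := by
    simp only [amalg, amSt]
    rw [if_pos (hs _ (A.inv H).1 γ (by simp [x])), x]
  mrk h m H := ⟨[], hm β ⊤ m, [], by simp, by
    simp only [hm]
    split_ifs
    · exact le_rfl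
    · exact le_top, by simp [amalg, hm], fun _ => rfl⟩
  kp h m H := ⟨hm β ⊤ m, [], by simp, by simp [amalg, hm]⟩

theorem sup (A : AmH F r p₁ p₂ π D β b) {δ : WithTop L} (h1 : β ≤ δ ∨ Sup δ r) (h2 : Sup δ p₂) :
    Sup δ A.amalg := fun h H γ x => by
  simp only [amalg, amSt] at x
  split_ifs at x with h3
  · exact h1.elim h3.trans_le fun h1 => h1 _ (A.inv H).1 γ x
  · exact h2 _ (A.inv H).2.1 γ x

theorem amL_wait (A : AmH F r p₁ p₂ π D β b) {h : Hist L} (H : Lg A.amalg.st h)
    (hw : ∀ m ∈ h, m.1 ≤ β) : amL π D β b h = cp β (π (ht β b h)) := by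
  rw [← (A.inv H).2.2, cp_eq_self (amL_le π D b le_rfl hw)]

theorem root_up (A : AmH F r p₁ p₂ π D β b) {γ : L} (h : β ≤ γ) :
    A.amalg.st [] γ = p₂.st [] γ := by
  have l := (A.inv (lg_nil _)).2.1
  simp only [amalg, amSt, if_neg (not_lt.2 h)]
  rw [amL_nil] at l ⊢
  exact Cond.wait_path (h := []) l fun a ha => (cp_le a ha).trans h

end AmH

/-- amalgamation of an extension of the restriction -/
theorem amH_res {F : ℕ → Prop} {r p : Cond L} {β : L} (hβ : p.st [] β ≠ none)
    {π : Hist L → Hist L} (h : Sim F r (p.res β hβ) π) :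
    ∃ D, AmH F r (p.res β hβ) p π D β ⊤ := by
  obtain ⟨D, hD⟩ := h.exists_dec
  exact ⟨D, hD, p.agree_res β hβ, le_top, ok_top _, ok_coe.2 hβ⟩

end Pool.Agent.P.MP_56695d_gt
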