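import Mathlib

set_option autoImplicit false

/-! Nested Miller conditions: histories, conditions, simulations. -/

namespace Pool.Agent.P.MP_56695d_gt

/-- a move: a cut and an index -/
abbrev Mv (L : Type) := WithTop L × ℕ

/-- histories -/
abbrev Hist (L : Type) := List (Mv L)

/-- states -/
abbrev St (L : Type) := L → Option (List ℕ)

variable {L : Type}

/-- the clock part of a history -/
def clk (h : Hist L) : List ℕ := h.map Prod.snd

@[simp] theorem clk_nil : clk ([] : Hist L) = [] := rfl

@[simp] theorem clk_append (h g : Hist L) : clk (h ++ g) = clk h ++ clk g := List.map_append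

@[simp] theorem clk_cons (m : Mv L) (g : Hist L) : clk (m :: g) = m.2 :: clk g := rfl

@[simp] theorem clk_length (h : Hist L) : (clk h).length = h.length := List.length_map _

/-- a cut is allowed in a state -/
def Ok (s : St L) (w : WithTop L) : Prop := ∀ γ : L, w = γ → s γ ≠ none

theorem ok_top (s : St L) : Ok s ⊤ := fun _ h => absurd h WithTop.top_ne_coe

theorem ok_coe {s : St L} {γ : L} : Ok s γ ↔ s γ ≠ none :=
  ⟨fun h => h γ rfl, fun h _ e => WithTop.coe_injective e ▸ h⟩

/-- legal histories -/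
def Lg (st : Hist L → St L) (h : Hist L) : Prop := ∀ g m t, h = g ++ m :: t → Ok (st g) m.1

theorem lg_nil (st : Hist L → St L) : Lg st [] := fun g m t h => by simp at h

theorem lg_snoc {st : Hist L → St L} {h : Hist L} {a : Mv L} :
    Lg st (h ++ [a]) ↔ Lg st h ∧ Ok (st h) a.1 := by
  refine ⟨fun H => ⟨fun g m t e => H g m (t ++ [a]) (by simp [e]), H h a [] rfl⟩, ?_⟩
  rintro ⟨H, Ha⟩ g m t e
  rcases List.eq_nil_or_concat t with rfl | ⟨t', b, rfl⟩
  · obtain ⟨rfl, e2⟩ := List.append_inj' e rfl
    obtain rfl : a = m := by simpa using e2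
    exact Ha
  · have e' : h ++ [a] = (g ++ m :: t') ++ [b] := by simp [e]
    exact H g m t' (List.append_inj' e' rfl).1

theorem lg_append {st : Hist L → St L} {h g : Hist L} :
    Lg st (h ++ g) ↔ Lg st h ∧ Lg (fun g => st (h ++ g)) g := by
  induction g using List.reverseRecOn with
  | nil => simp [lg_nil]
  | append_singleton g a ih => rw [← List.append_assoc, lg_snoc, lg_snoc, ih, and_assoc]

theorem Lg.left {st : Hist L → St L} {h g : Hist L} (H : Lg st (h ++ g)) : Lg st h :=
  (lg_append.1 H).1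

theorem lg_single {st : Hist L → St L} {a : Mv L} : Lg st [a] ↔ Ok (st []) a.1 := by
  have := lg_snoc (st := st) (h := []) (a := a)
  simpa [lg_nil] using this

theorem lg_cons {st : Hist L → St L} {a : Mv L} {g : Hist L} :
    Lg st (a :: g) ↔ Ok (st []) a.1 ∧ Lg (fun g => st (a :: g)) g := by
  have := lg_append (st := st) (h := [a]) (g := g)
  rwa [lg_single] at this

theorem lg_congr {st st' : Hist L → St L} {h : Hist L}
    (e : ∀ g, g.length < h.length → Lg st g → ∀ γ, st g γ ≠ none → st' g γ ≠ none)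
    (H : Lg st h) : Lg st' h := by
  rintro g m t rfl γ hγ
  exact e g (by simp) H.left γ (H g m t rfl γ hγ)

/-- recursion along the end of a list -/
def srec {α β : Type} (z : β) (f : List α → α → β → β) (l : List α) : β :=
  List.reverseRecOn (motive := fun _ => β) l z fun l a b => f l a b

@[simp] theorem srec_nil {α β : Type} (z : β) (f : List α → α → β → β) : srec z f [] = z := by
  simp [srec]

@[simp] theorem srec_snoc {α β : Type} (z : β) (f : List α → α → β → β) (l : List α) (a : α) :
    srec z f (l ++ [a]) = f l a (srec z f l) := by simp [srec]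

variable [LinearOrder L]

/-- cap the cuts of a history -/
def cp (β : WithTop L) (h : Hist L) : Hist L := h.map fun m => (min m.1 β, m.2)

@[simp] theorem cp_nil (β : WithTop L) : cp β [] = [] := rfl

@[simp] theorem cp_append (β : WithTop L) (h g : Hist L) : cp β (h ++ g) = cp β h ++ cp β g :=
  List.map_append

@[simp] theorem cp_cons (β : WithTop L) (m : Mv L) (g : Hist L) :
    cp β (m :: g) = (min m.1 β, m.2) :: cp β g := rfl

@[simp] theorem cp_length (β : WithTop L) (h : Hist L) : (cp β h).length = h.length :=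
  List.length_map _

@[simp] theorem clk_cp (β : WithTop L) (h : Hist L) : clk (cp β h) = clk h := by
  simp [clk, cp]

theorem cp_cp (β γ : WithTop L) (h : Hist L) : cp β (cp γ h) = cp (min γ β) h := by
  simp [cp, min_assoc]

@[simp] theorem cp_top (h : Hist L) : cp ⊤ h = h := by simp [cp]

theorem cp_of_le {β γ : WithTop L} (hle : β ≤ γ) {h h' : Hist L} (e : cp γ h = cp γ h') :
    cp β h = cp β h' := by
  have := congrArg (cp β) e
  rwa [cp_cp, cp_cp, min_eq_right hle] at this

theorem clk_of_cp {β : WithTop L} {h h' : Hist L} (e : cp β h = cp β h') : clk h = clk h' := by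
  simpa using congrArg clk e

theorem cp_le {β : WithTop L} {h : Hist L} : ∀ m ∈ cp β h, m.1 ≤ β := by
  intro m hm
  obtain ⟨a, -, rfl⟩ := List.mem_map.1 hm
  exact min_le_right _ _

theorem cp_eq_self {β : WithTop L} {h : Hist L} (H : ∀ m ∈ h, m.1 ≤ β) : cp β h = h := by
  refine (List.map_congr_left fun m hm => ?_).trans (List.map_id h)
  simp [min_eq_left (H m hm)]

/-- induction over two histories with the same cap -/
theorem cp_induction {β : WithTop L} {R : Hist L → Hist L → Prop} (h0 : R [] [])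
    (h1 : ∀ h h' m m', cp β h = cp β h' → min m.1 β = min m'.1 β → m.2 = m'.2 → R h h' →
      R (h ++ [m]) (h' ++ [m'])) {h h' : Hist L} (e : cp β h = cp β h') : R h h' := by
  induction h using List.reverseRecOn generalizing h' with
  | nil =>
    obtain rfl : h' = [] := by simpa [cp] using e.symm
    exact h0
  | append_singleton h m ih =>
    rcases List.eq_nil_or_concat h' with rfl | ⟨g, b, rfl⟩
    · simp [cp] at e
    · simp only [List.concat_eq_append, cp_append] at e ⊢
      obtain ⟨e1, e2⟩ := List.append_inj' e (by simp)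
      simp only [cp_cons, cp_nil, List.cons.injEq, Prod.mk.injEq, and_true] at e2
      exact h1 _ _ _ _ e1 e2.1 e2.2 (ih e1)

variable (L) in
/-- conditions -/
@[ext] structure Cond where
  /-- state after a history -/
  st : Hist L → St L
  /-- mark of a clock move -/
  mark : List ℕ → ℕ → ℕ
  /-- starting time of a clock move -/
  kap : List ℕ → ℕ → ℕ
  fin : ∀ h, Lg st h → {γ | st h γ ≠ none}.Finite
  loc : ∀ β h h', Lg st h → Lg st h' → cp β h = cp β h' → ∀ γ : L, (γ : WithTop L) < β →
    st h γ = st h' γ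
  wait : ∀ h (m : Mv L), Lg st (h ++ [m]) → ∀ γ : L, m.1 ≤ γ → st (h ++ [m]) γ = st h γ
  move : ∀ h (m : Mv L), Lg st (h ++ [m]) → ∀ γ : L, (γ : WithTop L) < m.1 → ∀ s, st h γ = some s →
    ∃ t, t ≠ [] ∧ st (h ++ [m]) γ = some (s ++ t) ∧ ∀ a ∈ t, kap (clk h) m.2 ≤ a
  e1 : ∀ ks n, ∃ N, ∀ k, N ≤ k → n ≤ kap ks k
  e2 : ∀ ks k j, mark ks k < kap (ks ++ [k]) j
  e3 : ∀ ks k, kap ks k ≤ mark ks k

namespace Cond

variable (p : Cond L)

theorem kap_lt (ks : List ℕ) (k : ℕ) (t : List ℕ) (j : ℕ) :
    p.mark ks k < p.kap (ks ++ k :: t) j := by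
  induction t using List.reverseRecOn generalizing j with
  | nil => exact p.e2 ks k j
  | append_singleton t a ih =>
    have := p.e2 (ks ++ k :: t) a j
    have h2 := p.e3 (ks ++ k :: t) a
    have h3 := ih a
    simp only [List.append_assoc, List.cons_append] at this
    omega

theorem kap_le (ks : List ℕ) (k : ℕ) (t : List ℕ) (j : ℕ) :
    p.kap ks k ≤ p.kap (ks ++ k :: t) j := ((p.e3 ks k).trans_lt (p.kap_lt ks k t j)).le

theorem length_le_kap (ks : List ℕ) (k : ℕ) : ks.length ≤ p.kap ks k := by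
  induction ks using List.reverseRecOn generalizing k with
  | nil => simp
  | append_singleton ks a ih =>
    have := p.e2 ks a k
    have h2 := p.e3 ks a
    have h3 := ih a
    simp only [List.length_append, List.length_singleton]
    omega

variable {p}

theorem wait_path {h g : Hist L} (H : Lg p.st (h ++ g)) {γ : L} (hg : ∀ m ∈ g, m.1 ≤ γ) :
    p.st (h ++ g) γ = p.st h γ := by
  induction g using List.reverseRecOn with
  | nil => simp
  | append_singleton g a ih =>
    rw [← List.append_assoc] at H ⊢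
    rw [p.wait _ _ H γ (hg a (by simp)), ih H.left fun m hm => hg m (by simp [hm])]

theorem ext_path {h g : Hist L} (H : Lg p.st (h ++ g)) {γ : L} {s : List ℕ}
    (hs : p.st h γ = some s) : ∃ t, p.st (h ++ g) γ = some (s ++ t) ∧
      ((∃ m ∈ g, (γ : WithTop L) < m.1) → t ≠ []) ∧
      ∀ a ∈ t, ∀ m r, g = m :: r → p.kap (clk h) m.2 ≤ a := by
  induction g using List.reverseRecOn with
  | nil => exact ⟨[], by simpa using hs, by simp, by simp⟩
  | append_singleton g a ih =>
    rw [← List.append_assoc] at H ⊢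
    obtain ⟨t, h1, h2, h3⟩ := ih H.left
    rcases le_or_gt a.1 γ with hl | hl
    · refine ⟨t, by rw [p.wait _ _ H γ hl, h1], ?_, fun b hb m r e => ?_⟩
      · rintro ⟨m, hm, hm'⟩
        rcases List.mem_append.1 hm with hm | hm
        · exact h2 ⟨m, hm, hm'⟩
        · rw [List.mem_singleton.1 hm] at hm'
          exact absurd hl (not_le.2 hm')
      · cases g with
        | nil =>
          rw [List.append_nil, hs] at h1
          have : t = [] := by simpa using h1
          simp [this] at hb
        | cons c g => exact h3 b hb m g (by simp at e; rw [e.1])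
    · obtain ⟨t', g1, g2, g3⟩ := p.move _ _ H γ hl _ h1
      refine ⟨t ++ t', by rw [g2, List.append_assoc], fun _ => by simp [g1], fun b hb m r e => ?_⟩
      cases g with
      | nil =>
        rw [List.append_nil, hs] at h1
        have : t = [] := by simpa using h1
        simp only [List.nil_append, List.cons.injEq] at e
        simp only [this, List.nil_append] at hb
        simpa [← e.1] using g3 b hb
      | cons c g =>
        simp only [List.cons_append, List.cons.injEq] at e
        rcases List.mem_append.1 hb with hb | hb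
        · exact h3 b hb m g (by rw [e.1])
        · refine le_trans ?_ (g3 b hb)
          rw [← e.1, clk_append, clk_cons]
          exact p.kap_le _ _ _ _

theorem ok_path {h g : Hist L} (H : Lg p.st (h ++ g)) {w : WithTop L} (hw : Ok (p.st h) w) :
    Ok (p.st (h ++ g)) w := fun γ e => by
  obtain ⟨s, hs⟩ := Option.ne_none_iff_exists'.1 (hw γ e)
  obtain ⟨t, ht, -⟩ := ext_path H hs
  simp [ht]

theorem ok_root {h : Hist L} (H : Lg p.st h) {w : WithTop L} (hw : Ok (p.st []) w) :
    Ok (p.st h) w := ok_path (h := []) H hw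

/-- the cone above a history -/
def rr (p : Cond L) (h : Hist L) (H : Lg p.st h) : Cond L where
  st g := p.st (h ++ g)
  mark ks := p.mark (clk h ++ ks)
  kap ks := p.kap (clk h ++ ks)
  fin g G := p.fin _ (lg_append.2 ⟨H, G⟩)
  loc β g g' G G' e := p.loc β _ _ (lg_append.2 ⟨H, G⟩) (lg_append.2 ⟨H, G'⟩) (by simp [e])
  wait g m G := by
    simpa only [List.append_assoc] using p.wait (h ++ g) m
      (by simpa only [List.append_assoc] using lg_append.2 ⟨H, G⟩)
  move g m G := by
    simpa only [List.append_assoc, clk_append] using p.move (h ++ g) m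
      (by simpa only [List.append_assoc] using lg_append.2 ⟨H, G⟩)
  e1 ks := p.e1 _
  e2 ks k j := by simpa only [List.append_assoc] using p.e2 (clk h ++ ks) k j
  e3 ks := p.e3 _

theorem lg_rr {h g : Hist L} (H : Lg p.st h) : Lg (p.rr h H).st g ↔ Lg p.st (h ++ g) :=
  ⟨fun G => lg_append.2 ⟨H, G⟩, fun G => (lg_append.1 G).2⟩

theorem rr_nil (p : Cond L) : p.rr [] (lg_nil _) = p := rfl

theorem rr_rr {h g : Hist L} (H : Lg p.st h) (G : Lg (p.rr h H).st g) :
    (p.rr h H).rr g G = p.rr (h ++ g) ((lg_rr H).1 G) := by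
  ext1 <;> simp [rr]

end Cond

/-- simulations; `F n` asks that the marked move comes first at level `n` -/
structure Sim (F : ℕ → Prop) (q p : Cond L) (π : Hist L → Hist L) : Prop where
  leg : ∀ h, Lg q.st h → Lg p.st (π h)
  sits : ∀ h, Lg q.st h → ∀ γ s, p.st (π h) γ = some s → q.st h γ = some s
  mrk : ∀ h (m : Mv L), Lg q.st (h ++ [m]) → ∃ (pre : Hist L) (m' : Mv L) (post : Hist L),
    π (h ++ [m]) = π h ++ pre ++ m' :: post ∧
    m.1 ≤ m'.1 ∧ p.mark (clk (π h ++ pre)) m'.2 = q.mark (clk h) m.2 ∧ (F h.length → pre = [])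
  kp : ∀ h (m : Mv L), Lg q.st (h ++ [m]) → ∃ (m' : Mv L) (r : Hist L), π (h ++ [m]) = π h ++ m' :: r ∧
    q.kap (clk h) m.2 ≤ p.kap (clk (π h)) m'.2

namespace Sim

variable {F G : ℕ → Prop} {r q p : Cond L} {π π' : Hist L → Hist L}

theorem mono (h : Sim F q p π) (e : ∀ n, G n → F n) : Sim G q p π :=
  ⟨h.leg, h.sits, fun g m H => by
    obtain ⟨pre, m', post, h1, h2, h3, h4⟩ := h.mrk g m H
    exact ⟨pre, m', post, h1, h2, h3, fun x => h4 (e _ x)⟩, h.kp⟩

theorem refl (F : ℕ → Prop) (p : Cond L) : Sim F p p id :=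
  ⟨fun _ h => h, fun _ _ _ _ h => h, fun h m _ => ⟨[], m, [], by simp, le_rfl, by simp, fun _ => rfl⟩,
    fun h m _ => ⟨m, [], by simp, le_rfl⟩⟩

theorem rr (F : ℕ → Prop) (p : Cond L) {h : Hist L} (H : Lg p.st h) :
    Sim F (p.rr h H) p (h ++ ·) :=
  ⟨fun _ G => (Cond.lg_rr H).1 G, fun _ _ _ _ h => h,
    fun g m _ => ⟨[], m, [], by simp, le_rfl, by simp [Cond.rr], fun _ => rfl⟩,
    fun g m _ => ⟨m, [], by simp, by simp [Cond.rr]⟩⟩

theorem pre (h : Sim F q p π) {g t : Hist L} (H : Lg q.st (g ++ t)) :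
    ∃ x, π (g ++ t) = π g ++ x ∧ t.length ≤ x.length := by
  induction t using List.reverseRecOn with
  | nil => exact ⟨[], by simp, le_rfl⟩
  | append_singleton t a ih =>
    rw [← List.append_assoc] at H ⊢
    obtain ⟨x, hx, hl⟩ := ih H.left
    obtain ⟨m', s, h1, -⟩ := h.kp _ _ H
    exact ⟨x ++ m' :: s, by rw [h1, hx, List.append_assoc], by simp; omega⟩

theorem comp {H : ℕ → Prop} (h' : Sim F r q π') (h : Sim G q p π)
    (e : ∀ g, Lg r.st g → H g.length → F g.length ∧ G (π' g).length) : Sim H r p (π ∘ π') where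
  leg g x := h.leg _ (h'.leg g x)
  sits g x γ s y := h'.sits g x γ s (h.sits _ (h'.leg g x) γ s y)
  mrk g m x := by
    obtain ⟨pre, m', post, h1, h2, h3, h4⟩ := h'.mrk g m x
    have l1 := h'.leg _ x
    rw [h1] at l1
    have l2 : Lg q.st (π' g ++ pre ++ [m'] ++ post) := by simpa using l1
    obtain ⟨pre', m'', post', g1, g2, g3, g4⟩ := h.mrk _ _ l2.left
    obtain ⟨y, hy, -⟩ := h.pre l2.left.left
    obtain ⟨z, hz, -⟩ := h.pre l2
    refine ⟨y ++ pre', m'', post' ++ z, ?_, h2.trans g2, ?_, fun hH => ?_⟩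
    · have : π' (g ++ [m]) = π' g ++ pre ++ [m'] ++ post := by simp [h1]
      simp only [Function.comp]
      rw [this, hz, g1, hy]
      simp
    · rw [← h3, ← g3, hy]
      simp
    · obtain ⟨k1, k2⟩ := e g x.left hH
      obtain rfl := h4 k1
      rw [List.append_nil] at hy g4
      have : y = [] := by simpa using hy
      simp [this, g4 k2]
  kp g m x := by
    obtain ⟨m', s, h1, h2⟩ := h'.kp g m x
    have l1 := h'.leg _ x
    rw [h1] at l1
    have l2 : Lg q.st (π' g ++ [m'] ++ s) := by simpa using l1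
    obtain ⟨m'', s', g1, g2⟩ := h.kp _ _ l2.left
    obtain ⟨z, hz, -⟩ := h.pre l2
    refine ⟨m'', s' ++ z, ?_, h2.trans g2⟩
    have : π' (g ++ [m]) = π' g ++ [m'] ++ s := by simp [h1]
    simp only [Function.comp]
    rw [this, hz, g1]
    simp

/-- a simulation only matters on legal histories -/
theorem congr (h : Sim F q p π) (e : ∀ g, Lg q.st g → π' g = π g) : Sim F q p π' :=
  ⟨fun g x => e g x ▸ h.leg g x, fun g x => e g x ▸ h.sits g x,
    fun g m x => by rw [e _ x, e _ x.left]; exact h.mrk g m x,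
    fun g m x => by rw [e _ x, e _ x.left]; exact h.kp g m x⟩

/-- a simulation into a cone -/
theorem into (h : Sim F q p π) {x : Hist L} (X : Lg p.st x) (e : x <+: π []) :
    Sim F q (p.rr x X) (fun g => (π g).drop x.length) ∧
      ∀ g, Lg q.st g → π g = x ++ (π g).drop x.length := by
  have k : ∀ g, Lg q.st g → π g = x ++ (π g).drop x.length := by
    intro g G
    obtain ⟨y, hy, -⟩ := h.pre (g := []) G
    obtain ⟨z, hz⟩ := e
    rw [List.nil_append, ← hz] at hy
    rw [hy]; simp
  refine ⟨⟨fun g G => (Cond.lg_rr X).2 (k g G ▸ h.leg g G), fun g G γ s y => ?_, fun g m G => ?_,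
    fun g m G => ?_⟩, k⟩
  · exact h.sits g G γ s (by rw [k g G]; exact y)
  · obtain ⟨pre, m', post, h1, h2, h3, h4⟩ := h.mrk g m G
    refine ⟨pre, m', post, ?_, h2, ?_, h4⟩
    · rw [h1, k g G.left]; simp
    · rw [← h3, k g G.left]; simp [Cond.rr]
  · obtain ⟨m', s, h1, h2⟩ := h.kp g m G
    refine ⟨m', s, ?_, ?_⟩
    · rw [h1, k g G.left]; simp
    · rw [k g G.left] at h2; simpa [Cond.rr] using h2

/-- an active coordinate that waits is not moved in the simulation -/
theorem seg_le (h : Sim F q p π) {g : Hist L} {m : Mv L} (H : Lg q.st (g ++ [m])) {γ : L}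
    (hγ : p.st (π g) γ ≠ none) (hm : m.1 ≤ γ) {x : Hist L} (hx : π (g ++ [m]) = π g ++ x) :
    ∀ a ∈ x, a.1 ≤ γ := by
  intro a ha
  by_contra hc
  obtain ⟨s, hs⟩ := Option.ne_none_iff_exists'.1 hγ
  have l := h.leg _ H
  rw [hx] at l
  obtain ⟨t, h1, h2, -⟩ := Cond.ext_path l hs
  have e1 := h.sits _ H γ _ (hx ▸ h1)
  rw [q.wait _ _ H γ hm, h.sits _ H.left γ s hs] at e1
  exact h2 ⟨a, ha, not_le.1 hc⟩ (by simpa using e1)

end Sim

instance : Preorder (Cond L) where
  le q p := ∃ π, Sim (fun _ => False) q p π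
  le_refl p := ⟨_, Sim.refl _ p⟩
  le_trans _ _ _ := fun ⟨_, h⟩ ⟨_, h'⟩ => ⟨_, h.comp h' fun _ _ x => ⟨x, x⟩⟩

theorem Sim.le {F : ℕ → Prop} {q p : Cond L} {π : Hist L → Hist L} (h : Sim F q p π) : q ≤ p :=
  ⟨π, h.mono fun _ x => x.elim⟩

theorem Cond.rr_le (p : Cond L) {h : Hist L} (H : Lg p.st h) : p.rr h H ≤ p := (Sim.rr (fun _ => False) p H).le

/-- a cone lies below every cone that its simulation passes through -/
theorem Sim.rr_le {F : ℕ → Prop} {q p : Cond L} {π : Hist L → Hist L} (h : Sim F q p π)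
    {g x : Hist L} (G : Lg q.st g) (X : Lg p.st x) (e : x <+: π g) : q.rr g G ≤ p.rr x X :=
  ((((Sim.rr (fun _ => False) q G).comp (H := fun _ => False) h fun _ _ x => x.elim).into X
    (by simpa using e)).1).le

end Pool.Agent.P.MP_56695d_gt
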