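import Pool.Agent.P.MP_56695d_gt.Fusion

set_option autoImplicit false

/-! Reading names, the Ramsey lemma, pure decision. -/

namespace Pool.Agent.P.MP_56695d_gt

variable {L : Type} [LinearOrder L]

theorem fus_target {K : Cond L → Prop} {W : WithTop L → Prop} {w : WithTop L}
    {D : ℕ → Cond L → Prop} (hD : ∀ n q r, r ≤ q → D n q → D n r)
    (K_rr : ∀ p (m : Mv L) H, W m.1 → K p → K (p.rr [m] H))
    (K_le : ∀ q p, q.st [] = p.st [] → K p → K q) (K_ok : ∀ p, K p → Ok (p.st []) w)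
    (hd : ∀ p k G, K p → ∃ q ≤ p.rr [(w, k)] G, (∀ γ : L, w ≤ γ → q.st [] γ = p.st [] γ) ∧
      D (p.mark [] k) q) {p : Cond L} (hp : K p) :
    ∃ q π, LEn 0 (fun _ => False) q p π ∧ ∀ h k (G : Lg q.st (h ++ [(w, k)])), (∀ m ∈ h, W m.1) →
      D (q.mark (clk h) k) (q.rr _ G) := by
  have A : FusH False True ⊤ W (fun p (_ : Hist L → Unit) => K p)
      fun p _ => ∀ k G, D (p.mark [] k) (p.rr [(w, k)] G) := by
    refine ⟨fun p _ => K_rr p, fun q p π _ _ h _ _ => K_le q p h.root,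
      fun q p π _ _ h ht _ d k G => ?_, fun p _ hK _ => ?_⟩
    · obtain ⟨k', post, h1, h2, -⟩ := ht trivial [] (w, k) G rfl
      have G' : Lg p.st [(w, k')] := lg_single.2 (h.root ▸ (lg_single.1 G : Ok _ w))
      exact h2 ▸ hD _ _ _ (h.sim.rr_le G G' ⟨post, h1.symm⟩) (d k' G')
    · obtain ⟨q, π, h1, h2, h3, h4⟩ := exists_graft0 (f := False) (g := True) (K_ok p hK)
        (sup_top p) (fun k q _ => D (p.mark [] k) q) (fun k q π r σ h => hD _ _ _ h.le) fun k => by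
          obtain ⟨q, ⟨π, h1⟩, h2, h3⟩ := hd p k (lg_single.2 (K_ok p hK)) hK
          exact ⟨q, π, h1, sup_top q, h2, h3⟩
      exact ⟨q, π, h1, h2, fun k G => h3 ▸ (h4 k G).choose_spec.1⟩
  obtain ⟨q, π, h1, -, h2⟩ := A.fus (t := fun _ => ()) hp (sup_top p)
  refine ⟨q, π, h1, fun h k G hh => ?_⟩
  have := h2 h G.left hh k ((Cond.lg_rr G.left).2 G)
  rw [Cond.rr_rr] at this
  simpa [Cond.rr] using this

theorem exists_str {D : ℕ → Cond L → Prop} (hD : ∀ n q r, r ≤ q → D n q → D n r)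
    (hd : ∀ n p, ∃ q ≤ p, D n q) (p : Cond L) :
    ∃ q ≤ p, ∀ h k (G : Lg q.st (h ++ [(⊤, k)])), D (q.mark (clk h) k) (q.rr _ G) := by
  obtain ⟨q, π, h1, h2⟩ := fus_target (K := fun _ => True) (W := fun _ => True) (w := ⊤) hD
    (fun _ _ _ _ _ => trivial) (fun _ _ _ _ => trivial) (fun _ _ => ok_top _) (fun p k G _ => by
      obtain ⟨q, h1, h2⟩ := hd (p.mark [] k) (p.rr _ G)
      exact ⟨q, h1, fun γ x => by simp at x, h2⟩) (p := p) trivial
  exact ⟨q, h1.le, fun h k G => h2 h k G fun _ _ => trivial⟩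

theorem cuts_le {p : Cond L} {w w1 : WithTop L} (hw : ∀ c, Ok (p.st []) c → c < w1 → c ≤ w)
    {h : Hist L} (H : Lg p.st h) (hh : ∀ m ∈ h, m.1 < w1) : ∀ m ∈ h, m.1 ≤ w := by
  induction h using List.reverseRecOn with
  | nil => simp
  | append_singleton h a ih =>
    have i := ih H.left fun m hm => hh m (by simp [hm])
    intro m hm
    rcases List.mem_append.1 hm with hm | hm
    · exact i m hm
    · rw [List.mem_singleton.1 hm]
      by_contra hc
      refine hc (hw _ (fun γ e => ?_) (hh a (by simp)))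
      rw [← Cond.wait_path (h := []) H.left fun b hb => (i b hb).trans (e ▸ (not_le.1 hc).le)]
      exact (lg_snoc.1 H).2 γ e

/-- all nontotal histories have colour `i` -/
def Nt (i : Bool) (p : Cond L) (t : Hist L → Bool) : Prop :=
  ∀ h, Lg p.st h → (∀ a ∈ h, a.1 ≠ ⊤) → t h = i

theorem Nt.len {i : Bool} {q p : Cond L} {t : Hist L → Bool} {π : Hist L → Hist L} {F : ℕ → Prop}
    (h : LEn 0 F q p π) (H : Nt i p t) : Nt i q (t ∘ π) := fun g G x =>
  H _ (h.sim.leg g G) (h.sim.nontotal (by simp [h.nil])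
    (fun γ y => ⟨γ, le_rfl, h.root ▸ y⟩) G x)

omit [LinearOrder L] in
theorem last_total (h : Hist L) : (∀ a ∈ h, a.1 ≠ ⊤) ∨
    ∃ g k x, h = g ++ (⊤, k) :: x ∧ ∀ a ∈ x, a.1 ≠ ⊤ := by
  induction h using List.reverseRecOn with
  | nil => simp
  | append_singleton h m ih =>
    by_cases e : m.1 = ⊤
    · exact Or.inr ⟨h, m.2, [], by rw [← e], by simp⟩
    · rcases ih with ih | ⟨g, k, x, rfl, ih⟩
      · exact Or.inl (by simpa [or_imp, forall_and, e] using ih)
      · exact Or.inr ⟨g, k, x ++ [m], by simp, by simpa [or_imp, forall_and, e] using ih⟩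

/-- Ramsey lemma: colourings of histories can be made constant -/
theorem exists_const [WellFoundedLT L] (β : WithTop L) : ∀ (p : Cond L) (t : Hist L → Bool),
    Sup β p → ∃ q π i, Sim (fun _ => True) q p π ∧ ∀ h, Lg q.st h → t (π h) = i := by
  induction β using WellFoundedLT.induction with
  | ind β ih =>
  have step : ∀ (p : Cond L) (t : Hist L → Bool), Sup β p →
      ∃ q π i, Sim (fun _ => True) q p π ∧ Sup β q ∧ Nt i q (t ∘ π) := by
    intro p t hp
    rcases Set.eq_empty_or_nonempty {γ | p.st [] γ ≠ none} with e | e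
    · refine ⟨p, id, t [], Sim.refl _ p, hp, ?_⟩
      rintro (_ | ⟨m, g⟩) G x
      · rfl
      · obtain ⟨γ, y⟩ := WithTop.ne_top_iff_exists.1 (x m (by simp))
        exact absurd (e ▸ (lg_cons.1 G).1 γ y.symm : γ ∈ (∅ : Set L)) id
    · obtain ⟨w, hw, hm⟩ := Set.exists_max_image _ id (p.fin [] (lg_nil _)) e
      have hβ := hp [] (lg_nil _) w hw
      obtain ⟨r, π, i, h1, h2⟩ := ih w hβ (p.res w hw) (t ∘ cp w) (p.sup_res w hw)
      obtain ⟨D, A⟩ := amH_res hw h1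
      refine ⟨_, _, i, A.sim_up, A.sup (Or.inl hβ.le) hp, fun h H x => ?_⟩
      rw [Function.comp, A.amL_wait H (cuts_le (w1 := ⊤) (fun c y z => ?_) H
        fun m hm => lt_top_iff_ne_top.2 (x m hm))]
      · exact h2 _ (A.inv H).1
      · obtain ⟨γ, rfl⟩ := WithTop.ne_top_iff_exists.1 z.ne
        by_contra hc
        exact hc (WithTop.coe_le_coe.2 (hm γ fun z =>
          y γ rfl ((A.root_up (not_le.1 hc).le).trans z)))
  let K : Bool → Cond L → (Hist L → Bool) → Prop := fun i p t => ∀ q π t',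
    Sim (fun _ => True) q p π → Sup β q → (∀ h, Lg q.st h → t' h = t (π h)) →
    ∃ r σ, Sim (fun _ => True) r q σ ∧ Sup β r ∧ Nt i r (t' ∘ σ)
  have K_ext : ∀ {i q p π t t'}, Sim (fun _ => True) q p π → (∀ h, Lg q.st h → t' h = t (π h)) →
      K i p t → K i q t' := fun h e k r σ t'' h' s e' =>
    k r _ t'' (h'.comp h fun _ _ x => ⟨x, x⟩) s fun g G => (e' g G).trans (e _ (h'.leg g G))
  intro p t hp
  obtain ⟨q, π, i, h1, h2, h3⟩ : ∃ q π i, Sim (fun _ => True) q p π ∧ Sup β q ∧ K i q (t ∘ π) := by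
    by_cases x : K true p t
    · exact ⟨p, id, true, Sim.refl _ p, hp, x⟩
    · simp only [K, not_forall] at x
      obtain ⟨q, π, t', h1, h2, h3, h4⟩ := x
      refine ⟨q, π, false, h1, h2, fun r σ t'' g1 g2 g3 => ?_⟩
      obtain ⟨s, ρ, _ | _, k1, k2, k3⟩ := step r t'' g2
      · exact ⟨s, ρ, k1, k2, k3⟩
      · refine absurd ⟨s, σ ∘ ρ, k1.comp g1 fun _ _ x => ⟨x, x⟩, k2, fun g G x => ?_⟩ h4
        exact (h3 _ (g1.leg _ (k1.leg g G))).trans ((g3 _ (k1.leg g G)).symm.trans (k3 g G x))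
  obtain ⟨r, σ, g1, g2, g3⟩ := h3 q id (t ∘ π) (Sim.refl _ q) h2 fun _ _ => rfl
  have A : FusH True True β (fun _ => True) (K i)
      fun p t => ∀ k G, Nt i (p.rr [(⊤, k)] G) fun x => t ((⊤, k) :: x) := by
    refine ⟨fun p t m H _ => K_ext (Sim.rr _ p H) fun _ _ => rfl,
      fun q p π t t' h _ e => K_ext h.sim e, fun q p π t t' h ht e d k G x X y => ?_,
      fun p t hK hS => ?_⟩
    · obtain ⟨k', post, h1, -, h3, h4⟩ := ht trivial [] (⊤, k) G rfl
      have G' : Lg p.st [(⊤, k')] := lg_single.2 (ok_top _)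
      obtain ⟨a, b⟩ := ((Sim.rr (fun _ => True) q G).comp (H := fun _ => True) h.sim
        fun _ _ x => ⟨x, x⟩).into G' ⟨post, h1.symm⟩
      refine (e _ ((Cond.lg_rr G).1 X)).trans ((congrArg t (b x X)).trans
        (d k' G' _ (a.leg x X) (a.nontotal ?_ h4 X y)))
      rw [List.nil_append] at h1
      simpa [h1] using h3
    · obtain ⟨q, π, h1, h2, -, h4⟩ := exists_graft0 (f := True) (g := True) (ok_top _) hS
        (fun k q π => Nt i q fun x => t ((⊤, k) :: π x)) 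
        (fun k q π r σ h H => Nt.len (t := fun x => t ((⊤, k) :: π x)) h H) fun k => by
          obtain ⟨q, π, h1, h2, h3⟩ := hK _ _ (fun x => t ((⊤, k) :: x))
            (Sim.rr _ p (lg_single.2 (ok_top _))) (hS.rr _) fun _ _ => rfl
          exact ⟨q, π, h1, h2, fun γ x => by simp at x, h3⟩
      refine ⟨q, π, h1, h2, fun k G x X y => ?_⟩
      obtain ⟨σ, a, b⟩ := h4 k G
      exact (congrArg t (b x ((Cond.lg_rr G).1 X))).trans (a x X y)
  obtain ⟨s, ρ, k1, -, k2⟩ := A.fus (K_ext g1 (fun _ _ => rfl) h3) g2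
  refine ⟨s, π ∘ σ ∘ ρ, i, (k1.sim.comp (H := fun _ => True) g1 fun _ _ x => ⟨x, x⟩).comp h1
    fun _ _ x => ⟨x, x⟩, fun h H => ?_⟩
  rcases last_total h with x | ⟨g, k, x, rfl, y⟩
  · exact g3.len k1 h H x
  · exact k2 g H.left (fun _ _ => trivial) k (lg_single.2 (ok_top _)) x
      (lg_cons.1 (lg_append.1 H).2).2 y

theorem AmH.front_up {F : ℕ → Prop} {r p₁ p₂ : Cond L} {π : Hist L → Hist L} {D : Dec L}
    {β : WithTop L} (A : AmH F r p₁ p₂ π D β ⊤) {h : Hist L} {m : Mv L}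
    (H : Lg A.amalg.st (h ++ [m])) (hF : F h.length) (hm' : β ≤ m.1) :
    ∃ k, amL π D β ⊤ h ++ [(m.1, k)] <+: amL π D β ⊤ (h ++ [m]) := by
  have l1 := (A.inv H).1
  rw [ht_snoc] at l1
  obtain ⟨-, d2, -, d4⟩ := A.dec.dec _ _ l1
  simp only [hm, if_neg (not_lt.2 hm'), top_le_iff] at d2
  refine ⟨(D.mm (ht β ⊤ h) (hm β ⊤ m)).2, cp β (D.post (ht β ⊤ h) (hm β ⊤ m)), ?_⟩
  rw [amL_snoc, d4 (by simpa using hF)]
  simp [lift, hm, not_lt.2 hm', d2, hm']

theorem Sim.prefix_rr {F : ℕ → Prop} {q p : Cond L} {π : Hist L → Hist L} (h : Sim F q p π)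
    {g x : Hist L} (G : Lg q.st g) (e : x <+: π g) : ∃ X : Lg p.st x, q.rr g G ≤ p.rr x X := by
  have X : Lg p.st x := by
    obtain ⟨t, ht⟩ := e
    exact Lg.left (ht ▸ h.leg g G)
  exact ⟨X, h.rr_le G X e⟩

/-- thinning a condition all of whose cones above certain moves decide -/
theorem thin_target {D : Bool → Cond L → Prop} (hD : ∀ i q r, r ≤ q → D i q → D i r)
    {W : WithTop L → Prop} {w : WithTop L} {p : Cond L}
    (h : ∀ h k (G : Lg p.st (h ++ [(w, k)])), (∀ m ∈ h, W m.1) → ∃ i, D i (p.rr _ G)) :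
    ∃ (q : Cond L) (π : Hist L → Hist L) (c : Hist L → Bool), LEn 0 (fun _ => True) q p π ∧
      ∀ h k (G : Lg q.st (h ++ [(w, k)])), (∀ m ∈ h, W m.1) → D (c h) (q.rr _ G) := by
  obtain ⟨q, π, c, A, T, H⟩ := exists_thin_col p
    fun h k i => ∀ G : Lg p.st (h ++ [(w, k)]), D i (p.rr _ G)
  refine ⟨q, π, c ∘ π, T.len, fun g k G x => ?_⟩
  obtain ⟨k', k1, k2, -⟩ := T.snoc g (w, k)
  obtain ⟨X, y⟩ := T.len.sim.prefix_rr G ⟨[], (List.append_nil _).trans k2.symm⟩
  refine hD _ _ _ y (H _ X.left (fun j => ?_) k' k1 X)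
  exact (h (π g) j (lg_snoc.2 ⟨X.left, (lg_snoc.1 X).2⟩) (T.cuts x)).imp fun _ z _ => z

section decide

variable [WellFoundedLT L] {D : Bool → Cond L → Prop} (hD : ∀ i q r, r ≤ q → D i q → D i r)
  (hr : ∀ i q, (∀ r ≤ q, ∃ s ≤ r, D i s) → D i q) (hd : ∀ p, ∃ q ≤ p, ∃ i, D i q)

include hD hr hd

/-- pure decision above a cut -/
theorem exists_pure {s : St L} (hs : {γ | s γ ≠ none}.Finite) {w : WithTop L} (hw : Ok s w) :
    ∀ p : Cond L, (∀ γ : L, w ≤ γ → p.st [] γ = s γ) →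
      ∃ q ≤ p, (∀ γ : L, w ≤ γ → q.st [] γ = s γ) ∧ ∃ i, D i q := by
  refine Set.WellFoundedOn.induction ((fin_ok hs).wellFoundedOn (r := (· > ·))) hw
    (P := fun w => ∀ p : Cond L, (∀ γ : L, w ≤ γ → p.st [] γ = s γ) →
      ∃ q ≤ p, (∀ γ : L, w ≤ γ → q.st [] γ = s γ) ∧ ∃ i, D i q) fun w hw ih p hp => ?_
  rcases eq_or_ne w ⊤ with rfl | e
  · obtain ⟨q, h1, h2⟩ := hd p
    exact ⟨q, h1, fun γ x => by simp at x, h2⟩
  obtain ⟨w, rfl⟩ := WithTop.ne_top_iff_exists.1 e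
  obtain ⟨w1, ⟨a1, a2⟩, a3⟩ := Set.exists_min_image {c | Ok s c ∧ ↑w < c} id
    ((fin_ok hs).subset fun _ x => x.1) ⟨⊤, ok_top _, WithTop.coe_lt_top _⟩
  let K : Cond L → Prop := fun p => ∀ γ : L, (w : WithTop L) ≤ γ → p.st [] γ = s γ
  have k1 : ∀ p, K p → Ok (p.st []) w1 := fun p x γ y => by
    rw [x γ (y ▸ a2.le)]; exact a1 γ y
  have k2 : ∀ p, K p → ∀ c, Ok (p.st []) c → c < w1 → c ≤ w := fun p x c y z => by
    by_contra hc
    refine absurd (a3 c ⟨fun γ e => ?_, not_le.1 hc⟩) (not_le.2 z)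
    rw [← x γ (e ▸ (not_le.1 hc).le)]; exact y γ e
  obtain ⟨q, π, h1, h2⟩ := fus_target (K := K) (W := (· < w1)) (w := w1)
    (D := fun _ q => ∃ i, D i q) (fun _ q r x => Exists.imp fun i => hD i q r x)
    (fun p m H x y γ z => (p.wait [] m H γ ((k2 p y _ (lg_single.1 H) x).trans z)).trans (y γ z))
    (fun q p e x γ y => e ▸ x γ y) k1 (fun p k G x => by
      obtain ⟨q, h1, h2, h3⟩ := ih w1 a1 a2 (p.rr _ G) fun γ y =>
        (p.wait [] _ G γ y).trans (x γ (a2.le.trans y))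
      exact ⟨q, h1, fun γ y => (h2 γ y).trans (x γ (a2.le.trans y)).symm, h3⟩) hp
  obtain ⟨q2, π2, c, g1, g2⟩ := thin_target hD h2
  have K2 : K q2 := fun γ x => g1.root ▸ h1.root ▸ hp γ x
  have hw2 : q2.st [] w ≠ none := by rw [K2 w le_rfl]; exact hw w rfl
  obtain ⟨r, σ, i, b1, b2⟩ := exists_const w (q2.res w hw2) (c ∘ cp w) (q2.sup_res w hw2)
  obtain ⟨E, A⟩ := amH_res hw2 b1
  have K3 : K A.amalg := fun γ x => (A.root_up x).trans (K2 γ x)
  obtain ⟨q3, π3, c1, c2⟩ := exists_dbl (k1 _ K3) (hD i) (hr i) fun g k G x => by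
    obtain ⟨k', y⟩ := A.front_up G trivial a2.le
    obtain ⟨X, z⟩ := A.sim_up.prefix_rr G y
    have e := A.amL_wait G.left (cuts_le (k2 _ K3) G.left x)
    refine hD _ _ _ z ?_
    have := g2 _ k' X fun m hm => (cp_le m (e ▸ hm)).trans_lt a2
    rwa [show c (amL σ E w ⊤ g) = i from e ▸ b2 _ (A.inv G.left).1] at this
  exact ⟨q3, c1.le.trans (A.sim_up.le.trans (g1.le.trans h1.le)), fun γ x => c1.root ▸ K3 γ x, i, c2⟩

/-- pure decision -/
theorem exists_pure0 (p : Cond L) : ∃ q π, LEn 0 (fun _ => False) q p π ∧ ∃ i, D i q := by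
  obtain ⟨w, a1, a2⟩ := Set.exists_min_image {c | Ok (p.st []) c} id
    (fin_ok (p.fin [] (lg_nil _))) ⟨⊤, ok_top _⟩
  obtain ⟨q, π, h1, h2⟩ := fus_target (K := fun q => q.st [] = p.st []) (W := fun _ => False)
    (w := w) (D := fun _ q => ∃ i, D i q) (fun _ q r x => Exists.imp fun i => hD i q r x)
    (fun p m H x => x.elim) (fun q p e x => e.trans x) (fun _ x => x ▸ a1) (fun q k G x =>
      exists_pure hD hr hd (q.fin [] (lg_nil _)) (lg_single.1 G) (q.rr _ G) fun γ y =>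
        q.wait [] _ G γ y) rfl
  obtain ⟨q2, π2, c, g1, g2⟩ := thin_target (W := fun _ => False) hD h2
  have e : q2.st [] = p.st [] := g1.root.trans h1.root
  obtain ⟨q3, π3, c1, c2⟩ := exists_dbl (w := w) (e ▸ a1) (hD (c [])) (hr (c [])) fun g k G x => by
    cases g with
    | nil => exact g2 [] k G (by simp)
    | cons m g => exact absurd (a2 m.1 (e ▸ (lg_cons.1 G).1)) (not_le.2 (x m (by simp)))
  exact ⟨q3, _, (c1.trans (g1.mono le_rfl fun _ _ => trivial)).trans h1, _, c2⟩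

end decide

section reading

variable [WellFoundedLT L] {D : ℕ → Bool → Cond L → Prop}
  (hD : ∀ n i q r, r ≤ q → D n i q → D n i r)
  (hr : ∀ n i q, (∀ r ≤ q, ∃ s ≤ r, D n i s) → D n i q) (hd : ∀ n p, ∃ q ≤ p, ∃ i, D n i q)

include hD hr hd

theorem exists_read (p : Cond L) : ∃ q ≤ p, ∃ C : Hist L → ℕ → Bool,
    ∀ h (m : Mv L) (G : Lg q.st (h ++ [m])), ∀ n < q.kap (clk h) m.2, D n (C h n) (q.rr _ G) := by
  have A : FusH False False ⊤ (fun _ => True) (fun _ (_ : Hist L → Unit) => True)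
      fun p _ => ∃ C : ℕ → Bool, ∀ m G, ∀ n < p.kap [] m.2, D n (C n) (p.rr [m] G) := by
    refine ⟨fun _ _ _ _ _ _ => trivial, fun _ _ _ _ _ _ _ _ _ => trivial,
      fun q p π _ _ h _ _ => Exists.imp fun C d m G n x => ?_, fun p _ _ _ => ?_⟩
    · obtain ⟨m', s, h1, h2⟩ := h.sim.kp [] m G
      rw [h.nil] at h1 h2
      obtain ⟨X, y⟩ := h.sim.prefix_rr (x := [m']) G ⟨s, h1.symm⟩
      exact hD _ _ _ _ y (d m' X n (x.trans_le h2))
    · choose s ρ h1 C h2 using fun n => exists_pure0 (hD n) (hr n) (hd n)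
      let x : ℕ → Cond L := fun n => Nat.rec p s n
      have k : ∀ n, ∃ π, LEn 0 (fun _ => False) (x n) p π := by
        intro n
        induction n with
        | zero => exact ⟨id, LEn.refl _ _ _⟩
        | succ n ih => exact ih.elim fun π y => ⟨_, (h1 n (x n)).trans y⟩
      choose π k using k
      have anti : Antitone x := antitone_nat_of_succ_le fun n => (h1 n (x n)).le
      obtain ⟨r, σ, g1, g2, g3⟩ := exists_diag x π k
      exact ⟨r, σ, g1.mono le_rfl fun _ x => by simp at x, sup_top _, fun n => C n (x n),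
        fun m G n y => hD _ _ _ _ ((g3 m G).trans (anti (g2 m.2 ▸ y))) (h2 n (x n))⟩
  obtain ⟨q, π, h1, -, h2⟩ := A.fus (t := fun _ => ()) trivial (sup_top p)
  have : ∀ h, ∃ C : ℕ → Bool, ∀ (m : Mv L) (G : Lg q.st (h ++ [m])), ∀ n < q.kap (clk h) m.2,
      D n (C n) (q.rr _ G) := by
    intro h
    by_cases H : Lg q.st h
    · obtain ⟨C, hC⟩ := h2 h H fun _ _ => trivial
      refine ⟨C, fun m G n x => ?_⟩
      have := hC m ((Cond.lg_rr H).2 G) n (by simpa [Cond.rr] using x)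
      rwa [Cond.rr_rr] at this
    · exact ⟨fun _ => true, fun m G => absurd G.left H⟩
  choose C hC using this
  exact ⟨q, h1.le, C, hC⟩

omit hr in
/-- the marks of total moves can be made homogeneous -/
theorem exists_ultra (p : Cond L) : ∃ q ≤ p, ∃ i, ∀ h k (G : Lg q.st (h ++ [(⊤, k)])),
    D (q.mark (clk h) k) i (q.rr _ G) := by
  obtain ⟨q, h1, h2⟩ := exists_str (D := fun n q => ∃ i, D n i q)
    (fun n q r x => Exists.imp fun i => hD n i q r x) hd p
  obtain ⟨q2, π, c, A, T, H⟩ := exists_thin_col q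
    fun h k i => ∀ G : Lg q.st (h ++ [(⊤, k)]), D (q.mark (clk h) k) i (q.rr _ G)
  obtain ⟨r, σ, i, b1, b2⟩ := exists_const ⊤ q2 (c ∘ π) (sup_top _)
  refine ⟨r, b1.le.trans (T.len.le.trans h1), i, fun h k G => ?_⟩
  obtain ⟨pre, ⟨w, k'⟩, post, g1, g2, g3, g4⟩ := b1.mrk _ _ G
  obtain rfl := g4 trivial
  obtain rfl : w = ⊤ := top_le_iff.1 g2
  rw [List.append_nil] at g1 g3
  obtain ⟨X, y⟩ := b1.prefix_rr (x := σ h ++ [(⊤, k')]) G ⟨post, by simp [g1]⟩
  obtain ⟨j, k1, k2, k3, -⟩ := T.snoc (σ h) (⊤, k')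
  obtain ⟨Y, z⟩ := T.len.sim.prefix_rr X ⟨[], (List.append_nil _).trans k2.symm⟩
  rw [← g3, k3, ← b2 h G.left]
  exact hD _ _ _ _ (y.trans z) (H _ Y.left (fun j =>
    (h2 _ j (lg_snoc.2 ⟨Y.left, ok_top _⟩)).imp fun _ z _ => z) j k1 Y)

/-- every new set of integers is homogeneous on an old infinite subset of `B` -/
theorem exists_hom (p : Cond L) {B : Set ℕ} (hB : B.Infinite) :
    ∃ q ≤ p, ∃ i, ∃ B' ⊆ B, B'.Infinite ∧ ∀ n ∈ B', D n i q := by
  classical
  obtain ⟨q, h1, C, h2⟩ := exists_read hD hr hd p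
  have : (Filter.cofinite ⊓ Filter.principal B).NeBot :=
    Filter.frequently_mem_iff_neBot.1 (Filter.frequently_cofinite_mem_iff_infinite.2 hB)
  let U := Ultrafilter.of (Filter.cofinite ⊓ Filter.principal B)
  obtain ⟨r, σ, i, b1, b2⟩ := exists_const ⊤ q (fun h => decide ({n | C h n = true} ∈ U))
    (sup_top _)
  have u : ∀ h, Lg r.st h → {n | C (σ h) n = i} ∈ U := by
    intro h H
    have := b2 h H
    cases i
    · simpa [← Ultrafilter.compl_mem_iff_notMem, Set.compl_setOf] using this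
    · simpa using this
  have : ∀ v, ∃ n, n ∈ B ∧ v < n ∧ ∀ h, Lg r.st h ∧ LastLe r v h → C (σ h) n = i := by
    intro v
    have a1 : B ∈ U := Ultrafilter.of_le _ (Filter.mem_inf_of_right (Filter.mem_principal_self B))
    have a2 : {n | v < n} ∈ U := Ultrafilter.of_le _ (Filter.mem_inf_of_left
      (Nat.cofinite_eq_atTop ▸ Filter.Ioi_mem_atTop v))
    have a3 := (Filter.biInter_mem (f := (U : Filter ℕ)) (r.fin_kap v)).2 fun h x => u h x.1
    obtain ⟨n, x, y, z⟩ := Ultrafilter.nonempty_of_mem (Filter.inter_mem a1 (Filter.inter_mem a2 a3))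
    exact ⟨n, x, y, fun h H => Set.mem_iInter₂.1 z h H⟩
  choose N N1 N2 N3 using this
  have : ∀ j n, ∃ v, n < v ∧ ∀ ks : List ℕ, Encodable.encode ks ≤ j →
      ∃ k, n < r.kap ks k ∧ r.kap ks k ≤ v := by
    intro j n
    choose f hf using fun ks => r.e1 ks (n + 1)
    obtain ⟨v, hv⟩ := (((Set.finite_le_nat j).preimage
      (Encodable.encode_injective (α := List ℕ)).injOn).image fun ks => r.kap ks (f ks)).bddAbove
    exact ⟨max v (n + 1), by omega, fun ks x => ⟨f ks, hf ks _ le_rfl,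
      le_max_of_le_left (hv ⟨ks, x, rfl⟩)⟩⟩
  choose V V1 V2 using this
  let v : ℕ → ℕ := fun j => Nat.rec 0 (fun j x => V j (N x)) j
  have v1 : ∀ j, N (v j) < v (j + 1) := fun j => V1 j _
  have v2 : StrictMono v := strictMono_nat_of_lt_succ fun j => (N2 _).trans (v1 j)
  have v3 : StrictMono fun j => N (v j) := strictMono_nat_of_lt_succ fun j => (v1 j).trans (N2 _)
  obtain ⟨s, ρ, T⟩ := exists_thin r
    (A := fun ks => {k | ∃ j, N (v j) < r.kap ks k ∧ r.kap ks k ≤ v (j + 1)}) fun ks hf => by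
      obtain ⟨b, hb⟩ := (hf.image (r.kap ks)).bddAbove
      obtain ⟨k, k1, k2⟩ := V2 (b + Encodable.encode ks) (N (v (b + Encodable.encode ks))) ks
        (Nat.le_add_left _ _)
      have := hb ⟨k, ⟨_, k1, k2⟩, rfl⟩
      have := v3.le_apply (x := b + Encodable.encode ks)
      omega
  refine ⟨s, T.len.le.trans (b1.le.trans h1), i, Set.range fun j => N (v j),
    Set.range_subset_iff.2 fun j => N1 _, Set.infinite_range_of_injective v3.injective, ?_⟩
  rintro _ ⟨j, rfl⟩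
  refine hr _ _ _ fun t ⟨τ, ht⟩ => ?_
  have l := lg_replicate t.st (N (v j) + 2)
  refine ⟨_, t.rr_le l, ?_⟩
  have S := ht.comp (H := fun _ => False) T.len.sim fun _ _ x => x.elim
  have k : ∀ x, Lg r.st x → LastLe r (N (v j)) x ∨ ∃ g m y, x = g ++ m :: y ∧
      LastLe r (N (v j)) g ∧ N (v j) < r.kap (clk g) m.2 := by
    intro x X
    induction x using List.reverseRecOn with
    | nil => exact Or.inl (lastLe_nil _ _)
    | append_singleton x a ih =>
      rcases ih X.left with y | ⟨g, m, y, rfl, z⟩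
      · rcases le_or_gt (r.kap (clk x) a.2) (N (v j)) with z | z
        · exact Or.inl (lastLe_snoc.2 z)
        · exact Or.inr ⟨x, a, [], rfl, y, z⟩
      · exact Or.inr ⟨g, m, y ++ [a], by simp, z⟩
  rcases k _ (S.leg _ l) with y | ⟨g, m, y, e, z1, z2⟩
  · obtain ⟨x, x1, x2⟩ := S.pre (g := []) (t := List.replicate (N (v j) + 2) (⊤, 0)) l
    have := y.length
    rw [List.nil_append] at x1
    rw [x1, List.length_append] at this
    rw [List.length_replicate] at x2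
    omega
  · obtain ⟨X, a⟩ := S.prefix_rr (x := g ++ [m]) l ⟨y, by rw [e]; simp⟩
    obtain ⟨m', s', c1, c2⟩ := b1.kp g m X
    obtain ⟨Y, b⟩ := b1.prefix_rr (x := σ g ++ [m']) X ⟨s', by simp [c1]⟩
    have := h2 _ m' Y _ (z2.trans_le c2)
    rw [N3 (v j) g ⟨X.left, ?_⟩] at this
    · exact hD _ _ _ _ (a.trans b) this
    · rintro g' m'' rfl
      obtain ⟨j', d1, d2⟩ := T.good _ (g := g') (m := m'') (t := m :: y) (by simpa using e)
      exact d2.trans (v2.monotone (v3.lt_iff_lt.1 (d1.trans_le (z1 g' m'' rfl))))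

end reading

end Pool.Agent.P.MP_56695d_gt
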