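import Pool.Agent.P.MP_56695d_gt.Comb

set_option autoImplicit false

/-! The main combinatorial lemma and closure points. -/

namespace Pool.Agent.P.MP_56695d_gt

open Cardinal

variable {L : Type} [LinearOrder L]

/-- chains of covering bounds -/
def Cert (Cv : ℕ → ℕ → Prop) (l : ℕ → ℕ) (θ : ℕ) : ℕ → ℕ → Prop
  | 0, c => Cv c θ
  | k + 1, c => ∃ v < θ + 1, Cv c v ∧ Cert Cv l θ k (l v)

theorem exists_split {α : Type} (P : α → Bool) (l : List α) (k : ℕ) (h : k < l.countP P) :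
    ∃ g m t, l = g ++ m :: t ∧ g.countP P = k ∧ P m := by
  induction l generalizing k with
  | nil => simp at h
  | cons a l ih =>
    by_cases x : P a
    · cases k with
      | zero => exact ⟨[], a, l, rfl, rfl, x⟩
      | succ k =>
        obtain ⟨g, m, t, rfl, h1, h2⟩ := ih k (by simpa [x] using h)
        exact ⟨a :: g, m, t, rfl, by simp [x, h1], h2⟩
    · obtain ⟨g, m, t, rfl, h1, h2⟩ := ih k (by simpa [x] using h)
      exact ⟨a :: g, m, t, rfl, by simp [x, h1], h2⟩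

theorem Sim.count {F : ℕ → Prop} {q p : Cond L} {π : Hist L → Hist L} (h : Sim F q p π) (β : L)
    (n : ℕ) : n ≤ (π (List.replicate n (⊤, 0))).countP fun m => decide (↑β < m.1) := by
  induction n with
  | zero => simp
  | succ n ih =>
    have l := lg_replicate q.st (n + 1)
    rw [List.replicate_succ'] at l ⊢
    obtain ⟨pre, m', post, h1, h2, -⟩ := h.mrk _ _ l
    have : ↑β < m'.1 := (WithTop.coe_lt_top β).trans_le h2
    simp only [h1, List.countP_append, List.countP_cons, this, decide_true, if_true]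
    omega

theorem exists_len (p : Cond L) (β : L) : ∃ l : ℕ → ℕ, ∀ g (m : Mv L) s, Lg p.st (g ++ [m]) →
    p.st (g ++ [m]) β = some s → ∀ v, p.kap (clk g) m.2 ≤ v → s.length ≤ l v := by
  choose l hl using fun v => ((p.fin_kap v).image fun h => ((p.st h β).getD []).length).bddAbove
  exact ⟨l, fun g m s G x v y => hl v ⟨g ++ [m], ⟨G, lastLe_snoc.2 y⟩, by simp [x]⟩⟩

theorem exists_long {p : Cond L} {β : L} (hβ : p.st [] β ≠ none) (n : ℕ) :
    ∃ q ≤ p, ∃ s, q.st [] β = some s ∧ n ≤ s.length := by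
  induction n with
  | zero =>
    obtain ⟨s, hs⟩ := Option.ne_none_iff_exists'.1 hβ
    exact ⟨p, le_rfl, s, hs, Nat.zero_le _⟩
  | succ n ih =>
    obtain ⟨q, h1, s, h2, h3⟩ := ih
    have l : Lg q.st ([] ++ [(⊤, 0)]) := lg_single.2 (ok_top _)
    obtain ⟨t, t1, t2, -⟩ := q.move [] _ l β (WithTop.coe_lt_top β) s h2
    refine ⟨_, (q.rr_le l).trans h1, _, t2, ?_⟩
    have := List.length_pos_iff.2 t1
    simp only [List.length_append]
    omega

theorem main_core {p r : Cond L} {β : L} (hβ : p.st [] β ≠ none) (hr : r ≤ p.res β hβ)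
    (hs : Sup β r) {l : ℕ → ℕ} (hl : ∀ g (m : Mv L) s, Lg p.st (g ++ [m]) →
      p.st (g ++ [m]) β = some s → ∀ v, p.kap (clk g) m.2 ≤ v → s.length ≤ l v)
    {c0 : ℕ} (hc : ∀ s, p.st [] β = some s → s.length ≤ c0)
    {D : ℕ → ℕ → Cond L → Prop} (hD : ∀ k θ q q', q' ≤ q → D k θ q → D k θ q')
    (h0 : ∃ θ, D 0 θ r)
    (h1 : ∀ h k G, ∃ θ, ∀ j ≤ r.mark (clk h) k + 1, D j θ (r.rr (h ++ [(⊤, k)]) G))
    (h2 : ∀ q ≤ p, ∃ q' ≤ q, ∃ k, ∀ θ, ∀ q'' ≤ q', D k θ q'' → ∃ Cv, Cert Cv l θ k c0 ∧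
      ∀ c v, Cv c v → ∀ s b u, q''.st [] β = some (s ++ b :: u) → s.length ≤ c → b < v) :
    False := by
  obtain ⟨π, hπ⟩ := hr
  obtain ⟨E, A⟩ := amH_res hβ hπ
  have low := A.sim_low hs
  have : ∀ h, ∃ θ, ∀ H : Lg A.amalg.st h,
      ∀ k ≤ h.countP fun m => decide (↑β < m.1), D k θ (A.amalg.rr h H) := by
    intro h
    induction h using List.reverseRecOn with
    | nil =>
      obtain ⟨θ, x⟩ := h0
      exact ⟨θ, fun H k y => Nat.le_zero.1 y ▸ hD _ _ _ _ low.le x⟩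
    | append_singleton h m ih =>
      by_cases H : Lg A.amalg.st (h ++ [m])
      swap
      · exact ⟨0, fun x => absurd x H⟩
      by_cases x : ↑β < m.1
      · have e : ht β ⊤ (h ++ [m]) = ht β ⊤ h ++ [(⊤, m.2)] := by simp [hm, not_lt.2 x.le]
        obtain ⟨X, y⟩ := low.prefix_rr H ⟨[], (List.append_nil _).trans e.symm⟩
        obtain ⟨θ, z⟩ := h1 _ _ X
        refine ⟨θ, fun _ k hk => hD _ _ _ _ y (z k (hk.trans (List.countP_le_length.trans ?_)))⟩
        simpa using (r.length_le_kap (clk h) m.2).trans (r.e3 _ _)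
      · obtain ⟨θ, z⟩ := ih
        exact ⟨θ, fun _ k hk => hD _ _ _ _ ((Sim.refl (fun _ => False) _).rr_le H H.left
          (List.prefix_append _ _)) (z _ k (by simpa [x] using hk))⟩
  choose Θ hΘ using this
  choose Θ' hΘ' using fun ks => ((A.amalg.fin_clk ks).image Θ).bddAbove
  obtain ⟨q1, ρ, T⟩ := exists_thin_kap A.amalg Θ'
  obtain ⟨q', ⟨τ, hτ⟩, k, h3⟩ := h2 q1 (T.len.le.trans A.sim_up.le)
  have S := hτ.comp (H := fun _ => False) T.len.sim fun _ _ x => x.elim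
  have ll := lg_replicate q'.st (k + 1)
  obtain ⟨g0, m0, t0, e0, e1, e2⟩ := exists_split _ _ k (S.count β (k + 1))
  obtain ⟨X, y⟩ := S.prefix_rr (x := g0) ll ⟨_, e0.symm⟩
  obtain ⟨Cv, c1, c2⟩ := h3 (Θ g0) _ (q'.rr_le ll) (hD _ _ _ _ y (hΘ g0 X k e1.ge))
  have step : ∀ h (m : Mv L) t, g0 ++ m0 :: t0 = h ++ m :: t → ↑β < m.1 → ∀ s c v,
      A.amalg.st h β = some s → s.length ≤ c → Cv c v → A.amalg.kap (clk h) m.2 < v ∧
      ∃ s', A.amalg.st (h ++ [m]) β = some s' ∧ s'.length ≤ l v := by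
    intro h m t e x s c v a b cv
    obtain ⟨Y, z⟩ := S.prefix_rr (x := h ++ [m]) ll ⟨t, by rw [e0, e]; simp⟩
    obtain ⟨g, m', k1, k2, k3, k4, k5⟩ := A.join Y le_rfl x
    obtain ⟨u, u1, u2, u3⟩ := p.move _ _ k1 β (k2 ▸ x) s (k3.trans a)
    obtain ⟨b', u, rfl⟩ := List.exists_cons_of_ne_nil u1
    obtain ⟨u', hu⟩ := Cond.root_ext z (γ := β) (s := s ++ b' :: u)
      ((congrArg (A.amalg.st · β) (List.append_nil _)).trans (k4.symm.trans u2))
    have := (u3 b' (by simp)).trans_lt (c2 c v cv s b' (u ++ u') (by simpa using hu) b)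
    exact ⟨k5.trans_lt this, _, k4.symm.trans u2, hl _ _ _ k1 u2 v this.le⟩
  have key : ∀ g h j c s, g0 = h ++ g → (g.countP fun m => decide (↑β < m.1)) = j →
      A.amalg.st h β = some s → s.length ≤ c → Cert Cv l (Θ g0) j c →
      A.amalg.kap (clk g0) m0.2 < Θ g0 := by
    intro g
    induction g with
    | nil =>
      rintro h _ c s e rfl a b cv
      rw [List.append_nil] at e
      subst e
      exact (step _ _ _ rfl (by simpa using e2) s c _ a b cv).1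
    | cons m g ih =>
      rintro h _ c s e rfl a b cv
      by_cases x : ↑β < m.1
      · simp only [List.countP_cons, x, decide_true, if_true] at cv
        obtain ⟨v, -, v1, v2⟩ := cv
        obtain ⟨-, s', s1, s2⟩ := step h m (g ++ m0 :: t0) (by simp [e]) x s c v a b v1
        exact ih (h ++ [m]) _ _ s' (by simp [e]) rfl s1 s2 v2
      · refine ih (h ++ [m]) _ c s (by simp [e]) rfl ?_ b (by simpa [x] using cv)
        have : Lg A.amalg.st (h ++ [m] ++ g) := by simpa [e] using X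
        rw [A.amalg.wait h m this.left β (not_lt.1 x), a]
  obtain ⟨s, hs⟩ := Option.ne_none_iff_exists'.1 hβ
  exact absurd ((hΘ' _ ⟨g0, ⟨X, rfl⟩, rfl⟩).trans (T.good _ e0))
    (not_le.2 (key g0 [] k c0 s rfl e1 ((A.root_up le_rfl).trans hs) (hc s hs) c1))

theorem exists_closed [WellFoundedLT L] (hL : ∀ γ : L, #(Set.Iio γ) ≤ 𝔠) (hL' : 𝔠 < #L)
    {T : Type} (hT : #T ≤ 𝔠) (F : T → (ℕ → L) → L) (a0 : ℕ → L) :
    ∃ β, (∀ i, a0 i < β) ∧ ∀ t a, (∀ i, a i < β) → F t a < β := by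
  have : ∀ γ : L, ∃ e : ℝ → L, ∀ δ < γ, ∃ x, e x = δ := by
    intro γ
    obtain ⟨f⟩ := (Cardinal.le_def _ _).1 ((hL γ).trans_eq mk_real.symm)
    exact ⟨Function.extend f Subtype.val fun _ => γ, fun δ x =>
      ⟨f ⟨δ, x⟩, f.injective.extend_apply _ _ _⟩⟩
  choose e he using this
  let B : ℕ ⊕ T ⊕ ℝ → Type := Sum.elim (fun _ => Empty) fun _ => ℕ
  let ev : WType B → L := WType.elim L fun x => match x with
    | ⟨.inl i, _⟩ => a0 i
    | ⟨.inr (.inl t), a⟩ => F t a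
    | ⟨.inr (.inr y), a⟩ => e (a (0 : ℕ)) y
  have c : #(WType B) ≤ 𝔠 := by
    refine WType.cardinalMk_le_of_le' ((sum_le_sum _ (fun _ => 𝔠) ?_).trans ?_)
    · rintro (i | t)
      · simpa [B] using one_le_aleph0.trans aleph0_le_continuum
      · simp [B]
    · rw [sum_const']
      refine (mul_le_mul_left (b := #(ℕ ⊕ T ⊕ ℝ)) (c := 𝔠) ?_ _).trans_eq continuum_mul_self
      simp only [mk_sum, lift_id, mk_real, mk_nat]
      exact add_le_of_le aleph0_le_continuum aleph0_le_continuum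
        (add_le_of_le aleph0_le_continuum hT le_rfl)
  have ne : ((Set.range ev)ᶜ).Nonempty := Set.nonempty_compl.2 fun x =>
    absurd ((mk_le_of_surjective (Set.range_eq_univ.1 x)).trans c) (not_le.2 hL')
  obtain ⟨β, b1, b2⟩ := (wellFounded_lt (α := L)).has_min _ ne
  have k : ∀ w, ev w < β := by
    intro w
    by_contra hc
    rcases (not_lt.1 hc).eq_or_lt with x | x
    · exact b1 ⟨w, x.symm⟩
    · obtain ⟨y, hy⟩ := he _ _ x
      exact b1 ⟨.mk (.inr (.inr y)) fun _ => w, hy⟩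
  refine ⟨β, fun i => k (.mk (.inl i) Empty.elim), fun t a ha => ?_⟩
  choose w hw using fun i => not_not.1 fun x => b2 (a i) x (ha i)
  obtain rfl : (fun i => ev (w i)) = a := funext hw
  exact k (.mk (.inr (.inl t)) w)

/-- all coordinates of `p` are listed by `a` -/
def Lists (a : ℕ → L) (p : Cond L) : Prop :=
  ∀ h, Lg p.st h → ∀ γ, p.st h γ ≠ none → ∃ i, a i = γ

theorem exists_lists (p : Cond L) (γ0 : L) : ∃ a, Lists a p ∧
    ∀ β : L, γ0 < β → Sup β p → ∀ i, a i < β := by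
  have : (insert γ0 (⋃ h ∈ {h | Lg p.st h}, {γ | p.st h γ ≠ none})).Countable :=
    (p.countable_leg.biUnion fun h H => (p.fin h H).countable).insert _
  obtain ⟨a, ha⟩ := this.exists_eq_range (Set.insert_nonempty _ _)
  refine ⟨a, fun h H γ x => (ha ▸ Or.inr (Set.mem_biUnion H x) : γ ∈ Set.range a),
    fun β x y i => ?_⟩
  rcases (ha ▸ Set.mem_range_self i : a i ∈ insert γ0 _) with z | z
  · exact z ▸ x
  · obtain ⟨h, H, z⟩ := Set.mem_iUnion₂.1 z
    exact WithTop.coe_lt_coe.1 (y h H _ z)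

/-- decoding of histories -/
def dcd (a : ℕ → L) (l : Hist ℕ) : Hist L := l.map fun m => (WithTop.map a m.1, m.2)

/-- the code of a condition -/
def code (a : ℕ → L) (p : Cond L) :
    Set (Hist ℕ × ℕ × List ℕ) × (List ℕ → ℕ → ℕ) × (List ℕ → ℕ → ℕ) :=
  ({x | Lg p.st (dcd a x.1) ∧ p.st (dcd a x.1) (a x.2.1) = some x.2.2}, p.mark, p.kap)

theorem le_of_code {a : ℕ → L} {p p' : Cond L} (h : Lists a p) (h' : Lists a p')
    (e : code a p = code a p') : p ≤ p' := by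
  simp only [code, Prod.mk.injEq, Set.ext_iff, Set.mem_setOf_eq, Prod.forall] at e
  obtain ⟨e1, e2, e3⟩ := e
  have k : ∀ g, Lg p.st g → (∃ l, dcd a l = g) ∧ Lg p'.st g := by
    intro g G
    induction g using List.reverseRecOn with
    | nil => exact ⟨⟨[], rfl⟩, lg_nil _⟩
    | append_singleton g m ih =>
      obtain ⟨⟨l, rfl⟩, i2⟩ := ih G.left
      rcases eq_or_ne m.1 ⊤ with x | x
      · exact ⟨⟨l ++ [(⊤, m.2)], by simp [dcd, ← x]⟩, lg_snoc.2 ⟨i2, x ▸ ok_top _⟩⟩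
      · obtain ⟨γ, x⟩ := WithTop.ne_top_iff_exists.1 x
        have y := (lg_snoc.1 G).2 γ x.symm
        obtain ⟨i, rfl⟩ := h _ G.left γ y
        obtain ⟨s, hs⟩ := Option.ne_none_iff_exists'.1 y
        exact ⟨⟨l ++ [((i : WithTop ℕ), m.2)], by simp [dcd, x]⟩, lg_snoc.2 ⟨i2, x ▸ ok_coe.2 (by
          simp [((e1 l i s).1 ⟨G.left, hs⟩).2])⟩⟩
  refine ⟨id, fun g G => (k g G).2, fun g G γ s x => ?_,
    fun g m _ => ⟨[], m, [], by simp, le_rfl, by simp [e2], fun _ => rfl⟩,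
    fun g m _ => ⟨m, [], by simp, by simp [e3]⟩⟩
  obtain ⟨⟨l, rfl⟩, i2⟩ := k g G
  obtain ⟨i, rfl⟩ := h' _ i2 γ (by rw [id] at x; simp [x])
  exact ((e1 l i s).2 ⟨i2, x⟩).2

theorem exists_closed_cond [WellFoundedLT L] (hL : ∀ γ : L, #(Set.Iio γ) ≤ 𝔠) (hL' : 𝔠 < #L)
    {T : Type} (hT : #T ≤ 𝔠) {Good : T → Cond L → Prop} (hG : ∀ t p, ∃ r ≤ p, Good t r)
    (p0 : Cond L) : ∃ β : L, Sup β p0 ∧ ∀ t p, Sup β p → ∃ r ≤ p, Sup β r ∧ Good t r := by
  obtain ⟨γ0⟩ : Nonempty L := mk_ne_zero_iff.1 (ne_zero_of_lt hL')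
  choose en e1 e2 using fun (p : Cond L) γ => exists_lists p γ
  have : ∀ κ t a, ∃ r, ∀ p : Cond L, Lists a p → code a p = κ → r ≤ p ∧ Good t r := by
    intro κ t a
    by_cases x : ∃ p : Cond L, Lists a p ∧ code a p = κ
    · obtain ⟨p, x1, x2⟩ := x
      obtain ⟨r, r1, r2⟩ := hG t p
      exact ⟨r, fun p' y1 y2 => ⟨r1.trans (le_of_code x1 y1 (x2.trans y2.symm)), r2⟩⟩
    · exact ⟨p0, fun p y1 y2 => absurd ⟨p, y1, y2⟩ x⟩
  choose R hR using this
  have : Countable (WithTop ℕ) := inferInstanceAs (Countable (Option ℕ))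
  obtain ⟨β, b1, b2⟩ := exists_closed hL hL' (T := (_ × T) × ℕ) (by
    simp only [mk_prod, lift_id, mk_set, mk_pi, prod_const, mk_eq_aleph0]
    simpa using mul_le_mul_left (mul_le_mul_right hT 𝔠) ℵ₀)
    (fun x a => en (R x.1.1 x.1.2 a) γ0 x.2) (en p0 γ0)
  have k : ∀ {p a}, Lists a p → (∀ i, a i < β) → Sup β p := fun x y h H γ z => by
    obtain ⟨i, rfl⟩ := x h H γ z
    exact WithTop.coe_lt_coe.2 (y i)
  refine ⟨β, k (e1 _ _) b1, fun t p hp => ?_⟩
  obtain ⟨r1, r2⟩ := hR _ t _ p (e1 p (en p0 γ0 0)) rfl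
  exact ⟨_, r1, k (e1 _ γ0) fun i => b2 ((_, t), i) _ (e2 p _ β (b1 0) hp), r2⟩

end Pool.Agent.P.MP_56695d_gt
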