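import Pool.Agent.Lib.PosetForcing.CardDefs

set_option autoImplicit false

/-! The notions of the problem inside a structure `(M, mem)`; all quantifiers range over `M`.
The rationals are `ω` with a dense linear order `lt` without endpoints, the reals are its
Dedekind cuts. -/

open Pool.Agent.Lib.PosetForcing

namespace Pool.Agent.P.MP_56695d_gt

universe v

variable {M : Type v} (mem : M → M → Prop) (w lt : M)

/-- `lt` is a dense linear order without endpoints on `w` -/
structure IsDLO : Prop where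
  sub : ∀ p, mem p lt → ∃ a b, IsPair mem p a b ∧ mem a w ∧ mem b w
  irrefl : ∀ a, ¬ App mem lt a a
  trans : ∀ a b c, App mem lt a b → App mem lt b c → App mem lt a c
  total : ∀ a, mem a w → ∀ b, mem b w → App mem lt a b ∨ a = b ∨ App mem lt b a
  dense : ∀ a b, App mem lt a b → ∃ c, App mem lt a c ∧ App mem lt c b
  no_min : ∀ a, mem a w → ∃ b, App mem lt b a
  no_max : ∀ a, mem a w → ∃ b, App mem lt a b

/-- `x` is a real number: a nonempty proper initial segment without largest element -/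
def IsReal (x : M) : Prop :=
  IsSub mem x w ∧ (∃ a, mem a x) ∧ (∃ b, mem b w ∧ ¬ mem b x) ∧
    (∀ a b, App mem lt a b → mem b x → mem a x) ∧ ∀ a, mem a x → ∃ b, mem b x ∧ App mem lt a b

/-- `X` is a set of reals -/
def IsRealSet (X : M) : Prop := ∀ x, mem x X → IsReal mem w lt x

/-- the real `x` lies in the open interval with rational endpoints `a` and `b` -/
def InI (x a b : M) : Prop := mem a x ∧ ∃ c, App mem lt c b ∧ ¬ mem c x

/-- `V` is an open subset of the set of reals `Y` -/
def OpenIn (Y V : M) : Prop :=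
  IsSub mem V Y ∧ ∀ y, mem y V → ∃ a b, InI mem lt y a b ∧
    ∀ y', mem y' Y → InI mem lt y' a b → mem y' V

/-- `Z = X × Y` -/
def IsProd (Z X Y : M) : Prop := ∀ p, mem p Z ↔ ∃ x y, IsPair mem p x y ∧ mem x X ∧ mem y Y

/-- `V` is an open subset of the set `Z` of pairs of reals -/
def OpenIn2 (Z V : M) : Prop :=
  IsSub mem V Z ∧ ∀ x y, App mem V x y → ∃ a b c d, InI mem lt x a b ∧ InI mem lt y c d ∧
    ∀ x' y', App mem Z x' y' → InI mem lt x' a b → InI mem lt y' c d → App mem V x' y'

/-- `A` is finite: it lies in the image of a natural number under a function -/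
def IsFin (A : M) : Prop :=
  ∃ n h, mem n w ∧ (∀ i y y', App mem h i y → App mem h i y' → y = y') ∧
    ∀ x, mem x A → ∃ i, mem i n ∧ App mem h i x

/-- `f` is a sequence of covers of `S` by sets satisfying `Op` -/
def IsCovers (S : M) (Op : M → Prop) (f : M) : Prop :=
  IsFunOn mem f w fun F => (∀ V, mem V F → Op V) ∧ ∀ x, mem x S → ∃ V, mem V F ∧ mem x V

/-- `g` is a sequence of finite sets with `g(n) ⊆ f(n)` -/
def IsChoice (f g : M) : Prop :=
  IsFunOn mem g w (IsFin mem w) ∧ ∀ n F G, App mem f n F → App mem g n G → IsSub mem G F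

/-- `x ∈ ⋃ g(n)` -/
def InStep (g n x : M) : Prop := ∃ G V, App mem g n G ∧ mem V G ∧ mem x V

/-- the space `S` with open sets `Op` is Scheepers: each finite subset lies in some `⋃ g(n)` -/
def Scheepers (S : M) (Op : M → Prop) : Prop :=
  ∀ f, IsCovers mem w S Op f → ∃ g, IsChoice mem w f g ∧
    ∀ A, IsFin mem w A → IsSub mem A S → ∃ n, mem n w ∧ ∀ x, mem x A → InStep mem g n x

/-- the space `S` with open sets `Op` is `u`-Menger: `{n : x ∈ ⋃ g(n)} ∈ u` for each point `x` -/
def UMenger (u S : M) (Op : M → Prop) : Prop :=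
  ∀ f, IsCovers mem w S Op f → ∃ g, IsChoice mem w f g ∧
    ∀ x, mem x S → ∃ B, mem B u ∧ ∀ n, mem n B ↔ InStep mem g n x

/-- `u` is a nonprincipal ultrafilter on `ω` -/
def IsFreeUltra (u : M) : Prop :=
  (∀ A, mem A u → IsSub mem A w ∧ ∃ n, mem n A) ∧
  (∀ A B, mem A u → IsSub mem A B → IsSub mem B w → mem B u) ∧
  (∀ A B X, mem A u → mem B u → (∀ x, mem x X ↔ mem x A ∧ mem x B) → mem X u) ∧
  (∀ A B, IsSub mem A w → (∀ x, mem x B ↔ mem x w ∧ ¬ mem x A) → mem A u ∨ mem B u) ∧
  ∀ n, mem n w → ∃ A, mem A u ∧ ¬ mem n A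

end Pool.Agent.P.MP_56695d_gt
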