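import Pool.Agent.P.MP_56695d_gt.Reparam

set_option autoImplicit false

/-! Fusion. -/

namespace Pool.Agent.P.MP_56695d_gt

variable {L : Type} [LinearOrder L]

/-- composition of `d` consecutive maps starting at `n` -/
def chn (ρ : ℕ → Hist L → Hist L) : ℕ → ℕ → Hist L → Hist L
  | 0, _ => id
  | d + 1, n => ρ n ∘ chn ρ d (n + 1)

theorem exists_limit {f : Prop} (p : ℕ → Cond L) (ρ : ℕ → Hist L → Hist L)
    (h : ∀ n, LEn n (fun _ => f) (p (n + 1)) (p n) (ρ n)) :
    ∃ (q : Cond L) (σ : ℕ → Hist L → Hist L), (∀ n, LEn n (fun _ => f) q (p n) (σ n)) ∧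
      (∀ n g, Lg q.st g → σ n g = ρ n (σ (n + 1) g)) ∧
      ∀ g, Lg q.st g → Lg (p g.length).st g ∧ q.st g = (p g.length).st g := by
  have c : ∀ d n N, N = n + d → LEn n (fun _ => f) (p N) (p n) (chn ρ d n) := by
    intro d
    induction d with
    | zero => rintro n _ rfl; exact LEn.refl _ _ _
    | succ d ih =>
      intro n N e
      exact ((ih (n + 1) N (by omega)).mono (Nat.le_succ n) fun _ x => x).trans (h n)
  have up : ∀ {n g}, Lg (p n).st g → g.length ≤ n + 1 → ∀ N, n ≤ N → Lg (p N).st g := by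
    intro n g G hl N hN
    obtain ⟨d, rfl⟩ := Nat.exists_eq_add_of_le hN
    induction g using List.reverseRecOn with
    | nil => exact lg_nil _
    | append_singleton g m ih =>
      simp only [List.length_append, List.length_singleton] at hl
      have := ih G.left (by omega)
      exact lg_snoc.2 ⟨this, (c d n _ rfl).st g this (by omega) ▸ (lg_snoc.1 G).2⟩
  have eq : ∀ {n g}, Lg (p n).st g → g.length ≤ n → ∀ N, n ≤ N → (p N).st g = (p n).st g := by
    intro n g G hl N hN
    obtain ⟨d, rfl⟩ := Nat.exists_eq_add_of_le hN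
    exact (c d n _ rfl).st g (up G (by omega) _ hN) hl
  have ec : ∀ (ks : List ℕ) N, ks.length < N → (p N).mark ks = (p (ks.length + 1)).mark ks ∧
      (p N).kap ks = (p (ks.length + 1)).kap ks := by
    intro ks N hN
    obtain ⟨d, rfl⟩ := Nat.exists_eq_add_of_le (Nat.succ_le_of_lt hN)
    exact (c d _ _ rfl).ck ks (Nat.lt_succ_self _)
  have lg : ∀ g, Lg (fun g => (p g.length).st g) g → Lg (p g.length).st g := by
    intro g G
    induction g using List.reverseRecOn with
    | nil => exact lg_nil _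
    | append_singleton g m ih =>
      exact up (lg_snoc.2 ⟨ih G.left, (lg_snoc.1 G).2⟩) (by simp) _ (by simp)
  have key : ∀ {g N}, Lg (fun g => (p g.length).st g) g → g.length ≤ N →
      Lg (p N).st g ∧ (p g.length).st g = (p N).st g := fun G hN =>
    ⟨up (lg _ G) (Nat.le_succ _) _ hN, (eq (lg _ G) le_rfl _ hN).symm⟩
  let q : Cond L :=
    { st := fun g => (p g.length).st g
      mark := fun ks => (p (ks.length + 1)).mark ks
      kap := fun ks => (p (ks.length + 1)).kap ks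
      fin := fun g G => (p _).fin g (lg g G)
      loc := fun β g g' G G' e γ x => by
        have hl : g'.length = g.length := by simpa using (congrArg List.length e).symm
        rw [(key G' hl.le).2]
        exact (p _).loc β g g' (lg g G) (key G' hl.le).1 e γ x
      wait := fun g m G γ x => by
        rw [(key G.left (N := (g ++ [m]).length) (by simp)).2]
        exact (p _).wait g m (lg _ G) γ x
      move := fun g m G γ x s y => by
        rw [(key G.left (N := (g ++ [m]).length) (by simp)).2] at y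
        simpa using (p _).move g m (lg _ G) γ x s y
      e1 := fun ks => (p _).e1 ks
      e2 := fun ks k j => by
        rw [← (ec ks ((ks ++ [k]).length + 1) (by simp)).1]
        exact (p _).e2 ks k j
      e3 := fun ks => (p _).e3 ks }
  have stab : ∀ d n g, Lg q.st g → g.length ≤ n + d → chn ρ (d + 1) n g = chn ρ d n g := by
    intro d
    induction d with
    | zero => exact fun n g G hl => (h n).fix g (key G (by omega)).1 hl
    | succ d ih => exact fun n g G hl => congrArg (ρ n) (ih (n + 1) g G (by omega))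
  have stab' : ∀ d n g, Lg q.st g → g.length ≤ n + d → ∀ e, d ≤ e → chn ρ e n g = chn ρ d n g := by
    intro d n g G hl e he
    induction e, he using Nat.le_induction with
    | base => rfl
    | succ e he ih => rw [stab e n g G (by omega), ih]
  refine ⟨q, fun n g => chn ρ g.length n g, fun n => ⟨⟨fun g G => ?_, fun g G γ s x => ?_,
    fun g m G => ?_, fun g m G => ?_⟩, fun g G hl => stab' 0 n g G hl _ (Nat.zero_le _),
    fun g G hl => (key G hl).2, fun ks hl => ⟨(ec ks n hl).1.symm, (ec ks n hl).2.symm⟩⟩,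
    fun n g G => (stab _ n g G (by omega)).symm, fun g G => ⟨lg g G, rfl⟩⟩
  · exact (c _ n _ rfl).sim.leg g (key G (by omega)).1
  · exact (key G (N := n + g.length) (by omega)).2 ▸
      (c _ n _ rfl).sim.sits g (key G (by omega)).1 γ s x
  · have := (c (g ++ [m]).length n _ rfl).sim.mrk g m (key G (by omega)).1
    rwa [stab' g.length n g G.left (by omega) _ (by simp), (ec _ _ (by simp; omega)).1] at this
  · have := (c (g ++ [m]).length n _ rfl).sim.kp g m (key G (by omega)).1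
    rwa [stab' g.length n g G.left (by omega) _ (by simp), (ec _ _ (by simp; omega)).2] at this

/-- the data of a fusion argument -/
structure FusH {Λ : Type} (f g : Prop) (β : WithTop L) (W : WithTop L → Prop)
    (K D : Cond L → (Hist L → Λ) → Prop) : Prop where
  K_rr : ∀ p t (m : Mv L) H, W m.1 → K p t → K (p.rr [m] H) fun x => t (m :: x)
  K_le : ∀ q p π t t', LEn 0 (fun _ => f) q p π → Sup β q → (∀ h, Lg q.st h → t' h = t (π h)) →
    K p t → K q t'
  D_le : ∀ q p π t t', LEn 0 (fun _ => f) q p π → (g → Tame 0 q p π) →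
    (∀ h, Lg q.st h → t' h = t (π h)) → D p t → D q t'
  base : ∀ p t, K p t → Sup β p →
    ∃ q π, LEn 0 (fun n => f ∨ g ∧ n = 0) q p π ∧ Sup β q ∧ D q (t ∘ π)

namespace FusH

variable {Λ : Type} {f g : Prop} {β : WithTop L} {W : WithTop L → Prop}
  {K D : Cond L → (Hist L → Λ) → Prop}

theorem D_congr (A : FusH f g β W K D) {p : Cond L} {t t' : Hist L → Λ}
    (e : ∀ h, Lg p.st h → t' h = t h) : D p t → D p t' :=
  A.D_le p p id t t' (LEn.refl _ _ _) (fun _ => (LEn.refl 1 (fun _ => f) p).tame) e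

theorem D_shift (A : FusH f g β W K D) {q p : Cond L} {π : Hist L → Hist L} {t t' : Hist L → Λ}
    {x : Hist L} (h : LEn x.length (fun _ => f) q p π) (ht : g → Tame x.length q p π)
    (e : ∀ h, Lg q.st h → t' h = t (π h)) (X : Lg q.st x) (X' : Lg p.st x)
    (d : D (p.rr x X') fun y => t (x ++ y)) : D (q.rr x X) fun y => t' (x ++ y) := by
  obtain ⟨a, b⟩ := LEn.shift (k := 0) h X X'
  refine A.D_le _ _ _ _ _ a (fun y => (ht y).shift X X') (fun y Y => ?_) d
  rw [e _ ((Cond.lg_rr X).1 Y), ← b y ((Cond.lg_rr X).1 Y)]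

theorem lev (A : FusH f g β W K D) (n : ℕ) : ∀ p t, K p t → Sup β p → ∀ M, (∀ j, M ≤ p.kap [] j) →
    ∃ q π, LEn n (fun k => f ∨ g ∧ k = n) q p π ∧ Sup β q ∧ (∀ j, M ≤ q.kap [] j) ∧
      ∀ h H, h.length = n → (∀ m ∈ h, W m.1) → D (q.rr h H) fun x => t (π (h ++ x)) := by
  induction n with
  | zero =>
    intro p t hK hS M _
    obtain ⟨q, π, h1, h2, h3⟩ := A.base p t hK hS
    obtain ⟨r, σ, T⟩ := exists_thin_kap q fun _ => M
    refine ⟨r, π ∘ σ, (T.len.mono le_rfl fun _ _ => trivial).trans' h1, T.sup h2, fun j => ?_,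
      fun h H hl _ => ?_⟩
    · obtain ⟨k, k1, -, -, k2⟩ := T.snoc [] (⊤, j)
      exact k2 ▸ k1
    · obtain rfl := List.length_eq_zero_iff.1 hl
      exact A.D_le _ _ σ _ _ (T.len.mono le_rfl fun _ _ => trivial) (fun _ => T.tame)
        (fun _ _ => rfl) h3
  | succ n ih =>
    intro p t hK hS M hM
    have key : ∀ S : Set (WithTop L), S.Finite → (∀ w ∈ S, Ok (p.st []) w ∧ W w) →
        ∃ q π, LEn (n + 1) (fun k => f ∨ g ∧ k = n + 1) q p π ∧ Sup β q ∧
          ∀ (m : Mv L) h H, m.1 ∈ S → h.length = n → (∀ m ∈ h, W m.1) →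
            D (q.rr (m :: h) H) fun x => t (π (m :: h ++ x)) := by
      intro S hS'
      induction S, hS' using Set.Finite.induction_on with
      | empty => exact fun _ => ⟨p, id, LEn.refl _ _ _, hS, fun _ _ _ x => x.elim⟩
      | @insert w S _ _ ih2 =>
        intro hw
        obtain ⟨q, π, h1, h2, h3⟩ := ih2 fun x hx => hw x (Or.inr hx)
        obtain ⟨H0, hW⟩ := hw w (Or.inl rfl)
        rw [← h1.root] at H0
        have hKq : K q (t ∘ π) := A.K_le q p π t _ (h1.mono (Nat.zero_le _) fun _ x => Or.inl x)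
          h2 (fun _ _ => rfl) hK
        choose r ρ r1 r2 r3 r4 using fun k => ih (q.rr [(w, k)] (lg_single.2 H0)) _
          (A.K_rr q _ (w, k) _ hW hKq) (h2.rr _) (q.mark [] k + 1) fun j => q.e2 [] k j
        obtain ⟨q', σ, g1, g2, g3, g4, g5, g6⟩ := exists_graft H0 r ρ (fun k => (r1 k).sim)
          (fun k γ x => (congrFun (r1 k).root γ).trans (q.wait [] (w, k) (lg_single.2 H0) γ x)) r3
        have l : LEn (n + 1) (fun k => f ∨ g ∧ k = n + 1) q' q (consMap σ) :=
          LEn.of_cones g1 g2 g3 (fun m G G' => ((g6 m G G').2.2 n (r1 _)).1)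
            fun k x => x.imp_right fun x => ⟨x.1, by omega⟩
        refine ⟨q', π ∘ consMap σ, l.trans' h1, Sup.of_cones (g1 ▸ h2 [] (lg_nil _))
          fun m G => (g6 m G (l.leg G (by simp))).2.1 β (r2 _) h2, fun m h H hm hl hh => ?_⟩
        have G : Lg q'.st [m] := Lg.left (h := [m]) H
        have G' := l.leg G (by simp)
        have X : Lg (q'.rr [m] G).st h := (Cond.lg_rr G).2 H
        by_cases e : m.1 = w
        · obtain ⟨_, k⟩ := m
          obtain rfl := e
          have e1 := g4 k G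
          have X' : Lg (r k).st h := e1 ▸ X
          have e2 : q'.rr (_ :: h) H = (r k).rr h X' := by
            refine (Cond.rr_rr G X).symm.trans ?_
            congr 1
          rw [e2]
          refine A.D_congr (fun y Y => ?_) (r4 k h X' hl hh)
          simp only [Function.comp, List.cons_append, consMap]
          rw [g5 k _ ((Cond.lg_rr X').1 Y)]
        · obtain ⟨a, b⟩ := (g6 m G G').2.2 n (r1 _)
          subst hl
          exact A.D_shift (t := fun y => t (π (m :: y))) (t' := fun y => t (π (m :: σ m y)))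
            (a.mono le_rfl fun _ x => Or.inl x) (fun x => b e (Or.inr ⟨x, rfl⟩)) (fun _ _ => rfl)
            X (a.leg X le_rfl) (h3 m h (l.leg H (by simp)) (hm.resolve_left e) rfl hh)
    obtain ⟨q, π, h1, h2, h3⟩ := key {w | Ok (p.st []) w ∧ W w}
      ((fin_ok (p.fin [] (lg_nil _))).subset fun _ x => x.1) fun _ x => x
    refine ⟨q, π, h1, h2, fun j => (h1.ck [] (Nat.succ_pos n)).2 ▸ hM j, ?_⟩
    rintro (_ | ⟨m, h⟩) H hl hh
    · simp at hl
    · exact h3 m h H ⟨h1.root ▸ (lg_cons.1 H).1, hh m (by simp)⟩ (by simpa using hl)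
        fun a ha => hh a (by simp [ha])

theorem fus (A : FusH f g β W K D) {p : Cond L} {t : Hist L → Λ} (hK : K p t) (hS : Sup β p) :
    ∃ q π, LEn 0 (fun _ => f) q p π ∧ Sup β q ∧
      ∀ h H, (∀ m ∈ h, W m.1) → D (q.rr h H) fun x => t (π (h ++ x)) := by
  have : ∀ n (x : {x : Cond L × (Hist L → Λ) // K x.1 x.2 ∧ Sup β x.1}),
      ∃ (y : {x : Cond L × (Hist L → Λ) // K x.1 x.2 ∧ Sup β x.1}) (π : Hist L → Hist L),
      LEn n (fun _ => f) y.1.1 x.1.1 π ∧ y.1.2 = x.1.2 ∘ π ∧
      ∀ h H, h.length = n → (∀ m ∈ h, W m.1) → D (y.1.1.rr h H) fun z => y.1.2 (h ++ z) := by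
    rintro n ⟨⟨p, t⟩, h1, h2⟩
    obtain ⟨q, π, a, b, -, c⟩ := A.lev n p t h1 h2 0 fun _ => Nat.zero_le _
    exact ⟨⟨(q, t ∘ π), A.K_le q p π t _ (a.mono (Nat.zero_le _) fun _ x => Or.inl x) b
      (fun _ _ => rfl) h1, b⟩, π, a.mono le_rfl fun _ x => Or.inl x, rfl, c⟩
  choose s ρ h1 h2 h3 using this
  let x : ℕ → {x : Cond L × (Hist L → Λ) // K x.1 x.2 ∧ Sup β x.1} :=
    fun n => Nat.rec ⟨(p, t), hK, hS⟩ s n
  obtain ⟨q, σ, g1, g2, g3⟩ := exists_limit (fun n => (x n).1.1) (fun n => ρ n (x n))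
    fun n => h1 n (x n)
  have e : ∀ n y, Lg q.st y → t (σ 0 y) = (x n).1.2 (σ n y) := by
    intro n y Y
    induction n with
    | zero => rfl
    | succ n ih => rw [ih, g2 n y Y]; exact (congrFun (h2 n (x n)) _).symm
  refine ⟨q, σ 0, g1 0, fun h H γ y => (x _).2.2 h (g3 h H).1 γ ((g3 h H).2 ▸ y), fun h H hh => ?_⟩
  have X' := (g1 (h.length + 1)).leg H (Nat.le_succ _)
  exact A.D_shift (t' := fun y => t (σ 0 y))
    ((g1 (h.length + 1)).mono (Nat.le_succ _) fun _ x => x) (fun _ => (g1 _).tame) (e _) H X'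
    (h3 _ (x _) h X' rfl hh)

end FusH

/-- the first step of a fusion that treats the cones above the moves with cut `w` -/
theorem exists_graft0 {f g : Prop} {β w : WithTop L} {p : Cond L} (H0 : Ok (p.st []) w)
    (hS : Sup β p) (Q : ℕ → Cond L → (Hist L → Hist L) → Prop)
    (hQ : ∀ k q π r σ, LEn 0 (fun _ => True) r q σ → Q k q π → Q k r (π ∘ σ))
    (h : ∀ k, ∃ q π, Sim (fun _ => f) q (p.rr [(w, k)] (lg_single.2 H0)) π ∧ Sup β q ∧
      (∀ γ : L, w ≤ γ → q.st [] γ = p.st [] γ) ∧ Q k q π) :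
    ∃ q π, LEn 0 (fun n => f ∨ g ∧ n = 0) q p π ∧ Sup β q ∧ q.mark [] = p.mark [] ∧
      ∀ k G, ∃ σ, Q k (q.rr [(w, k)] G) σ ∧
        ∀ x, Lg q.st ((w, k) :: x) → π ((w, k) :: x) = (w, k) :: σ x := by
  choose q π h1 h2 h3 h4 using h
  choose r σ T using fun k => exists_thin_kap (q k) fun _ => p.mark [] k + 1
  obtain ⟨q', ρ, g1, g2, g3, g4, g5, g6⟩ := exists_graft (F := fun _ => f) H0 r
    (fun k => π k ∘ σ k) (fun k => (T k).len.sim.comp (h1 k) fun _ _ x => ⟨trivial, x⟩)
    (fun k γ x => (congrFun (T k).len.root γ).trans (h3 k γ x)) fun k j => by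
      obtain ⟨k, k1, -, -, k2⟩ := (T k).snoc [] (⊤, j)
      exact k2 ▸ k1
  refine ⟨q', consMap ρ, ⟨Sim.of_cones g1 g2 g3 (fun m G G' => (g6 m G G').1)
    fun _ x => x.resolve_right fun x => by simp at x, fun h _ x => ?_, fun h _ x => ?_,
    fun _ x => absurd x (Nat.not_lt_zero _)⟩, Sup.of_cones (g1 ▸ hS [] (lg_nil _))
    fun m G => (g6 m G (lg_single.2 (g1 ▸ lg_single.1 G))).2.1 β ((T _).sup (h2 _)) hS, g2,
    fun k G => ⟨π k ∘ σ k, g4 k G ▸ hQ k _ _ _ _ (T k).len (h4 k), fun x X => ?_⟩⟩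
  · rw [List.length_eq_zero_iff.1 (Nat.le_zero.1 x), consMap]
  · rw [List.length_eq_zero_iff.1 (Nat.le_zero.1 x), g1]
  · rw [consMap, g5 k x (g4 k G ▸ (Cond.lg_rr G).2 X)]

/-- nontotal histories are simulated by nontotal histories -/
theorem Sim.nontotal {F : ℕ → Prop} {q p : Cond L} {π : Hist L → Hist L} (h : Sim F q p π)
    (h0 : ∀ a ∈ π [], a.1 ≠ ⊤) (h1 : ∀ γ, q.st [] γ ≠ none → ∃ δ, γ ≤ δ ∧ p.st [] δ ≠ none)
    {g : Hist L} (G : Lg q.st g) (hg : ∀ a ∈ g, a.1 ≠ ⊤) : ∀ a ∈ π g, a.1 ≠ ⊤ := by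
  suffices (∀ a ∈ π g, a.1 ≠ ⊤) ∧ ∀ γ, q.st g γ ≠ none → ∃ δ, γ ≤ δ ∧ p.st [] δ ≠ none from this.1
  induction g using List.reverseRecOn with
  | nil => exact ⟨h0, h1⟩
  | append_singleton g m ih =>
    obtain ⟨i1, i2⟩ := ih G.left fun a ha => hg a (by simp [ha])
    obtain ⟨γ, e⟩ := WithTop.ne_top_iff_exists.1 (hg m (by simp))
    obtain ⟨δ, d1, d2⟩ := i2 γ ((lg_snoc.1 G).2 γ e.symm)
    obtain ⟨x, hx, -⟩ := h.pre G
    have := h.seg_le G (ok_coe.1 (Cond.ok_root (h.leg g G.left) (ok_coe.2 d2)))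
      (e ▸ WithTop.coe_le_coe.2 d1) hx
    refine ⟨fun a ha => ?_, fun γ' y => ?_⟩
    · rcases List.mem_append.1 (hx ▸ ha) with ha | ha
      · exact i1 a ha
      · exact ne_top_of_le_ne_top WithTop.coe_ne_top (this a ha)
    · rcases le_total γ γ' with z | z
      · exact i2 γ' (q.wait g m G γ' (e ▸ WithTop.coe_le_coe.2 z) ▸ y)
      · exact ⟨δ, z.trans d1, d2⟩

end Pool.Agent.P.MP_56695d_gt
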