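import Pool.Agent.P.MP_56695d_gt.Amalg

set_option autoImplicit false

/-! Gluing cones, level-wise extensions, grafting. -/

namespace Pool.Agent.P.MP_56695d_gt

variable {L : Type} [LinearOrder L]

open Classical in
/-- the state of a glued condition -/
noncomputable def glueSt (s : St L) (C : ∀ w, Ok s w → ℕ → Cond L) : Hist L → St L
  | [] => s
  | m :: g => if H : Ok s m.1 then (C m.1 H m.2).st g else fun _ => none

theorem glueSt_cons {s : St L} {C : ∀ w, Ok s w → ℕ → Cond L} {m : Mv L} (H : Ok s m.1) :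
    (fun g => glueSt s C (m :: g)) = (C m.1 H m.2).st := funext fun g => by simp [glueSt, H]

theorem lg_glue {s : St L} {C : ∀ w, Ok s w → ℕ → Cond L} {m : Mv L} {g : Hist L}
    (G : Lg (glueSt s C) (m :: g)) : ∃ H : Ok s m.1, Lg (C m.1 H m.2).st g ∧
      ∀ x, glueSt s C (m :: x) = (C m.1 H m.2).st x := by
  obtain ⟨H, G⟩ := lg_cons.1 G
  exact ⟨H, glueSt_cons (C := C) H ▸ G, fun x => congrFun (glueSt_cons H) x⟩

theorem exists_glue (s : St L) (hs : {γ | s γ ≠ none}.Finite) (M K : ℕ → ℕ)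
    (C : ∀ w, Ok s w → ℕ → Cond L)
    (agr : ∀ w H w' H' k β, β ≤ w → β ≤ w' → Agree β (C w H k) (C w' H' k))
    (wt : ∀ (w : WithTop L) H k (γ : L), w ≤ γ → (C w H k).st [] γ = s γ)
    (mv : ∀ w H k (γ : L), ↑γ < w → ∀ u, s γ = some u →
      ∃ t, t ≠ [] ∧ (C w H k).st [] γ = some (u ++ t) ∧ ∀ a ∈ t, K k ≤ a)
    (e1 : ∀ n, ∃ N, ∀ k, N ≤ k → n ≤ K k) (e2 : ∀ w H k j, M k < (C w H k).kap [] j)
    (e3 : ∀ k, K k ≤ M k) :
    ∃ q : Cond L, q.st [] = s ∧ q.mark [] = M ∧ q.kap [] = K ∧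
      ∀ w H k (G : Lg q.st [(w, k)]), q.rr [(w, k)] G = C w H k := by
  have ag : ∀ w H k, Agree w (C ⊤ (ok_top s) k) (C w H k) := fun w H k =>
    agr _ _ _ _ _ _ le_top le_rfl
  refine ⟨⟨glueSt s C, fun ks => List.casesOn ks M fun k ks => (C ⊤ (ok_top s) k).mark ks,
    fun ks => List.casesOn ks K fun k ks => (C ⊤ (ok_top s) k).kap ks, ?_, ?_, ?_, ?_, ?_, ?_, ?_⟩,
    rfl, rfl, rfl, ?_⟩
  · rintro (_ | ⟨m, g⟩) G
    · exact hs
    · obtain ⟨H, G, e⟩ := lg_glue G
      rw [e]; exact Cond.fin _ _ G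
  · rintro β (_ | ⟨⟨w, k⟩, g⟩) (_ | ⟨⟨w', k'⟩, g'⟩) G G' e γ x
    · rfl
    · simp at e
    · simp at e
    · obtain ⟨H, G, e1⟩ := lg_glue G
      obtain ⟨H', G', e2⟩ := lg_glue G'
      simp only [cp_cons, List.cons.injEq, Prod.mk.injEq] at e
      obtain ⟨⟨e3, rfl⟩, e4⟩ := e
      rw [e1, e2]
      by_cases hw : w = w'
      · subst hw
        exact Cond.loc _ β _ _ G G' e4 γ x
      · refine (agr w H w' H' k β ?_ ?_).st _ _ G G' e4 γ x
        · by_contra hc
          rw [min_eq_left (not_le.1 hc).le] at e3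
          rcases le_total w' β with y | y
          · exact hw (by rw [e3, min_eq_left y])
          · rw [min_eq_right y] at e3; exact hc e3.ge
        · by_contra hc
          rw [min_eq_left (not_le.1 hc).le] at e3
          rcases le_total w β with y | y
          · exact hw (by rw [← e3, min_eq_left y])
          · rw [min_eq_right y] at e3; exact hc e3.le
  · rintro (_ | ⟨a, g⟩) m G γ x
    · obtain ⟨H, G, e⟩ := lg_glue G
      exact (congrFun (e []) γ).trans (wt m.1 H _ γ x)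
    · obtain ⟨H, G, e⟩ := lg_glue G
      rw [List.cons_append, e, e]
      exact Cond.wait _ _ _ G γ x
  · rintro (_ | ⟨a, g⟩) m G γ x u y
    · obtain ⟨H, G, e⟩ := lg_glue G
      rw [List.nil_append, e]
      exact mv _ H _ γ x u y
    · obtain ⟨H, G, e⟩ := lg_glue G
      rw [List.cons_append, e]
      rw [e] at y
      obtain ⟨t, t1, t2, t3⟩ := Cond.move _ _ _ G γ x u y
      exact ⟨t, t1, t2, fun b hb => by simpa [(ag _ H _).kap] using t3 b hb⟩
  · rintro (_ | ⟨a, ks⟩) n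
    · exact e1 n
    · exact Cond.e1 _ ks n
  · rintro (_ | ⟨a, ks⟩) k j
    · exact e2 _ _ k j
    · exact Cond.e2 _ ks k j
  · rintro (_ | ⟨a, ks⟩) k
    · exact e3 k
    · exact Cond.e3 _ ks k
  · intro w H k G
    ext1
    · exact glueSt_cons (m := (w, k)) H
    · exact (ag w H k).mark
    · exact (ag w H k).kap

/-- extensions that change nothing up to level `n` -/
structure LEn (n : ℕ) (F : ℕ → Prop) (q p : Cond L) (π : Hist L → Hist L) : Prop where
  sim : Sim F q p π
  fix : ∀ h, Lg q.st h → h.length ≤ n → π h = h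
  st : ∀ h, Lg q.st h → h.length ≤ n → q.st h = p.st h
  ck : ∀ ks : List ℕ, ks.length < n → q.mark ks = p.mark ks ∧ q.kap ks = p.kap ks

/-- after level `n` the simulation does not make total moves and activates nothing on top -/
def Tame (n : ℕ) (q p : Cond L) (π : Hist L → Hist L) : Prop :=
  ∀ h (m : Mv L), Lg q.st (h ++ [m]) → h.length = n → ∃ (k : ℕ) (post : Hist L),
    π (h ++ [m]) = h ++ (m.1, k) :: post ∧ p.mark (clk h) k = q.mark (clk h) m.2 ∧
    (∀ a ∈ post, a.1 ≠ ⊤) ∧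
    ∀ γ, q.st (h ++ [m]) γ ≠ none → ∃ δ, γ ≤ δ ∧ p.st (h ++ [(m.1, k)]) δ ≠ none

namespace LEn

variable {n : ℕ} {F G : ℕ → Prop} {r q p : Cond L} {π π' : Hist L → Hist L}

theorem refl (n : ℕ) (F : ℕ → Prop) (p : Cond L) : LEn n F p p id :=
  ⟨Sim.refl F p, fun _ _ _ => rfl, fun _ _ _ => rfl, fun _ _ => ⟨rfl, rfl⟩⟩

theorem mono (h : LEn n F q p π) {k : ℕ} (hk : k ≤ n) (e : ∀ n, G n → F n) : LEn k G q p π :=
  ⟨h.sim.mono e, fun g x y => h.fix g x (y.trans hk), fun g x y => h.st g x (y.trans hk),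
    fun g y => h.ck g (y.trans_le hk)⟩

theorem leg (h : LEn n F q p π) {g : Hist L} (G : Lg q.st g) (hl : g.length ≤ n) : Lg p.st g :=
  h.fix g G hl ▸ h.sim.leg g G

theorem root (h : LEn n F q p π) : q.st [] = p.st [] := h.st [] (lg_nil _) (Nat.zero_le _)

theorem nil (h : LEn n F q p π) : π [] = [] := h.fix [] (lg_nil _) (Nat.zero_le _)

theorem le (h : LEn n F q p π) : q ≤ p := h.sim.le

theorem comp {H : ℕ → Prop} (h' : LEn n F r q π') (h : LEn n G q p π)
    (e : ∀ g, Lg r.st g → H g.length → F g.length ∧ G (π' g).length) : LEn n H r p (π ∘ π') :=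
  ⟨h'.sim.comp h.sim e,
    fun g x y => by rw [Function.comp, h'.fix g x y, h.fix g (h'.leg x y) y],
    fun g x y => (h'.st g x y).trans (h.st g (h'.leg x y) y),
    fun g y => ⟨(h'.ck g y).1.trans (h.ck g y).1, (h'.ck g y).2.trans (h.ck g y).2⟩⟩

theorem trans {f : Prop} (h' : LEn n (fun _ => f) r q π') (h : LEn n (fun _ => f) q p π) :
    LEn n (fun _ => f) r p (π ∘ π') := h'.comp h fun _ _ x => ⟨x, x⟩

theorem trans' {f g : Prop} (h' : LEn n (fun k => f ∨ g ∧ k = n) r q π')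
    (h : LEn n (fun k => f ∨ g ∧ k = n) q p π) :
    LEn n (fun k => f ∨ g ∧ k = n) r p (π ∘ π') :=
  h'.comp h fun x X y => ⟨y, y.imp_right fun y => by rw [h'.fix x X y.2.le]; exact y⟩

theorem shift {k : ℕ} {x : Hist L} (h : LEn (x.length + k) F q p π) (X : Lg q.st x)
    (X' : Lg p.st x) : LEn k (fun j => F (x.length + j)) (q.rr x X) (p.rr x X')
      (fun g => (π (x ++ g)).drop x.length) ∧
      ∀ g, Lg q.st (x ++ g) → π (x ++ g) = x ++ (π (x ++ g)).drop x.length := by
  obtain ⟨a, b⟩ := ((Sim.rr (fun _ => True) q X).comp (H := fun j => F (x.length + j)) h.sim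
    fun g _ y => ⟨trivial, by simpa using y⟩).into X' (by simp [h.fix x X (Nat.le_add_right _ _)])
  refine ⟨⟨a, fun g G y => ?_, fun g G y => ?_, fun ks y => h.ck _ (by simpa using y)⟩,
    fun g G => b g ((Cond.lg_rr X).2 G)⟩
  · simp [h.fix _ ((Cond.lg_rr X).1 G) (by simpa using y)]
  · exact h.st _ ((Cond.lg_rr X).1 G) (by simpa using y)

theorem front (h : LEn n F q p π) (hF : F n) {g : Hist L} {m : Mv L} (G : Lg q.st (g ++ [m]))
    (hl : g.length = n) : ∃ (k : ℕ) (post : Hist L), π (g ++ [m]) = g ++ (m.1, k) :: post ∧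
      p.mark (clk g) k = q.mark (clk g) m.2 := by
  obtain ⟨pre, m', post, h1, h2, h3, h4⟩ := h.sim.mrk g m G
  obtain rfl := h4 (hl ▸ hF)
  have e := h.fix g G.left hl.le
  rw [List.append_nil] at h1 h3
  have : m'.1 ≤ m.1 := by
    rcases eq_or_ne m.1 ⊤ with x | x
    · simp [x]
    · obtain ⟨γ, x⟩ := WithTop.ne_top_iff_exists.1 x
      rw [← x]
      refine h.sim.seg_le G ?_ x.ge h1 m' (by simp)
      rw [e, ← h.st g G.left hl.le]
      exact (lg_snoc.1 G).2 γ x.symm
  rw [e] at h1 h3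
  exact ⟨m'.2, post, by rw [h1, le_antisymm h2 this], h3⟩

theorem tame (h : LEn (n + 1) F q p π) : Tame n q p π := fun g m G hl =>
  ⟨m.2, [], h.fix _ G (by simp [hl]), (congrFun (h.ck _ (by simp [hl])).1 _).symm, by simp,
    fun γ x => ⟨γ, le_rfl, by rwa [← h.st _ G (by simp [hl])]⟩⟩

end LEn

theorem Tame.shift {q p : Cond L} {π : Hist L → Hist L} {x : Hist L} (h : Tame x.length q p π)
    (X : Lg q.st x) (X' : Lg p.st x) :
    Tame 0 (q.rr x X) (p.rr x X') (fun g => (π (x ++ g)).drop x.length) := by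
  intro g m G hl
  obtain rfl := List.length_eq_zero_iff.1 hl
  obtain ⟨k, post, h1, h2, h3, h4⟩ := h x m ((Cond.lg_rr X).1 G) rfl
  exact ⟨k, post, by simp [h1], by simpa [Cond.rr] using h2, h3, h4⟩

namespace AmH

variable {F : ℕ → Prop} {r p₁ p₂ : Cond L} {π : Hist L → Hist L} {D : Dec L} {β b : WithTop L}

theorem len (A : AmH F r p₁ p₂ π D β b) {n : ℕ} (h : LEn n F r p₁ π) :
    LEn n F A.amalg p₂ (amL π D β b) := by
  have k : ∀ g, Lg A.amalg.st g → g.length ≤ n → amL π D β b g = g := by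
    intro g G hl
    induction g using List.reverseRecOn with
    | nil => rw [amL_nil, h.nil, cp_nil]
    | append_singleton g m ih =>
      simp only [List.length_append, List.length_singleton] at hl
      have l1 := (A.inv G).1
      rw [ht_snoc] at l1
      have d1 := (A.dec.dec _ _ l1).1
      rw [h.fix _ l1 (by simpa using hl), h.fix _ l1.left (by simp; omega), List.append_assoc,
        List.append_cancel_left_eq] at d1
      have d2 := congrArg List.length d1
      simp only [List.length_append, List.length_cons, List.length_nil] at d2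
      have d3 : D.pre (ht β b g) (hm β b m) = [] := List.length_eq_zero_iff.1 (by omega)
      have d4 : D.post (ht β b g) (hm β b m) = [] := List.length_eq_zero_iff.1 (by omega)
      rw [d3, d4] at d1
      simp only [List.nil_append, List.cons.injEq, and_true] at d1
      rw [amL_snoc, ih G.left (by omega), d3, d4, ← d1]
      simp only [cp_nil, List.append_nil, List.append_cancel_left_eq, List.cons.injEq, and_true]
      refine Prod.ext ?_ rfl
      simp only [lift, hm]
      by_cases x : m.1 < β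
      · simp [x]
      · simp [x, not_lt.2 A.le, not_lt.1 x]
  refine ⟨A.sim_up, k, fun g G hl => funext fun γ => ?_, fun ks hl => ?_⟩
  · obtain ⟨l1, l2, -⟩ := A.inv G
    simp only [amalg, amSt]
    rw [k g G hl] at l2 ⊢
    split_ifs with h1
    · rw [h.st _ l1 (by simpa using hl)]
      exact A.agr.st _ _ (h.leg l1 (by simpa using hl)) l2 (cp_ht A.le le_rfl g) γ h1
    · rfl
  · rw [← A.agr.mark, ← A.agr.kap]
    exact h.ck ks hl

theorem tame (A : AmH F r p₁ p₂ π D β b) {n : ℕ} (h : LEn n F r p₁ π) (hF : F n) (hβ : β ≠ ⊤) :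
    Tame n A.amalg p₂ (amL π D β b) := by
  intro g m G hl
  obtain ⟨k, post, h1, h2⟩ := (A.len h).front hF G hl
  obtain ⟨l1, l2, -⟩ := A.inv G
  rw [ht_snoc] at l1
  have e := amL_snoc π D β b g m
  rw [(A.dec.dec _ _ l1).2.2.2 (by simpa [hl] using hF), h1, (A.len h).fix g G.left hl.le] at e
  simp only [cp_nil, List.append_nil, List.append_cancel_left_eq, List.cons.injEq] at e
  have hp : ∀ a ∈ post, a.1 ≤ β := fun a ha => cp_le a (e.2 ▸ ha)
  rw [h1, List.append_cons] at l2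
  refine ⟨k, post, h1, h2, fun a ha => ne_top_of_le_ne_top hβ (hp a ha), fun γ x => ?_⟩
  obtain ⟨δ, rfl⟩ := WithTop.ne_top_iff_exists.1 hβ
  simp only [amalg, amSt] at x
  split_ifs at x with h3
  · exact ⟨δ, (WithTop.coe_lt_coe.1 h3).le, ok_coe.1 (Cond.ok_root l2.left A.okβ)⟩
  · rw [h1, List.append_cons, Cond.wait_path l2 fun a ha => (hp a ha).trans (not_lt.1 h3)] at x
    exact ⟨γ, le_rfl, x⟩

theorem amalg_top (A : AmH F r p₁ p₂ π D ⊤ ⊤) : A.amalg = r := by
  ext1
  · funext h γ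
    simp [amalg, amSt, ht_top]
  · rfl
  · rfl

end AmH

/-- a map on histories given cone by cone -/
def consMap (σ : Mv L → Hist L → Hist L) : Hist L → Hist L
  | [] => []
  | m :: g => m :: σ m g

theorem Sim.of_cones {F F' : ℕ → Prop} {q p : Cond L} {σ : Mv L → Hist L → Hist L}
    (e : q.st [] = p.st []) (e1 : q.mark [] = p.mark []) (e2 : q.kap [] = p.kap [])
    (h : ∀ m G G', Sim F (q.rr [m] G) (p.rr [m] G') (σ m)) (hF : ∀ n, F' (n + 1) → F n) :
    Sim F' q p (consMap σ) := by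
  have k : ∀ {m g}, Lg q.st (m :: g) → ∃ (G : Lg q.st [m]) (_ : Lg p.st [m]),
      Lg (q.rr [m] G).st g := fun {m g} G =>
    ⟨Lg.left (h := [m]) G, lg_single.2 (e ▸ (lg_cons.1 G).1), (lg_cons.1 G).2⟩
  refine ⟨?_, ?_, ?_, ?_⟩
  · rintro (_ | ⟨m, g⟩) G
    · exact lg_nil _
    · obtain ⟨G, G', X⟩ := k G
      exact (Cond.lg_rr G').1 ((h m G G').leg g X)
  · rintro (_ | ⟨m, g⟩) G γ s x
    · exact e ▸ x
    · obtain ⟨G, G', X⟩ := k G
      exact (h m G G').sits g X γ s x
  · rintro (_ | ⟨a, g⟩) m G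
    · exact ⟨[], m, σ m [], rfl, le_rfl, by simp [consMap, e1], fun _ => rfl⟩
    · obtain ⟨G, G', X⟩ := k G
      obtain ⟨pre, m', post, h1, h2, h3, h4⟩ := (h a G G').mrk g m X
      exact ⟨pre, m', post, by simp [consMap, h1], h2, by simpa [consMap, Cond.rr] using h3,
        fun y => h4 (hF _ y)⟩
  · rintro (_ | ⟨a, g⟩) m G
    · exact ⟨m, σ m [], rfl, by simp [consMap, e2]⟩
    · obtain ⟨G, G', X⟩ := k G
      obtain ⟨m', s, h1, h2⟩ := (h a G G').kp g m X
      exact ⟨m', s, by simp [consMap, h1], by simpa [consMap, Cond.rr] using h2⟩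

theorem LEn.of_cones {F F' : ℕ → Prop} {q p : Cond L} {σ : Mv L → Hist L → Hist L} {n : ℕ}
    (e : q.st [] = p.st []) (e1 : q.mark [] = p.mark []) (e2 : q.kap [] = p.kap [])
    (h : ∀ m G G', LEn n F (q.rr [m] G) (p.rr [m] G') (σ m)) (hF : ∀ n, F' (n + 1) → F n) :
    LEn (n + 1) F' q p (consMap σ) := by
  have k : ∀ {m g}, Lg q.st (m :: g) → ∃ (G : Lg q.st [m]) (_ : Lg p.st [m]),
      Lg (q.rr [m] G).st g := fun {m g} G =>
    ⟨Lg.left (h := [m]) G, lg_single.2 (e ▸ (lg_cons.1 G).1), (lg_cons.1 G).2⟩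
  refine ⟨Sim.of_cones e e1 e2 (fun m G G' => (h m G G').sim) hF, ?_, ?_, ?_⟩
  · rintro (_ | ⟨m, g⟩) G hl
    · rfl
    · obtain ⟨G, G', X⟩ := k G
      rw [consMap, (h m G G').fix g X (by simpa using hl)]
  · rintro (_ | ⟨m, g⟩) G hl
    · exact e
    · obtain ⟨G, G', X⟩ := k G
      exact (h m G G').st g X (by simpa using hl)
  · rintro (_ | ⟨a, ks⟩) hl
    · exact ⟨e1, e2⟩
    · exact (h (⊤, a) (lg_single.2 (ok_top _)) (lg_single.2 (ok_top _))).ck ks (by simpa using hl)

theorem Sup.of_cones {β : WithTop L} {q : Cond L} (e : ∀ γ, q.st [] γ ≠ none → ↑γ < β)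
    (h : ∀ m G, Sup β (q.rr [m] G)) : Sup β q := by
  rintro (_ | ⟨m, g⟩) G
  · exact e
  · exact h m (Lg.left (h := [m]) G) g (lg_cons.1 G).2

theorem agree_rr (p : Cond L) {w w' β : WithTop L} {k : ℕ} (G : Lg p.st [(w, k)])
    (G' : Lg p.st [(w', k)]) (e : min w β = min w' β) : Agree β (p.rr _ G) (p.rr _ G') :=
  ⟨rfl, rfl, fun g g' X X' e' => p.loc β _ _ ((Cond.lg_rr G).1 X) ((Cond.lg_rr G').1 X')
    (by simp [e, e'])⟩

/-- the cut used for grafting -/
def gb (w0 w : WithTop L) : WithTop L := if w = w0 then ⊤ else min w w0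

theorem exists_graft {p : Cond L} {w0 : WithTop L} (H0 : Ok (p.st []) w0) {F : ℕ → Prop}
    (q : ℕ → Cond L) (π : ℕ → Hist L → Hist L)
    (hs : ∀ k, Sim F (q k) (p.rr [(w0, k)] (lg_single.2 H0)) (π k))
    (pure : ∀ k (γ : L), w0 ≤ γ → (q k).st [] γ = p.st [] γ)
    (hk : ∀ k j, p.mark [] k < (q k).kap [] j) :
    ∃ (p' : Cond L) (σ : Mv L → Hist L → Hist L), p'.st [] = p.st [] ∧ p'.mark [] = p.mark [] ∧
      p'.kap [] = p.kap [] ∧ (∀ k G, p'.rr [(w0, k)] G = q k) ∧
      (∀ k g, Lg (q k).st g → σ (w0, k) g = π k g) ∧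
      ∀ m G G', Sim F (p'.rr [m] G) (p.rr [m] G') (σ m) ∧
        (∀ β, Sup β (q m.2) → Sup β p → Sup β (p'.rr [m] G)) ∧
        ∀ n, LEn n F (q m.2) (p.rr [(w0, m.2)] (lg_single.2 H0)) (π m.2) →
          LEn n F (p'.rr [m] G) (p.rr [m] G') (σ m) ∧
          (m.1 ≠ w0 → F n → Tame n (p'.rr [m] G) (p.rr [m] G') (σ m)) := by
  choose D hD using fun k => (hs k).exists_dec
  have okg : ∀ w, Ok (p.st []) w → Ok (p.st []) (gb w0 w) := by
    intro w H
    unfold gb
    split_ifs
    · exact ok_top _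
    · rcases min_choice w w0 with x | x <;> rwa [x]
  have A : ∀ w (H : Ok (p.st []) w) k, AmH F (q k) (p.rr [(w0, k)] (lg_single.2 H0))
      (p.rr [(w, k)] (lg_single.2 H)) (π k) (D k) (gb w0 w) (gb w0 w) := by
    intro w H k
    refine ⟨hD k, agree_rr p _ _ ?_, le_rfl, fun γ x => ?_,
      Cond.ok_root (h := [(w, k)]) (lg_single.2 H) (okg w H)⟩
    · unfold gb
      split_ifs with x
      · rw [x]
      · simp
    · have l := (hs k).leg [] (lg_nil _)
      obtain ⟨s, hs'⟩ := Option.ne_none_iff_exists'.1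
        (Cond.ok_root ((Cond.lg_rr _).1 l) (okg w H) γ x)
      rw [(hs k).sits [] (lg_nil _) γ s hs']
      simp
  refine (exists_glue (p.st []) (p.fin [] (lg_nil _)) (p.mark []) (p.kap [])
    (fun w H k => (A w H k).amalg) (fun w H w' H' k β x x' => ⟨rfl, rfl, ?_⟩) ?_ ?_ (p.e1 [])
    (fun w H k j => hk k j) (p.e3 [])).elim fun p' ⟨h1, h2, h3, h4⟩ => ?_
  rotate_right
  · refine ⟨p', fun m => amL (π m.2) (D m.2) (gb w0 m.1) (gb w0 m.1), h1, h2, h3, ?_, ?_, ?_⟩
    · intro k G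
      rw [h4 w0 H0 k G]
      have := A w0 H0 k
      revert this
      simp only [gb, if_true]
      exact fun A => A.amalg_top
    · intro k g G
      have := A w0 H0 k
      simp only [gb, if_true] at this ⊢
      have e := (this.inv (h := g) (show Lg this.amalg.st g by rwa [this.amalg_top])).2.2
      simpa [ht_top] using e
    · rintro ⟨w, k⟩ G G'
      have H := lg_single.1 G'
      rw [h4 w H k G]
      exact ⟨(A w H k).sim_up, fun β x y => (A w H k).sup (Or.inr x) (y.rr _),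
        fun n x => ⟨(A w H k).len x, fun y z => (A w H k).tame x z (by
          simp only [gb, if_neg y]
          intro c
          rw [min_eq_top] at c
          exact y (c.1.trans c.2.symm))⟩⟩
  · intro g g' G G' e γ y
    have k1 : ∀ {w : WithTop L}, β ≤ w → (↑γ < gb w0 w ↔ w = w0 ∨ ↑γ < w0) := by
      intro w x
      unfold gb
      split_ifs with z
      · simp [z]
      · simp [z, y.trans_le x]
    have k2 : ∀ {w : WithTop L}, β ≤ w → w = w0 → ↑γ < w0 := fun x z => z ▸ y.trans_le x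
    simp only [AmH.amalg, amSt]
    by_cases z : ↑γ < w0
    · have z1 := (k1 x).2 (Or.inr z)
      have z2 := (k1 x').2 (Or.inr z)
      rw [if_pos z1, if_pos z2]
      refine (q k).loc (min β (min (gb w0 w) (gb w0 w'))) _ _ ((A w H k).inv G).1
        ((A w' H' k).inv G').1 ?_ γ (lt_min y (lt_min z1 z2))
      rw [cp_ht le_rfl ((min_le_right _ _).trans (min_le_left _ _)),
        cp_ht le_rfl ((min_le_right _ _).trans (min_le_right _ _))]
      exact cp_of_le (min_le_left _ _) e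
    · rw [if_neg fun c => z (((k1 x).1 c).elim (k2 x) id),
        if_neg fun c => z (((k1 x').1 c).elim (k2 x') id)]
      have k3 : ∀ {w : WithTop L}, β ≤ w → gb w0 w = w0 := fun {w} x => by
        rw [gb, if_neg fun c => z (k2 x c), min_eq_right ((not_lt.1 z).trans (y.le.trans x))]
      refine (agree_rr p (lg_single.2 H) (lg_single.2 H')
        (by rw [min_eq_right x, min_eq_right x'])).st _ _ ((A w H k).inv G).2.1
        ((A w' H' k).inv G').2.1 ?_ γ y
      rw [k3 x, k3 x']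
      exact amL_cp _ _ _ ((not_lt.1 z).trans y.le) e
  · intro w H k γ x
    by_cases z : w = w0
    · subst z
      simp only [AmH.amalg, amSt, gb, if_true, WithTop.coe_lt_top, ht_nil]
      exact pure k γ x
    · rw [(A w H k).root_up (by rw [gb, if_neg z]; exact (min_le_left _ _).trans x)]
      exact p.wait [] (w, k) (lg_single.2 H) γ x
  · intro w H k γ x u y
    have l := (Cond.lg_rr _).1 ((A w H k).sim_up.leg [] (lg_nil _))
    obtain ⟨t, t1, t2, t3⟩ := Cond.ext_path (h := []) l y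
    exact ⟨t, t2 ⟨(w, k), by simp, x⟩, (A w H k).sim_up.sits [] (lg_nil _) γ _ t1,
      fun a ha => t3 a ha (w, k) _ rfl⟩

end Pool.Agent.P.MP_56695d_gt
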