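import Pool.Agent.P.MP_56695d_gt.Ultra

set_option autoImplicit false

/-! Sets of old reals are productively Scheepers. -/

open Pool.Agent.Lib.PosetForcing Cardinal

namespace Pool.Agent.P.MP_56695d_gt

section general

variable {P : Type} [Preorder P]

instance clopen_cert (Cv : ℕ → ℕ → Gen P → Prop) [∀ c v, Clopen (Cv c v)] (l : ℕ → ℕ)
    (θ k c : ℕ) : Clopen fun U => Cert (fun c v => Cv c v U) l θ k c := by
  induction k generalizing c with
  | zero => exact inferInstanceAs (Clopen (Cv c θ))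
  | succ k ih =>
    exact inferInstanceAs (Clopen fun U => ∃ v < θ + 1, Cv c v U ∧
      Cert (fun c v => Cv c v U) l θ k (l v))

theorem Cert.mono {Cv : ℕ → ℕ → Prop} (h : ∀ c v v', v ≤ v' → Cv c v → Cv c v') {l : ℕ → ℕ}
    {θ θ' k c : ℕ} (e : θ ≤ θ') (x : Cert Cv l θ k c) : Cert Cv l θ' k c := by
  induction k generalizing c with
  | zero => exact h _ _ _ e x
  | succ k ih =>
    obtain ⟨v, a, b, d⟩ := x
    exact ⟨v, by omega, b, ih d⟩

variable [OrderTop P]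

/-- `Φ` holds near the real `y` -/
def Nb {U : Gen P} (y : Mod U) (Φ : Mod U → Prop) : Prop :=
  ∃ a b : ℕ, InI Mod.mem (ltN.val U) y ((natName a).val U) ((natName b).val U) ∧
    ∀ y', IsReal Mod.mem (omegaName.val U) (ltN.val U) y' →
      InI Mod.mem (ltN.val U) y' ((natName a).val U) ((natName b).val U) → Φ y'

theorem InI.mono {U : Gen P} {y : Mod U} (hy : IsReal Mod.mem (omegaName.val U) (ltN.val U) y)
    {a b a' b' : ℕ} (ha : rat a ≤ rat a') (hb : rat b' ≤ rat b)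
    (h : InI Mod.mem (ltN.val U) y ((natName a').val U) ((natName b').val U)) :
    InI Mod.mem (ltN.val U) y ((natName a).val U) ((natName b).val U) := by
  obtain ⟨h1, c, h2, h3⟩ := h
  refine ⟨?_, c, ?_, h3⟩
  · rcases ha.eq_or_lt with e | e
    · rwa [rat_inj e]
    · exact hy.2.2.2.1 _ _ (app_lt.2 e) h1
  · rcases hb.eq_or_lt with e | e
    · rwa [← rat_inj e]
    · exact (isDLO U).trans _ _ _ h2 (app_lt.2 e)

theorem Nb.and {U : Gen P} {y : Mod U} {Φ Ψ : Mod U → Prop} (h : Nb y Φ) (h' : Nb y Ψ) :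
    Nb y fun y' => Φ y' ∧ Ψ y' := by
  obtain ⟨a, b, h1, h2⟩ := h
  obtain ⟨a', b', h3, h4⟩ := h'
  rcases le_total (rat a) (rat a') with x | x <;> rcases le_total (rat b) (rat b') with z | z
  · exact ⟨a', b, ⟨h3.1, h1.2⟩, fun y' r i =>
      ⟨h2 y' r (i.mono r x le_rfl), h4 y' r (i.mono r le_rfl z)⟩⟩
  · exact ⟨a', b', h3, fun y' r i => ⟨h2 y' r (i.mono r x z), h4 y' r i⟩⟩
  · exact ⟨a, b, h1, fun y' r i => ⟨h2 y' r i, h4 y' r (i.mono r x z)⟩⟩
  · exact ⟨a, b', ⟨h1.1, h3.2⟩, fun y' r i =>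
      ⟨h2 y' r (i.mono r le_rfl z), h4 y' r (i.mono r x le_rfl)⟩⟩

theorem Nb.cert {U : Gen P} {y : Mod U} {Cv : ℕ → ℕ → Mod U → Prop}
    (h : ∀ c v, Cv c v y → Nb y (Cv c v)) {l : ℕ → ℕ} {θ k c : ℕ}
    (x : Cert (fun c v => Cv c v y) l θ k c) :
    Nb y fun y' => Cert (fun c v => Cv c v y') l θ k c := by
  induction k generalizing c with
  | zero => exact h _ _ x
  | succ k ih =>
    obtain ⟨v, a, b, d⟩ := x
    obtain ⟨i, j, e, g⟩ := (h _ _ b).and (ih d)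
    exact ⟨i, j, e, fun y' r z => ⟨v, a, g y' r z⟩⟩

/-- the point `(x, y)` lies in the rational box with code `a` -/
def Box (a : ℕ) (U : Gen P) (x y : Mod U) : Prop :=
  InI Mod.mem (ltN.val U) x ((natName a.unpair.1.unpair.1).val U)
    ((natName a.unpair.1.unpair.2).val U) ∧
  InI Mod.mem (ltN.val U) y ((natName a.unpair.2.unpair.1).val U)
    ((natName a.unpair.2.unpair.2).val U)

instance clopen_box (a : ℕ) (x y : Name P) : Clopen fun U => Box a U (x.val U) (y.val U) := by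
  unfold Box; infer_instance

variable (X Y Z f : Name P)

/-- `V` is a member of the `n`-th cover containing the box `a` -/
def Fine (n a : ℕ) (U : Gen P) (V : Mod U) : Prop :=
  (∃ F, App Mod.mem (f.val U) ((natName n).val U) F ∧ Mod.mem V F) ∧
    ∀ x y, App Mod.mem (Z.val U) x y → Box a U x y → App Mod.mem V x y

instance clopen_fine (n a : ℕ) (V : Name P) : Clopen fun U => Fine Z f n a U (V.val U) := by
  unfold Fine; infer_instance

/-- the point `(x, y)` lies in a fine box with code at most `v` -/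
def Cov (x : ℝ) (n v : ℕ) (U : Gen P) (y : Mod U) : Prop :=
  ∃ a < v + 1, (∃ V, Fine Z f n a U V) ∧ Box a U ((cutN x).val U) y

instance clopen_cov (x : ℝ) (n v : ℕ) (y : Name P) :
    Clopen fun U => Cov Z f x n v U (y.val U) := by
  unfold Cov; infer_instance

/-- the standing hypotheses -/
def Hyp (U : Gen P) : Prop :=
  IsRealSet Mod.mem (omegaName.val U) (ltN.val U) (Y.val U) ∧
  Scheepers Mod.mem (omegaName.val U) (Y.val U) (OpenIn Mod.mem (ltN.val U) (Y.val U)) ∧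
  IsProd Mod.mem (Z.val U) (X.val U) (Y.val U) ∧
  IsCovers Mod.mem (omegaName.val U) (Z.val U) (OpenIn2 Mod.mem (ltN.val U) (Z.val U)) (f.val U)

instance clopen_hyp : Clopen (Hyp X Y Z f) := by
  unfold Hyp; infer_instance

/-- the auxiliary open sets -/
def VN (t : ℝ × (ℕ → ℕ) × (ℕ → ℕ) × ℕ) (k m : ℕ) : Name P :=
  sepName Y fun U y => Cert (fun c v => Cov Z f t.1 (t.2.1 c) v U y) t.2.2.1 m k t.2.2.2

variable {X Y Z f}

theorem Cov.mono {x : ℝ} {n v v' : ℕ} {U : Gen P} {y : Mod U} (e : v ≤ v')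
    (h : Cov Z f x n v U y) : Cov Z f x n v' U y := h.imp fun _ a => ⟨by omega, a.2⟩

theorem mem_VN {t : ℝ × (ℕ → ℕ) × (ℕ → ℕ) × ℕ} {k m : ℕ} {U : Gen P} {y : Mod U} :
    Mod.mem y ((VN Y Z f t k m).val U) ↔ Mod.mem y (Y.val U) ∧
      Cert (fun c v => Cov Z f t.1 (t.2.1 c) v U y) t.2.2.1 m k t.2.2.2 := mem_sepName _ _ U y

theorem VN_mono (t : ℝ × (ℕ → ℕ) × (ℕ → ℕ) × ℕ) (k m m' : ℕ) (U : Gen P) (e : m ≤ m') :
    IsSub Mod.mem ((VN Y Z f t k m).val U) ((VN Y Z f t k m').val U) := fun _ h =>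
  mem_VN.2 ⟨(mem_VN.1 h).1, (mem_VN.1 h).2.mono (fun _ _ _ a b => b.mono a) e⟩

theorem app_of_prod {U : Gen P} {X Y Z x y : Mod U} (h : IsProd Mod.mem Z X Y) (hx : Mod.mem x X)
    (hy : Mod.mem y Y) : App Mod.mem Z x y :=
  ((isZFC U).exists_pair x y).imp fun p a => ⟨(h p).2 ⟨x, y, a, hx, hy⟩, a⟩

theorem cov_dense {x : ℝ} (hx : ∀ U, Mod.mem ((cutN x).val U) (X.val U)) {y : Name P} {q : P}
    (h : Forces q fun U => Hyp X Y Z f U ∧ Mod.mem (y.val U) (Y.val U)) (n : ℕ) :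
    ∃ r ≤ q, ∃ v, Forces r fun U => Cov Z f x n v U (y.val U) := by
  have : Forces q fun U => ∃ a, Mod.mem a (omegaName.val U) ∧ ∃ b, Mod.mem b (omegaName.val U) ∧
      ∃ c, Mod.mem c (omegaName.val U) ∧ ∃ d, Mod.mem d (omegaName.val U) ∧
      (∃ V, (∃ F, App Mod.mem (f.val U) ((natName n).val U) F ∧ Mod.mem V F) ∧
        ∀ x' y', App Mod.mem (Z.val U) x' y' → InI Mod.mem (ltN.val U) x' a b ∧
          InI Mod.mem (ltN.val U) y' c d → App Mod.mem V x' y') ∧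
      InI Mod.mem (ltN.val U) ((cutN x).val U) a b ∧ InI Mod.mem (ltN.val U) (y.val U) c d := by
    refine h.imp fun U ⟨⟨h1, _, h3, h4⟩, h5⟩ => ?_
    obtain ⟨F, hF⟩ := h4.2.1 _ (natName_mem_omega n U)
    obtain ⟨-, g1, g2⟩ := (isZFC U).app_val h4 hF
    obtain ⟨z, z1, z2⟩ := app_of_prod h3 (hx U) h5
    obtain ⟨V, v1, v2⟩ := g2 z z1
    obtain ⟨a, b, c, d, i1, i2, i3⟩ := (g1 V v1).2 _ _ ⟨z, v2, z2⟩
    have k : ∀ {c b}, App Mod.mem (ltN.val U) c b → Mod.mem b (omegaName.val U) := fun e =>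
      forall_lt (Φ := fun U _ b => Mod.mem b (omegaName.val U))
        (fun _ j U _ => natName_mem_omega j U) U _ _ e
    exact ⟨a, (isReal_cutN x U).1 _ i1.1, b, i1.2.elim fun _ e => k e.1, c, (h1 _ h5).1 _ i2.1, d,
      i2.2.elim fun _ e => k e.1, ⟨V, ⟨F, hF, v1⟩, fun x' y' e e' => i3 x' y' e e'.1 e'.2⟩, i1, i2⟩
  obtain ⟨q1, e1, a, h1⟩ := exists_nat this
  obtain ⟨q2, e2, b, h2⟩ := exists_nat h1
  obtain ⟨q3, e3, c, h3⟩ := exists_nat h2
  obtain ⟨q4, e4, d, h4⟩ := exists_nat h3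
  exact ⟨q4, e4.trans (e3.trans (e2.trans e1)), Nat.pair (Nat.pair a b) (Nat.pair c d),
    h4.imp fun U e => ⟨_, Nat.lt_succ_self _, by simpa only [Fine, Box, Nat.unpair_pair] using e⟩⟩

theorem cert_dense {x : ℝ} (hx : ∀ U, Mod.mem ((cutN x).val U) (X.val U)) {y : Name P}
    (nx l : ℕ → ℕ) (k : ℕ) : ∀ c, ∀ q : P,
    (Forces q fun U => Hyp X Y Z f U ∧ Mod.mem (y.val U) (Y.val U)) →
    ∃ r ≤ q, ∃ m, Forces r fun U => Cert (fun c v => Cov Z f x (nx c) v U (y.val U)) l m k c := by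
  induction k with
  | zero => exact fun c q h => cov_dense hx h _
  | succ k ih =>
    intro c q h
    obtain ⟨r, h1, v, h2⟩ := cov_dense hx h (nx c)
    obtain ⟨s, h3, m, h4⟩ := ih (l v) r (h.mono h1)
    exact ⟨s, h3.trans h1, max v m, ((h2.mono h3).and h4).imp fun U a =>
      ⟨v, by omega, a.1, a.2.mono (fun _ _ _ a b => b.mono a) (le_max_right _ _)⟩⟩

theorem covers_VN {t : ℝ × (ℕ → ℕ) × (ℕ → ℕ) × ℕ} (hx : ∀ U, Mod.mem ((cutN t.1).val U) (X.val U))
    {q : P} (h : Forces q (Hyp X Y Z f)) : Forces q fun U => IsCovers Mod.mem (omegaName.val U)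
      (Y.val U) (OpenIn Mod.mem (ltN.val U) (Y.val U))
      ((seqN fun k => fam (VN Y Z f t k)).val U) := by
  refine forces_isFunOn_seqN fun k r hr => ⟨r, le_rfl, Forces.and ?_ ?_⟩
  · refine forces_forall_mem_fam fun m s hs => ⟨s, le_rfl, (h.mono (hs.trans hr)).imp
      fun U a => ⟨fun y b => (mem_VN.1 b).1, fun y b => ?_⟩⟩
    obtain ⟨i, j, c, d⟩ := Nb.cert (Cv := fun c v y => Cov Z f t.1 (t.2.1 c) v U y)
      (fun c v ⟨a, a1, a2, a3, a4⟩ => ⟨_, _, a4, fun y' _ e => ⟨a, a1, a2, a3, e⟩⟩) (mem_VN.1 b).2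
    exact ⟨_, _, c, fun y' e g => mem_VN.2 ⟨e, d y' (a.1 y' e) g⟩⟩
  · refine forces_forall fun y => forces_imp fun s hs a => ?_
    obtain ⟨s', h1, m, h2⟩ := cert_dense hx t.2.1 t.2.2.1 k t.2.2.2 s ((h.mono (hs.trans hr)).and a)
    exact ⟨s', h1, ((a.mono h1).and h2).imp fun U b => ⟨_, mem_fam _ m U, mem_VN.2 b⟩⟩

end general

variable {L : Type} [LinearOrder L]

/-- `a` is bounded by one of the first `n + 1` values of the generic real at `β` -/
def Rb (β : L) (n a : ℕ) (q : Cond L) : Prop :=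
  ∃ s b u, q.st [] β = some (s ++ b :: u) ∧ s.length ≤ n ∧ a ≤ b

/-- the generic choice -/
def gN (f : Name (Cond L)) (O : ℕ → ℕ → Name (Cond L)) (β : L) : Name (Cond L) :=
  seqN fun n => subN (O n) fun a q => Rb β n a q ∧ Forces q fun U =>
    ∃ F, App Mod.mem (f.val U) ((natName n).val U) F ∧ Mod.mem ((O n a).val U) F

variable {X Y Z f : Name (Cond L)} {O : ℕ → ℕ → Name (Cond L)} {β : L}

theorem choice_gN {p : Cond L} (hβ : p.st [] β ≠ none) (h : Forces p (Hyp X Y Z f)) :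
    Forces p fun U => IsChoice Mod.mem (omegaName.val U) (f.val U) ((gN f O β).val U) := by
  refine Forces.and (forces_isFunOn_seqN fun n q hq => ?_) ?_
  · obtain ⟨s, hs⟩ := Option.ne_none_iff_exists'.1 hβ
    obtain ⟨t, ht⟩ := Cond.root_ext hq hs
    obtain ⟨r, h1, s0, h2, h3⟩ := exists_long (p := q) (β := β) (by simp [ht]) (n + 1)
    refine ⟨r, h1, (forces_forall_subN (Φ := fun U z => ∃ i < s0.sum + 1, z = (O n i).val U)
      fun a q' ⟨⟨s, b, u, x1, x2, x3⟩, _⟩ r' y1 y2 => ⟨r', le_rfl, Forces.of_forall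
        (fun U => ⟨a, ?_, rfl⟩) _⟩).imp fun U => isFin_of (O n) _⟩
    obtain ⟨t1, e1⟩ := Cond.root_ext y1 h2
    obtain ⟨t2, e2⟩ := Cond.root_ext y2 x1
    have e := Option.some.inj (e1.symm.trans e2)
    rw [List.append_assoc] at e
    have : b ∈ s0 := by
      rcases List.append_eq_append_iff.1 e with ⟨c, rfl, -⟩ | ⟨c, rfl, e'⟩
      · simp at x2; omega
      · cases c with
        | nil => simp at h3; omega
        | cons c d => simp [(List.cons.inj e').1]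
    have := List.single_le_sum (fun _ _ => Nat.zero_le _) b this
    omega
  · refine (forces_forall_app_graph (Φ := fun U n G => ∀ F, App Mod.mem (f.val U) n F →
      IsSub Mod.mem G F) fun n q hq _ => ⟨q, le_rfl, ?_⟩).imp fun U a n F G b c => a n G c F b
    refine (forces_forall_subN (Φ := fun U z => ∀ F,
      App Mod.mem (f.val U) ((natName (P := Cond L) n).val U) F → Mod.mem z F) fun a q' x r y1 y2 => ⟨r, le_rfl, ?_⟩).imp fun U a F b z c => a z c F b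
    exact ((x.2.mono y2).and (h.mono (y1.trans hq))).imp fun U ⟨⟨F', c, d⟩, e⟩ F b =>
      e.2.2.2.2.2 _ _ _ c b ▸ d

/-- the choice `s` is bounded at stage `k` -/
def Bd (Y Z f s : Name (Cond L)) (t : ℝ × (ℕ → ℕ) × (ℕ → ℕ) × ℕ) (k θ : ℕ) (q : Cond L) : Prop :=
  Forces q fun U => IsChoice Mod.mem (omegaName.val U)
    ((seqN fun k => fam (VN Y Z f t k)).val U) (s.val U) →
    ∀ x, InStep Mod.mem (s.val U) ((natName k).val U) x → Mod.mem x ((VN Y Z f t k θ).val U)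

theorem exists_good (s : Name (Cond L)) (t : ℝ × (ℕ → ℕ) × (ℕ → ℕ) × ℕ) (p : Cond L) :
    ∃ r ≤ p, (∃ θ, Bd Y Z f s t 0 θ r) ∧ ∀ h k G, ∃ θ, ∀ j ≤ r.mark (clk h) k + 1,
      Bd Y Z f s t j θ (r.rr (h ++ [(⊤, k)]) G) := by
  have d : ∀ k q, ∃ r ≤ q, ∃ θ, Bd Y Z f s t k θ r := fun k q =>
    dense_imp (choice_bound (VN_mono t) k)
  obtain ⟨q, h1, θ, h2⟩ := d 0 p
  obtain ⟨r, h3, h4⟩ := exists_str (D := fun n q => ∃ θ, ∀ j ≤ n + 1, Bd Y Z f s t j θ q)
    (fun _ _ _ x => Exists.imp fun _ y j z => (y j z).mono x) (fun n q => by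
      obtain ⟨r, x, y⟩ := dense_fin (D := fun j q => ∃ θ, Bd Y Z f s t j θ q)
        (fun _ _ _ x => Exists.imp fun _ y => y.mono x) (n + 2) (p := q) fun j _ r _ => d j r
      choose! m hm using y
      exact ⟨r, x, (Finset.range (n + 2)).sup m, fun j z => (hm j (by omega)).imp fun U a b c e =>
        VN_mono t j _ _ U (Finset.le_sup (Finset.mem_range.2 (by omega))) _ (a b c e)⟩) q
  exact ⟨r, h3.trans h1, ⟨θ, h2.mono h3⟩, h4⟩

theorem no_miss {s : ℝ × (ℕ → ℕ) × (ℕ → ℕ) × ℕ → Name (Cond L)}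
    (hs : ∀ t U, Hyp X Y Z f U → IsCovers Mod.mem (omegaName.val U) (Y.val U)
      (OpenIn Mod.mem (ltN.val U) (Y.val U)) ((seqN fun k => fam (VN Y Z f t k)).val U) →
      IsChoice Mod.mem (omegaName.val U) ((seqN fun k => fam (VN Y Z f t k)).val U) ((s t).val U) ∧
      ∀ A, IsFin Mod.mem (omegaName.val U) A → IsSub Mod.mem A (Y.val U) →
        ∃ n, Mod.mem n (omegaName.val U) ∧ ∀ x, Mod.mem x A → InStep Mod.mem ((s t).val U) n x)
    (hO : ∀ n a U, (∃ V, Fine Z f n a U V) → Fine Z f n a U ((O n a).val U))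
    (hβ : ∀ t p, Sup β p → ∃ r ≤ p, Sup β r ∧ (∃ θ, Bd Y Z f (s t) t 0 θ r) ∧
      ∀ h k G, ∃ θ, ∀ j ≤ r.mark (clk h) k + 1, Bd Y Z f (s t) t j θ (r.rr (h ++ [(⊤, k)]) G))
    {x : ℝ} (hx : ∀ U, Mod.mem ((cutN x).val U) (X.val U)) {y z : Name (Cond L)} {p : Cond L}
    (hp : p.st [] β ≠ none) (h : Forces p fun U => Hyp X Y Z f U ∧ Mod.mem (y.val U) (Y.val U) ∧
      IsPair Mod.mem (z.val U) ((cutN x).val U) (y.val U)) {B : Set ℕ} (hB : B.Infinite)
    (hn : ∀ n ∈ B, Forces p fun U =>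
      ¬ InStep Mod.mem ((gN f O β).val U) ((natName n).val U) (z.val U)) : False := by
  choose nx n1 n2 using hB.exists_gt
  obtain ⟨l, hl⟩ := exists_len p β
  let t : ℝ × (ℕ → ℕ) × (ℕ → ℕ) × ℕ := (x, nx, l, ((p.st [] β).getD []).length)
  obtain ⟨r, r1, r2, r3, r4⟩ := hβ t _ (p.sup_res β hp)
  have h1 := (h.and (covers_VN (t := t) hx (h.imp fun _ a => a.1))).imp fun U a => hs t U a.1.1 a.2
  refine main_core hp r1 r2 hl (c0 := t.2.2.2) (fun s e => by simp [t, e])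
    (fun _ _ _ _ a b => b.mono a) r3 r4 fun q hq => ?_
  obtain ⟨q', h2, k, h3⟩ := exists_nat (Φ := fun U n => InStep Mod.mem ((s t).val U) n (y.val U))
    (((h.and h1).mono hq).imp fun U a => (a.2.2 ((upairName y y).val U)
      (isFin_of (fun _ => y) 1 fun z b => ⟨0, Nat.one_pos, by simpa [mem_upairName] using b⟩)
      fun z b => by
        obtain rfl : z = y.val U := by simpa [mem_upairName] using b
        exact a.1.2.1).imp fun n b => ⟨b.1, b.2 _ (by simp [mem_upairName])⟩)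
  refine ⟨q', h2, k, fun θ q'' h4 h5 => ?_⟩
  have e : q'' ≤ p := h4.trans (h2.trans hq)
  obtain ⟨U, hU⟩ := exists_gen q''
  refine ⟨_, (mem_VN.1 (h5 U hU (h1.mono e U hU).1 _ (h3.mono h4 U hU))).2,
    fun c v ⟨a, a1, a2, a3⟩ u b u' a4 a5 => not_le.1 fun a6 => ?_⟩
  obtain ⟨q3, b1, b2⟩ := exists_forces_of (Φ := fun U => Fine Z f (nx c) a U ((O (nx c) a).val U) ∧
    Box a U ((cutN x).val U) (y.val U)) hU ⟨hO _ _ U a2, a3⟩
  obtain ⟨u'', b3⟩ := Cond.root_ext b1 a4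
  refine forces_not_iff.1 (hn _ (n1 c)) q3 (b1.trans e) ?_
  refine ((forces_mem_subN (O := O (nx c)) (R := fun a q => Rb β (nx c) a q ∧ Forces q fun U =>
    ∃ F, App Mod.mem (f.val U) ((natName (nx c)).val U) F ∧ Mod.mem ((O (nx c) a).val U) F)
    (a := a) ⟨⟨u, b, u' ++ u'', by simpa using b3, a5.trans (n2 c).le, by omega⟩,
      b2.imp fun _ a => a.1.1⟩ le_rfl).and (b2.and (h.mono (b1.trans e)))).imp
    fun U ⟨c1, c2, c3⟩ => ⟨_, _, app_seqN_iff.2 rfl, c1, ?_⟩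
  obtain ⟨z', d1, d2⟩ := c2.1.2 _ _ (app_of_prod c3.1.2.2.1 (hx U) c3.2.1) c2.2
  exact (isZFC U).pair_unique d2 c3.2.2 ▸ d1

theorem scheepers_prod [WellFoundedLT L] (hL : ∀ γ : L, #(Set.Iio γ) ≤ 𝔠) (hL' : 𝔠 < #L)
    {ι : Type} (e : ι → ℝ) (U : Gen (Cond L)) (Y Z : Mod U)
    (h1 : IsRealSet Mod.mem (omegaName.val U) (ltN.val U) Y)
    (h2 : Scheepers Mod.mem (omegaName.val U) Y (OpenIn Mod.mem (ltN.val U) Y))
    (h3 : IsProd Mod.mem Z ((fam fun i => cutN (e i)).val U) Y) :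
    Scheepers Mod.mem (omegaName.val U) Z (OpenIn2 Mod.mem (ltN.val U) Z) := by
  intro f h4
  obtain ⟨Y, rfl⟩ := Y.exists_name
  obtain ⟨Z, rfl⟩ := Z.exists_name
  obtain ⟨f, rfl⟩ := f.exists_name
  refine of_dense (H := Hyp (fam fun i => cutN (e i)) Y Z f) (Φ := fun U => ∃ g,
    IsChoice Mod.mem (omegaName.val U) (f.val U) g ∧ ∀ A, IsFin Mod.mem (omegaName.val U) A →
    IsSub Mod.mem A (Z.val U) → ∃ n, Mod.mem n (omegaName.val U) ∧
      ∀ x, Mod.mem x A → InStep Mod.mem g n x) (fun p0 hp0 => ?_) U ⟨h1, h2, h3, h4⟩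
  choose s hs using fun t => max_principle fun (U : Gen (Cond L)) g =>
    IsChoice Mod.mem (omegaName.val U) ((seqN fun k => fam (VN Y Z f t k)).val U) g ∧
    ∀ A, IsFin Mod.mem (omegaName.val U) A → IsSub Mod.mem A (Y.val U) →
      ∃ n, Mod.mem n (omegaName.val U) ∧ ∀ x, Mod.mem x A → InStep Mod.mem g n x
  choose O hO using fun n a => max_principle (Fine Z f n a)
  obtain ⟨β, b1, b2⟩ := exists_closed_cond hL hL' (T := ℝ × (ℕ → ℕ) × (ℕ → ℕ) × ℕ)
    (by simp [mk_real])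
    (fun t => exists_good (Y := Y) (Z := Z) (f := f) (s t) t) p0
  obtain ⟨p, p1, p2⟩ := exists_activate b1
  have hp := hp0.mono p1
  refine ⟨p, p1, Forces.imp (Φ := fun U => _ ∧ ∀ A, IsFin Mod.mem (omegaName.val U) A ∧
    IsSub Mod.mem A (Z.val U) → ∃ n, Mod.mem n (omegaName.val U) ∧
      ∀ x, Mod.mem x A → InStep Mod.mem ((gN f O β).val U) n x)
    ((choice_gN (O := O) p2 hp).and ?_) fun U a => ⟨_, a.1, fun A b c => a.2 A ⟨b, c⟩⟩⟩
  refine forces_forall fun A => forces_imp fun q hq hA => ?_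
  obtain ⟨q1, g1, N, a, g2⟩ := fin_enum (hA.imp fun _ x => x.1)
  have key : ∀ j, ∃ r ≤ q1, ∃ B : Set ℕ, B.Infinite ∧ ∀ n ∈ B, ∀ i < j, Forces r fun U =>
      Mod.mem ((a i).val U) (A.val U) →
      InStep Mod.mem ((gN f O β).val U) ((natName n).val U) ((a i).val U) := by
    intro j
    induction j with
    | zero => exact ⟨q1, le_rfl, Set.univ, Set.infinite_univ, by simp⟩
    | succ j ih =>
      obtain ⟨r, r1, B, r2, r3⟩ := ih
      obtain ⟨r', r4, _ | _, r5⟩ := dense_dec (fun U => Mod.mem ((a j).val U) (A.val U)) r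
      · exact ⟨r', r4.trans r1, B, r2, fun n hn => Nat.forall_lt_succ_right.2
          ⟨fun i hi => (r3 n hn i hi).mono r4, r5.imp fun U x y => by simpa using x.1 y⟩⟩
      have e1 : r' ≤ q := r4.trans (r1.trans g1)
      obtain ⟨x, hx⟩ := Forces.exists_name ((((hp.mono hq).and hA).mono e1).and r5 |>.imp
        fun U b => (b.1.1.2.2.1 _).1 (b.1.2.2 _ (b.2.2 rfl)))
      obtain ⟨y, hy⟩ := Forces.exists_name hx
      obtain ⟨r'', r6, i, r7⟩ := Forces.exists_fam (hy.imp fun _ b => b.2.1)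
      obtain ⟨u, u1, b, B', u2, u3, u4⟩ := exists_hom (D := fun n b q => Forces q fun U =>
        InStep Mod.mem ((gN f O β).val U) ((natName n).val U) ((a j).val U) ↔ b = true)
        (fun _ _ _ _ c d => d.mono c) (fun _ _ _ c => Forces.of_dn c) (fun n p => dense_dec _ p)
        r'' r2
      have e2 : u ≤ r' := u1.trans r6
      have e3 : u ≤ p := e2.trans (e1.trans hq)
      cases b
      · obtain ⟨w, hw⟩ := Option.ne_none_iff_exists'.1 p2
        obtain ⟨w', hw'⟩ := Cond.root_ext e3 hw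
        exact (no_miss (fun t U c d => hs t U (c.2.1 _ d)) hO b2
          (mem_fam (fun i => cutN (e i)) i) (p := u) (by simp [hw'])
          (((hp.mono e3).and ((hy.mono e2).and (r7.mono u1))).imp fun U c =>
            ⟨c.1, c.2.1.2.2, c.2.2 ▸ c.2.1.1⟩) u3
          fun n hn => (u4 n hn).imp fun U c => by simpa using c).elim
      · exact ⟨u, e2.trans (r4.trans r1), B', u3, fun n hn => Nat.forall_lt_succ_right.2
          ⟨fun i hi => (r3 n (u2 hn) i hi).mono (e2.trans r4), (u4 n hn).imp fun U x _ => x.2 rfl⟩⟩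
  obtain ⟨r, r1, B, r2, r3⟩ := key N
  obtain ⟨n, hn⟩ := r2.nonempty
  refine ⟨r, r1.trans g1, fun U hU => ⟨_, natName_mem_omega n U, fun x hx => ?_⟩⟩
  obtain ⟨i, hi, rfl⟩ := g2.mono r1 U hU x hx
  exact r3 n hn i hi U hU hx

end Pool.Agent.P.MP_56695d_gt
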