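import Pool.Agent.P.MP_56695d_gt.Glue

set_option autoImplicit false

/-! Finiteness, thinning, doubling, diagonal conditions, top element, activation. -/

namespace Pool.Agent.P.MP_56695d_gt

variable {L : Type} [LinearOrder L]

omit [LinearOrder L] in
theorem fin_ok {s : St L} (hs : {γ | s γ ≠ none}.Finite) : {w | Ok s w}.Finite :=
  ((hs.image WithTop.some).insert ⊤).subset fun w H => by
    rcases eq_or_ne w ⊤ with x | x
    · exact Or.inl x
    · obtain ⟨γ, rfl⟩ := WithTop.ne_top_iff_exists.1 x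
      exact Or.inr ⟨γ, H γ rfl, rfl⟩

/-- the last move starts at time at most `v` -/
def LastLe (p : Cond L) (v : ℕ) (h : Hist L) : Prop :=
  ∀ g (m : Mv L), h = g ++ [m] → p.kap (clk g) m.2 ≤ v

theorem lastLe_nil (p : Cond L) (v : ℕ) : LastLe p v [] := fun g m e => by simp at e

theorem lastLe_snoc {p : Cond L} {v : ℕ} {h : Hist L} {m : Mv L} :
    LastLe p v (h ++ [m]) ↔ p.kap (clk h) m.2 ≤ v :=
  ⟨fun H => H h m rfl, fun H g a e => by
    obtain ⟨rfl, e2⟩ := List.append_inj' e rfl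
    obtain rfl : m = a := by simpa using e2
    exact H⟩

theorem LastLe.length {p : Cond L} {v : ℕ} {h : Hist L} (H : LastLe p v h) : h.length ≤ v + 1 := by
  rcases List.eq_nil_or_concat h with rfl | ⟨g, m, rfl⟩
  · simp
  · have := H g m (by simp)
    have h2 := p.length_le_kap (clk g) m.2
    simp at h2 ⊢
    omega

theorem Cond.fin_kap (p : Cond L) (v : ℕ) : {h | Lg p.st h ∧ LastLe p v h}.Finite := by
  have k : ∀ n, {h | h.length = n ∧ Lg p.st h ∧ LastLe p v h}.Finite := by
    intro n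
    induction n with
    | zero => exact (Set.finite_singleton []).subset fun h H => List.length_eq_zero_iff.1 H.1
    | succ n ih =>
      refine (ih.biUnion (t := fun g => (fun m => g ++ [m]) ''
        ({w | Ok (p.st g) w} ×ˢ {k | p.kap (clk g) k ≤ v})) fun g G => ?_).subset ?_
      · refine ((fin_ok (p.fin g G.2.1)).prod ?_).image _
        obtain ⟨N, hN⟩ := p.e1 (clk g) (v + 1)
        exact (Set.finite_lt_nat N).subset fun k hk => by
          by_contra hc
          have := hN k (not_lt.1 hc)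
          simp only [Set.mem_setOf_eq] at hk
          omega
      · rintro h ⟨h1, h2, h3⟩
        rcases List.eq_nil_or_concat h with rfl | ⟨g, m, rfl⟩
        · simp at h1
        · rw [List.concat_eq_append] at *
          refine Set.mem_biUnion (x := g) ⟨by simpa using h1, h2.left, ?_⟩
            ⟨m, ⟨(lg_snoc.1 h2).2, lastLe_snoc.1 h3⟩, rfl⟩
          rintro g' m' rfl
          have := lastLe_snoc.1 h3
          rw [clk_append] at this
          exact (p.kap_le _ _ [] _).trans this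
  exact ((Set.finite_le_nat (v + 1)).biUnion fun n _ => k n).subset fun h H =>
    Set.mem_biUnion (x := h.length) H.2.length ⟨rfl, H⟩

theorem Cond.fin_clk (p : Cond L) (ks : List ℕ) : {h | Lg p.st h ∧ clk h = ks}.Finite := by
  rcases List.eq_nil_or_concat ks with rfl | ⟨g, k, rfl⟩
  · exact (Set.finite_singleton []).subset fun h H => by simpa [clk] using H.2
  · refine (p.fin_kap (p.kap g k)).subset fun h H => ⟨H.1, ?_⟩
    rintro g' m rfl
    have := H.2
    rw [clk_append, List.concat_eq_append] at this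
    obtain ⟨e1, e2⟩ := List.append_inj' this rfl
    obtain rfl : m.2 = k := by simpa using e2
    rw [e1]

theorem Cond.countable_leg (p : Cond L) : {h | Lg p.st h}.Countable :=
  (Set.countable_iUnion fun ks => (p.fin_clk ks).countable).mono fun h H =>
    Set.mem_iUnion.2 ⟨clk h, And.intro H rfl⟩

theorem exists_reparam (p : Cond L) (F : ℕ → Prop) (π : Hist L → Hist L) (M K : List ℕ → ℕ → ℕ)
    (h0 : π [] = [])
    (hs : ∀ h (m : Mv L), ∃ (pre : Hist L) (k : ℕ), π (h ++ [m]) = π h ++ pre ++ [(m.1, k)] ∧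
      (∀ a ∈ pre, a.1 ≤ m.1) ∧ (Lg p.st (π h) → Ok (p.st (π h)) m.1 → Lg p.st (π h ++ pre)) ∧
      p.mark (clk (π h ++ pre)) k = M (clk h) m.2 ∧ (F h.length → pre = []) ∧
      ∀ a r, pre ++ [(m.1, k)] = a :: r → K (clk h) m.2 ≤ p.kap (clk (π h)) a.2)
    (hc : ∀ β h h', cp β h = cp β h' → cp β (π h) = cp β (π h'))
    (e1 : ∀ ks n, ∃ N, ∀ k, N ≤ k → n ≤ K ks k) (e2 : ∀ ks k j, M ks k < K (ks ++ [k]) j)
    (e3 : ∀ ks k, K ks k ≤ M ks k) :
    ∃ q : Cond L, (∀ h, q.st h = p.st (π h)) ∧ q.mark = M ∧ q.kap = K ∧ LEn 0 F q p π := by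
  have lg : ∀ h, Lg (fun h => p.st (π h)) h → Lg p.st (π h) := by
    intro h H
    induction h using List.reverseRecOn with
    | nil => rw [h0]; exact lg_nil _
    | append_singleton h m ih =>
      obtain ⟨pre, k, h1, -, h3, -⟩ := hs h m
      obtain ⟨H1, H2⟩ := lg_snoc.1 H
      rw [h1, lg_snoc]
      exact ⟨h3 (ih H1) H2, Cond.ok_path (h3 (ih H1) H2) H2⟩
  have kp : ∀ h (m : Mv L), ∃ (m' : Mv L) (r : Hist L), π (h ++ [m]) = π h ++ m' :: r ∧
      K (clk h) m.2 ≤ p.kap (clk (π h)) m'.2 := by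
    intro h m
    obtain ⟨pre, k, h1, -, -, -, -, h6⟩ := hs h m
    rw [h1, List.append_assoc]
    cases pre with
    | nil => exact ⟨_, _, rfl, h6 _ _ rfl⟩
    | cons a r => exact ⟨_, _, rfl, h6 _ _ rfl⟩
  refine ⟨⟨fun h => p.st (π h), M, K, fun h H => p.fin _ (lg h H),
    fun β h h' H H' e => p.loc β _ _ (lg h H) (lg h' H') (hc β h h' e), fun h m H γ x => ?_,
    fun h m H γ x s y => ?_, e1, e2, e3⟩, fun _ => rfl, rfl, rfl,
    ⟨lg, fun _ _ _ _ x => x, fun h m _ => ?_, fun h m _ => kp h m⟩, fun h _ x => ?_,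
    fun h _ x => ?_, fun _ x => absurd x (Nat.not_lt_zero _)⟩
  · have l := lg _ H
    obtain ⟨pre, k, h1, h2, -⟩ := hs h m
    simp only [h1, List.append_assoc] at l ⊢
    refine Cond.wait_path l fun a ha => ?_
    rcases List.mem_append.1 ha with ha | ha
    · exact (h2 a ha).trans x
    · rw [List.mem_singleton.1 ha]; exact x
  · have l := lg _ H
    obtain ⟨pre, k, h1, -, -, -, -, h6⟩ := hs h m
    simp only [h1, List.append_assoc] at l ⊢
    obtain ⟨t, t1, t2, t3⟩ := Cond.ext_path l y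
    refine ⟨t, t2 ⟨(m.1, k), by simp, x⟩, t1, fun a ha => ?_⟩
    cases pre with
    | nil => exact (h6 _ _ rfl).trans (t3 a ha _ _ rfl)
    | cons a r => exact (h6 _ _ rfl).trans (t3 _ ha _ _ rfl)
  · obtain ⟨pre, k, h1, -, -, h4, h5, -⟩ := hs h m
    exact ⟨pre, (m.1, k), [], h1, le_rfl, h4, h5⟩
  · rw [List.length_eq_zero_iff.1 (Nat.le_zero.1 x), h0]
  · rw [List.length_eq_zero_iff.1 (Nat.le_zero.1 x)]
    exact congrArg p.st h0

/-- `q` is obtained from `p` by keeping only moves with index in `A` -/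
structure Thin (A : List ℕ → Set ℕ) (q p : Cond L) (π : Hist L → Hist L) : Prop where
  len : LEn 0 (fun _ => True) q p π
  st : ∀ h, q.st h = p.st (π h)
  snoc : ∀ h (m : Mv L), ∃ k ∈ A (clk (π h)), π (h ++ [m]) = π h ++ [(m.1, k)] ∧
    q.mark (clk h) m.2 = p.mark (clk (π h)) k ∧ q.kap (clk h) m.2 = p.kap (clk (π h)) k

theorem exists_thin (p : Cond L) {A : List ℕ → Set ℕ} (hA : ∀ ks, (A ks).Infinite) :
    ∃ q π, Thin A q p π := by
  let τ : List ℕ → List ℕ := srec [] fun _ k acc => acc ++ [Nat.nth (· ∈ A acc) k]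
  let π : Hist L → Hist L := srec [] fun _ m acc => acc ++ [(m.1, Nat.nth (· ∈ A (clk acc)) m.2)]
  have e : ∀ h, clk (π h) = τ (clk h) := by
    intro h
    induction h using List.reverseRecOn with
    | nil => simp [π, τ]
    | append_singleton h m ih =>
      simp only [π, τ, srec_snoc, clk_append, clk_cons, clk_nil] at ih ⊢
      rw [ih]
  have e' : ∀ h (m : Mv L), π (h ++ [m]) = π h ++ [(m.1, Nat.nth (· ∈ A (τ (clk h))) m.2)] :=
    fun h m => by rw [← e]; exact srec_snoc ..
  obtain ⟨q, h1, h2, h3, h4⟩ := exists_reparam p (fun _ => True) π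
    (fun ks k => p.mark (τ ks) (Nat.nth (· ∈ A (τ ks)) k))
    (fun ks k => p.kap (τ ks) (Nat.nth (· ∈ A (τ ks)) k)) (srec_nil ..)
    (fun h m => ⟨[], _, by rw [e', List.append_nil], by simp, fun x _ => by simpa using x,
      by simp [e], fun _ => rfl, fun a r x => by
        obtain ⟨rfl, -⟩ := List.cons.inj x
        rw [e]⟩)
    (fun β h h' x => cp_induction (R := fun h h' => cp β (π h) = cp β (π h')) rfl
      (fun h h' m m' e0 e1 e2 ih => by
        rw [e', e', cp_append, cp_append, ih, clk_of_cp e0, e2]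
        simp [e1]) x)
    (fun ks n => (p.e1 (τ ks) n).imp fun N hN k hk =>
      hN _ (hk.trans (Nat.le_nth fun x => absurd x (hA _))))
    (fun ks k j => by
      have : τ (ks ++ [k]) = τ ks ++ [Nat.nth (· ∈ A (τ ks)) k] := srec_snoc ..
      rw [this]
      exact p.e2 _ _ _)
    (fun ks k => p.e3 _ _)
  exact ⟨q, π, h4, h1, fun h m => ⟨_, by rw [e]; exact Nat.nth_mem_of_infinite (hA _) m.2, e' h m,
    by rw [h2, e], by rw [h3, e]⟩⟩

namespace Thin

variable {A : List ℕ → Set ℕ} {q p : Cond L} {π : Hist L → Hist L}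

theorem tame (h : Thin A q p π) : Tame 0 q p π := by
  intro g m G hl
  obtain rfl := List.length_eq_zero_iff.1 hl
  obtain ⟨k, -, h1, h2, -⟩ := h.snoc [] m
  rw [h.len.nil] at h1 h2
  exact ⟨k, [], h1, h2.symm, by simp, fun γ x => ⟨γ, le_rfl, by rwa [h.st, h1] at x⟩⟩

theorem sup (h : Thin A q p π) {β : WithTop L} (s : Sup β p) : Sup β q := fun g G γ x =>
  s _ (h.len.sim.leg g G) γ (h.st g ▸ x)

theorem cuts (h : Thin A q p π) {W : WithTop L → Prop} {g : Hist L} (hg : ∀ m ∈ g, W m.1) :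
    ∀ m ∈ π g, W m.1 := by
  induction g using List.reverseRecOn with
  | nil => simp [h.len.nil]
  | append_singleton g a ih =>
    obtain ⟨k, -, h1, -⟩ := h.snoc g a
    intro m hm
    rw [h1] at hm
    rcases List.mem_append.1 hm with hm | hm
    · exact ih (fun x hx => hg x (by simp [hx])) m hm
    · rw [List.mem_singleton.1 hm]; exact hg a (by simp)

theorem good (h : Thin A q p π) (x : Hist L) {g t : Hist L} {m : Mv L} (e : π x = g ++ m :: t) :
    m.2 ∈ A (clk g) := by
  induction x using List.reverseRecOn generalizing t with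
  | nil => simp [h.len.nil] at e
  | append_singleton x a ih =>
    obtain ⟨k, hk, h1, -⟩ := h.snoc x a
    rw [h1] at e
    rcases List.eq_nil_or_concat t with rfl | ⟨t', b, rfl⟩
    · obtain ⟨e1, e2⟩ := List.append_inj' e rfl
      obtain rfl : (a.1, k) = m := by simpa using e2
      exact e1 ▸ hk
    · have e' : π x ++ [(a.1, k)] = (g ++ m :: t') ++ [b] := by simp [e]
      exact ih (List.append_inj' e' rfl).1

end Thin

theorem exists_thin_kap (p : Cond L) (Θ : List ℕ → ℕ) :
    ∃ q π, Thin (fun ks => {k | Θ ks ≤ p.kap ks k}) q p π :=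
  exists_thin p fun ks => by
    obtain ⟨N, hN⟩ := p.e1 ks (Θ ks)
    exact (Set.Ici_infinite N).mono hN

/-- thinning so that the colour of a move does not depend on its index -/
theorem exists_thin_col (p : Cond L) (R : Hist L → ℕ → Bool → Prop) :
    ∃ (q : Cond L) (π : Hist L → Hist L) (c : Hist L → Bool) (A : List ℕ → Set ℕ), Thin A q p π ∧
      ∀ h, Lg p.st h → (∀ k, ∃ i, R h k i) → ∀ k ∈ A (clk h), R h k (c h) := by
  have : ∀ h, ∃ i, (∀ k, ∃ i, R h k i) → {k | R h k i} ∈ Filter.hyperfilter ℕ := by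
    intro h
    by_cases x : {k | R h k true} ∈ Filter.hyperfilter ℕ
    · exact ⟨true, fun _ => x⟩
    · refine ⟨false, fun y => Filter.mem_of_superset (Ultrafilter.compl_mem_iff_notMem.2 x)
        fun k hk => ?_⟩
      obtain ⟨_ | _, z⟩ := y k
      · exact z
      · exact absurd z hk
  choose c hc using this
  obtain ⟨q, π, h⟩ := exists_thin p (A := fun ks => ⋂ h ∈ {h | (Lg p.st h ∧ clk h = ks) ∧
    ∀ k, ∃ i, R h k i}, {k | R h k (c h)}) fun ks hf =>
      hf.notMem_hyperfilter ((Filter.biInter_mem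
        ((p.fin_clk ks).subset fun _ x => x.1)).2 fun h x => hc h x.2)
  exact ⟨q, π, c, _, h, fun g G x k hk => Set.mem_iInter₂.1 hk g ⟨⟨G, rfl⟩, x⟩⟩

theorem lg_replicate (st : Hist L → St L) (n : ℕ) : Lg st (List.replicate n (⊤, 0)) := by
  rintro g m t e
  obtain rfl : m = (⊤, 0) := List.eq_of_mem_replicate (n := n) (by simp [e])
  exact ok_top _

/-- doubling: a property of all cones above the first move with cut `w` is forced -/
theorem exists_dbl {p : Cond L} {w : WithTop L} (hw : Ok (p.st []) w) {D : Cond L → Prop}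
    (hD : ∀ q r, r ≤ q → D q → D r) (hr : ∀ q, (∀ r ≤ q, ∃ s ≤ r, D s) → D q)
    (h : ∀ g k (G : Lg p.st (g ++ [(w, k)])), (∀ m ∈ g, m.1 < w) → D (p.rr _ G)) :
    ∃ q π, LEn 0 (fun _ => False) q p π ∧ D q := by
  let τ : List ℕ → List ℕ := fun ks => ks.flatMap fun k => [k, 0]
  let π : Hist L → Hist L := fun h => h.flatMap fun m => [(min m.1 w, m.2), (m.1, 0)]
  have e : ∀ h, clk (π h) = τ (clk h) := fun h => by
    simp [π, τ, clk, List.map_flatMap, List.flatMap_map]
  have e' : ∀ h (m : Mv L), π (h ++ [m]) = π h ++ [(min m.1 w, m.2)] ++ [(m.1, 0)] :=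
    fun h m => by simp [π]
  obtain ⟨q, h1, h2, h3, h4⟩ := exists_reparam p (fun _ => False) π
    (fun ks k => p.mark (τ ks ++ [k]) 0) (fun ks k => p.kap (τ ks) k) rfl
    (fun h m => ⟨_, _, e' h m, by simp, fun x y => lg_snoc.2 ⟨x, by
        rcases min_choice m.1 w with z | z <;> rw [z]
        · exact y
        · exact Cond.ok_root x hw⟩,
      by simp [e], fun x => x.elim, fun a r x => by
        obtain ⟨rfl, -⟩ := List.cons.inj x
        rw [e]⟩)
    (fun β h h' x => cp_induction (R := fun h h' => cp β (π h) = cp β (π h')) rfl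
      (fun h h' m m' e0 e1 e2 ih => by
        rw [e', e']
        simp only [cp_append, ih, cp_cons, cp_nil, e1, e2, min_right_comm _ w β]) x)
    (fun ks n => p.e1 _ n)
    (fun ks k j => by simpa [τ] using p.e2 (τ ks ++ [k]) 0 j)
    (fun ks k => (p.kap_le _ _ [] 0).trans (p.e3 _ _))
  refine ⟨q, π, h4, hr q fun r ⟨σ, hσ⟩ => ?_⟩
  have l : Lg r.st ([] ++ [(⊤, 0)]) := lg_single.2 (ok_top _)
  refine ⟨r.rr _ l, r.rr_le l, ?_⟩
  have k : ∀ x, Lg q.st x → (∀ m ∈ π x, m.1 < w) ∨
      ∃ g k, (∀ m ∈ g, m.1 < w) ∧ g ++ [(w, k)] <+: π x := by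
    intro x X
    induction x using List.reverseRecOn with
    | nil => exact Or.inl (by simp [π])
    | append_singleton x a ih =>
      rw [e']
      rcases ih X.left with y | ⟨g, k, y, z⟩
      · rcases lt_or_ge a.1 w with z | z
        · exact Or.inl (by simpa [or_imp, forall_and, z] using y)
        · exact Or.inr ⟨_, a.2, y, by rw [min_eq_right z]; exact List.prefix_append _ _⟩
      · exact Or.inr ⟨g, k, y, z.trans (by rw [List.append_assoc]; exact List.prefix_append _ _)⟩
  rcases k _ (hσ.leg _ l) with y | ⟨g, k, y, z⟩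
  · obtain ⟨pre, m', post, h5, h6, -⟩ := hσ.mrk _ _ l
    refine absurd (y (m'.1, 0) ?_) (not_lt.2 (le_top.trans h6))
    simp only [π, List.mem_flatMap]
    exact ⟨m', by rw [h5]; simp, by simp⟩
  · have G : Lg p.st (g ++ [(w, k)]) := by
      obtain ⟨t, ht⟩ := z
      exact Lg.left (ht ▸ h4.sim.leg _ (hσ.leg _ l))
    exact hD _ _ ((hσ.comp (H := fun _ => False) h4.sim fun _ _ x => x.elim).rr_le l G z) (h g k G y)

/-- diagonal condition of a sequence of extensions with the same root -/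
theorem exists_diag {p : Cond L} (q : ℕ → Cond L) (π : ℕ → Hist L → Hist L)
    (h : ∀ k, LEn 0 (fun _ => False) (q k) p (π k)) :
    ∃ r σ, LEn 0 (fun _ => False) r p σ ∧ (∀ k, r.kap [] k = k) ∧
      ∀ m G, r.rr [m] G ≤ q m.2 := by
  choose j hj using fun k => (q k).e1 [] k
  have l : ∀ {w} (H : Ok (p.st []) w) k, Lg (q k).st [(w, j k)] := fun H k =>
    lg_single.2 ((h k).root ▸ H)
  obtain ⟨r, h1, h2, h3, h4⟩ := exists_glue (p.st []) (p.fin [] (lg_nil _))
    (fun k => (q k).mark [] (j k)) id (fun w H k => (q k).rr _ (l H k))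
    (fun w H w' H' k β x x' => agree_rr _ _ _ (by rw [min_eq_right x, min_eq_right x']))
    (fun w H k γ x => ((q k).wait [] _ (l H k) γ x).trans (congrFun (h k).root γ))
    (fun w H k γ x u y => by
      obtain ⟨t, t1, t2, t3⟩ := (q k).move [] _ (l H k) γ x u ((h k).root ▸ y)
      exact ⟨t, t1, t2, fun a ha => (hj k _ le_rfl).trans (t3 a ha)⟩)
    (fun n => ⟨n, fun _ x => x⟩) (fun w H k i => (q k).e2 [] _ i)
    (fun k => (hj k _ le_rfl).trans ((q k).e3 _ _))
  have k : ∀ {m g}, Lg r.st (m :: g) → Lg (q m.2).st ((m.1, j m.2) :: g) ∧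
      (∀ x, r.st (m :: x) = (q m.2).st ((m.1, j m.2) :: x)) ∧
      (∀ x, r.mark (m.2 :: x) = (q m.2).mark (j m.2 :: x)) ∧
      ∀ x, r.kap (m.2 :: x) = (q m.2).kap (j m.2 :: x) := by
    intro m g G
    have H : Ok (p.st []) m.1 := h1 ▸ (lg_cons.1 G).1
    have e := h4 m.1 H m.2 (Lg.left (h := [m]) G)
    exact ⟨(Cond.lg_rr (l H m.2)).1 (e ▸ (lg_cons.1 G).2), congrFun (congrArg Cond.st e),
      congrFun (congrArg Cond.mark e), congrFun (congrArg Cond.kap e)⟩
  refine ⟨r, fun x => List.casesOn x [] fun m g => π m.2 ((m.1, j m.2) :: g),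
    ⟨⟨?_, ?_, ?_, ?_⟩, fun g _ x => ?_, fun g _ x => ?_, fun _ x => absurd x (Nat.not_lt_zero _)⟩,
    congrFun h3, fun m G => ?_⟩
  · rintro (_ | ⟨m, g⟩) G
    · exact lg_nil _
    · exact (h m.2).sim.leg _ (k G).1
  · rintro (_ | ⟨m, g⟩) G γ s x
    · exact h1 ▸ x
    · exact (k G).2.1 g ▸ (h m.2).sim.sits _ (k G).1 γ s x
  · rintro (_ | ⟨a, g⟩) m G
    · obtain ⟨pre, m', post, g1, g2, g3, g4⟩ := (h m.2).sim.mrk [] _ (k G).1
      rw [(h m.2).nil] at g1 g3
      exact ⟨pre, m', post, g1, g2, by simpa [h2] using g3, g4⟩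
    · obtain ⟨pre, m', post, g1, g2, g3, g4⟩ := (h a.2).sim.mrk (_ :: g) m (k G).1
      exact ⟨pre, m', post, g1, g2, by simpa [(k G).2.2.1] using g3, g4⟩
  · rintro (_ | ⟨a, g⟩) m G
    · obtain ⟨m', s, g1, g2⟩ := (h m.2).sim.kp [] _ (k G).1
      rw [(h m.2).nil] at g1 g2
      exact ⟨m', s, g1, by simpa [h3] using (hj _ _ le_rfl).trans g2⟩
    · obtain ⟨m', s, g1, g2⟩ := (h a.2).sim.kp (_ :: g) m (k G).1
      exact ⟨m', s, g1, by simpa [(k G).2.2.2] using g2⟩
  · rw [List.length_eq_zero_iff.1 (Nat.le_zero.1 x)]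
  · rw [List.length_eq_zero_iff.1 (Nat.le_zero.1 x), h1]
  · rw [h4 m.1 (h1 ▸ lg_single.1 G) m.2 G]
    exact Cond.rr_le _ _

/-- the condition without coordinates and a given clock -/
def Cond.bare (p : Cond L) : Cond L where
  st _ _ := none
  mark := p.mark
  kap := p.kap
  fin _ _ := by simp
  loc _ _ _ _ _ _ _ _ := rfl
  wait _ _ _ _ _ := rfl
  move _ _ _ _ _ _ x := by simp at x
  e1 := p.e1
  e2 := p.e2
  e3 := p.e3

/-- the largest condition -/
def topC : Cond L where
  st _ _ := none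
  mark ks k := (ks.map (· + 1)).sum + k
  kap ks k := (ks.map (· + 1)).sum + k
  fin _ _ := by simp
  loc _ _ _ _ _ _ _ _ := rfl
  wait _ _ _ _ _ := rfl
  move _ _ _ _ _ _ x := by simp at x
  e1 ks n := ⟨n, fun k x => by omega⟩
  e2 ks k j := by simp; omega
  e3 _ _ := le_rfl

omit [LinearOrder L] in
theorem lg_of_top {st : Hist L → St L} {h : Hist L} (H : ∀ m ∈ h, m.1 = ⊤) : Lg st h := by
  rintro g m t rfl
  rw [H m (by simp)]
  exact ok_top _

theorem le_topC (p : Cond L) : p ≤ topC := by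
  let π : Hist L → Hist L := srec [] fun h m acc =>
    acc ++ [(⊤, p.mark (clk h) m.2 - ((clk acc).map (· + 1)).sum)]
  have e : ∀ h (m : Mv L), π (h ++ [m]) =
      π h ++ [(⊤, p.mark (clk h) m.2 - ((clk (π h)).map (· + 1)).sum)] := fun h m => srec_snoc ..
  have k : ∀ h j, ((clk (π h)).map (· + 1)).sum ≤ p.kap (clk h) j := by
    intro h
    induction h using List.reverseRecOn with
    | nil => simp [π]
    | append_singleton h m ih =>
      intro j
      have := p.e2 (clk h) m.2 j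
      have h2 := p.e3 (clk h) m.2
      have h3 := ih m.2
      simp only [e, clk_append, clk_cons, clk_nil, List.map_append, List.sum_append, List.map_cons,
        List.map_nil, List.sum_cons, List.sum_nil]
      omega
  refine ⟨π, fun h _ => lg_of_top ?_, fun _ _ _ _ x => by simp [topC] at x,
    fun h m _ => ⟨[], _, [], by rw [e, List.append_nil], le_top, ?_, fun _ => rfl⟩,
    fun h m _ => ⟨_, [], e h m, ?_⟩⟩
  · induction h using List.reverseRecOn with
    | nil => simp [π]
    | append_singleton h m ih =>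
      rename_i H
      simpa [e, or_imp, forall_and] using ih H.left
  · have := (k h m.2).trans (p.e3 _ _)
    simp only [topC, List.append_nil]
    omega
  · have := p.e3 (clk h) m.2
    simp only [topC]
    omega

instance : OrderTop (Cond L) where
  top := topC
  le_top := le_topC

/-- the condition with the single coordinate `β` and a given clock -/
def Cond.one (p : Cond L) (β : L) : Cond L where
  st h γ := if γ = β then some (srec [] (fun h m acc =>
    if ↑β < m.1 then acc ++ [p.kap (clk h) m.2] else acc) h) else none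
  mark := p.mark
  kap := p.kap
  fin _ _ := (Set.finite_singleton β).subset fun γ x => by
    by_contra hc
    exact x (if_neg hc)
  loc δ h h' _ _ e γ x := by
    split_ifs with h1
    · subst h1
      refine congrArg some (cp_induction (R := fun h h' => srec [] _ h = srec [] _ h') rfl
        (fun h h' m m' e0 e1 e2 ih => ?_) e)
      have : ↑γ < m.1 ↔ ↑γ < m'.1 := by
        have := congrArg (↑γ < ·) e1
        simpa [x] using this
      rw [srec_snoc, srec_snoc, ih, clk_of_cp e0, e2]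
      simp only [this]
    · rfl
  wait h m _ γ x := by
    split_ifs with h1
    · rw [srec_snoc, if_neg (not_lt.2 (h1 ▸ x))]
    · rfl
  move h m _ γ x s y := by
    split_ifs at y ⊢ with h1
    rw [srec_snoc, if_pos (h1 ▸ x), Option.some.inj y]
    exact ⟨_, by simp, rfl, by simp⟩
  e1 := p.e1
  e2 := p.e2
  e3 := p.e3

theorem exists_activate {p : Cond L} {β : L} (h : Sup β p) : ∃ q ≤ p, q.st [] β ≠ none := by
  have s : Sim (fun _ => False) p p.bare (List.map fun m => (⊤, m.2)) :=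
    ⟨fun h _ => lg_of_top (List.forall_mem_map.2 fun _ _ => rfl), fun _ _ _ _ x => by simp [Cond.bare] at x,
      fun h m _ => ⟨[], (⊤, m.2), [], by simp, le_top, by simp [Cond.bare, clk, Function.comp_def], fun _ => rfl⟩,
      fun h m _ => ⟨(⊤, m.2), [], by simp, by simp [Cond.bare, clk, Function.comp_def]⟩⟩
  obtain ⟨D, hD⟩ := s.exists_dec
  have A : AmH _ p p.bare (p.one β) _ D β ⊤ := ⟨hD, ⟨rfl, rfl, fun _ _ _ _ _ γ x => by
    simp [Cond.bare, Cond.one, (WithTop.coe_lt_coe.1 x).ne]⟩, le_top, ok_top _,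
    ok_coe.2 (by simp [Cond.one])⟩
  exact ⟨A.amalg, (A.sim_low h).le, by rw [A.root_up le_rfl]; simp [Cond.one]⟩

theorem Cond.root_ext {q p : Cond L} (h : q ≤ p) {γ : L} {s : List ℕ} (hs : p.st [] γ = some s) :
    ∃ t, q.st [] γ = some (s ++ t) := by
  obtain ⟨π, h⟩ := h
  obtain ⟨t, ht, -⟩ := Cond.ext_path (h := []) (h.leg [] (lg_nil _)) hs
  exact ⟨t, h.sits [] (lg_nil _) γ _ ht⟩

end Pool.Agent.P.MP_56695d_gt
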