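import Pool.Agent.P.MP_56695d_gt.Defs
import Pool.Agent.Lib.PosetForcing.Tools

set_option autoImplicit false

/-! General forcing tools: finite sets, sequences, rationals and old reals. -/

open Pool.Agent.Lib.PosetForcing

namespace Pool.Agent.P.MP_56695d_gt

variable {P : Type} [Preorder P]

section inst

variable (w l a b c : Name P) (Op : ∀ U : Gen P, Mod U → Prop)
  [∀ a : Name P, Clopen fun U => Op U (a.val U)]

instance clopen_isSub : Clopen fun U : Gen P => IsSub Mod.mem (a.val U) (b.val U) := by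
  unfold IsSub; infer_instance

instance clopen_isReal : Clopen fun U : Gen P => IsReal Mod.mem (w.val U) (l.val U) (a.val U) := by
  unfold IsReal; infer_instance

instance clopen_isRealSet :
    Clopen fun U : Gen P => IsRealSet Mod.mem (w.val U) (l.val U) (a.val U) := by
  unfold IsRealSet; infer_instance

instance clopen_inI :
    Clopen fun U : Gen P => InI Mod.mem (l.val U) (a.val U) (b.val U) (c.val U) := by
  unfold InI; infer_instance

instance clopen_openIn : Clopen fun U : Gen P => OpenIn Mod.mem (l.val U) (a.val U) (b.val U) := by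
  unfold OpenIn; infer_instance

instance clopen_isProd : Clopen fun U : Gen P => IsProd Mod.mem (a.val U) (b.val U) (c.val U) := by
  unfold IsProd; infer_instance

instance clopen_openIn2 :
    Clopen fun U : Gen P => OpenIn2 Mod.mem (l.val U) (a.val U) (b.val U) := by
  unfold OpenIn2; infer_instance

instance clopen_isFin : Clopen fun U : Gen P => IsFin Mod.mem (w.val U) (a.val U) := by
  unfold IsFin; infer_instance

instance clopen_isCovers :
    Clopen fun U : Gen P => IsCovers Mod.mem (w.val U) (a.val U) (Op U) (b.val U) := by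
  unfold IsCovers; infer_instance

instance clopen_isChoice :
    Clopen fun U : Gen P => IsChoice Mod.mem (w.val U) (a.val U) (b.val U) := by
  unfold IsChoice; infer_instance

instance clopen_inStep : Clopen fun U : Gen P => InStep Mod.mem (a.val U) (b.val U) (c.val U) := by
  unfold InStep; infer_instance

instance clopen_scheepers :
    Clopen fun U : Gen P => Scheepers Mod.mem (w.val U) (a.val U) (Op U) := by
  unfold Scheepers; infer_instance

instance clopen_uMenger :
    Clopen fun U : Gen P => UMenger Mod.mem (w.val U) (b.val U) (a.val U) (Op U) := by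
  unfold UMenger; infer_instance

end inst

theorem dense_fin {D : ℕ → P → Prop} (hD : ∀ i q r, r ≤ q → D i q → D i r) {p : P} (N : ℕ)
    (h : ∀ i < N, ∀ q ≤ p, ∃ r ≤ q, D i r) : ∃ q ≤ p, ∀ i < N, D i q := by
  induction N with
  | zero => exact ⟨p, le_rfl, by simp⟩
  | succ N ih =>
    obtain ⟨q, h1, h2⟩ := ih fun i hi => h i (by omega)
    obtain ⟨r, h3, h4⟩ := h N (by omega) q h1
    exact ⟨r, h3.trans h1, Nat.forall_lt_succ_right.2 ⟨fun i hi => hD _ _ _ h3 (h2 i hi), h4⟩⟩

theorem dense_imp {H : Gen P → Prop} [Clopen H] {ι : Type} [Inhabited ι] {Ψ : ι → Gen P → Prop}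
    {p : P} (h : Forces p H → ∃ r ≤ p, ∃ m, Forces r (Ψ m)) :
    ∃ r ≤ p, ∃ m, Forces r fun U => H U → Ψ m U := by
  by_cases x : Forces p H
  · obtain ⟨r, h1, m, h2⟩ := h x
    exact ⟨r, h1, m, h2.imp fun _ y _ => y⟩
  · obtain ⟨r, h1, h2⟩ := exists_forces_not x
    exact ⟨r, h1, default, h2.imp fun _ y z => absurd z y⟩

theorem dense_dec (H : Gen P → Prop) [Clopen H] (p : P) :
    ∃ r ≤ p, ∃ i : Bool, Forces r fun U => H U ↔ i = true := by
  by_cases x : Forces p H
  · exact ⟨p, le_rfl, true, x.imp fun _ y => by simpa using y⟩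
  · obtain ⟨r, h1, h2⟩ := exists_forces_not x
    exact ⟨r, h1, false, h2.imp fun _ y => by simpa using y⟩

theorem of_dense {H Φ : Gen P → Prop} [Clopen H] [Clopen Φ]
    (h : ∀ q, Forces q H → ∃ r ≤ q, Forces r Φ) (U : Gen P) : H U → Φ U :=
  of_forces_all (Φ := fun U => H U → Φ U) (fun p => ⟨p, le_rfl, forces_imp fun q _ => h q⟩) U

/-- a subfamily of `O` chosen by the generic filter -/
def subN {ι : Type} (O : ι → Name P) (R : ι → P → Prop) : Name P :=
  .mk {x : ι × P // R x.1 x.2} (fun x => O x.1.1) fun x => x.1.2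

theorem forces_mem_subN {ι : Type} {O : ι → Name P} {R : ι → P → Prop} {a : ι} {q r : P}
    (h : R a q) (e : r ≤ q) : Forces r fun U => Mod.mem ((O a).val U) ((subN O R).val U) :=
  forces_el_mem (b := subN O R) ⟨(a, q), h⟩ e

theorem forces_forall_subN {ι : Type} {O : ι → Name P} {R : ι → P → Prop}
    {Φ : ∀ U : Gen P, Mod U → Prop} [∀ a : Name P, Clopen fun U => Φ U (a.val U)] {p : P}
    (h : ∀ a q', R a q' → ∀ q ≤ p, q ≤ q' → ∃ r ≤ q, Forces r fun U => Φ U ((O a).val U)) :
    Forces p fun U => ∀ x, Mod.mem x ((subN O R).val U) → Φ U x :=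
  forces_forall_mem (b := subN O R) fun i q hq hi => h i.1.1 i.1.2 i.2 q hq hi

variable [OrderTop P]

theorem decide_nat {p : P} {a : Name P}
    (h : Forces p fun U => Mod.mem (a.val U) (omegaName.val U)) :
    ∃ q ≤ p, ∃ n, Forces q fun U => a.val U = (natName n).val U := by
  obtain ⟨q, h1, n, h2⟩ := Forces.exists_fam h
  exact ⟨q, h1, n.down, h2⟩

theorem exists_nat {p : P} {Φ : ∀ U : Gen P, Mod U → Prop}
    [∀ a : Name P, Clopen fun U => Φ U (a.val U)]
    (h : Forces p fun U => ∃ x, Mod.mem x (omegaName.val U) ∧ Φ U x) :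
    ∃ q ≤ p, ∃ n, Forces q fun U => Φ U ((natName n).val U) := by
  obtain ⟨a, ha⟩ := Forces.exists_name h
  obtain ⟨q, h1, n, h2⟩ := decide_nat (ha.imp fun _ x => x.1)
  exact ⟨q, h1, n, ((ha.mono h1).and h2).imp fun _ x => x.2 ▸ x.1.2⟩

theorem forall_app_fun {ι : Type} {X Y : ι → Name P} {Φ : ∀ U : Gen P, Mod U → Mod U → Prop}
    [∀ a b : Name P, Clopen fun U => Φ U (a.val U) (b.val U)]
    (h : ∀ i U, Φ U ((X i).val U) ((Y i).val U)) (U : Gen P) :
    ∀ x y, App Mod.mem ((funName X Y).val U) x y → Φ U x y :=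
  of_forces_all (Φ := fun U => ∀ x y, App Mod.mem ((funName X Y).val U) x y → Φ U x y)
    (fun p => ⟨p, le_rfl, forces_forall_app_graph fun i q _ _ =>
      ⟨q, le_rfl, Forces.of_forall (h i) q⟩⟩) U

/-- a sequence of names -/
def seqN (Y : ℕ → Name P) : Name P := funName natName Y

theorem app_seqN_iff {Y : ℕ → Name P} {n : ℕ} {U : Gen P} {y : Mod U} :
    App Mod.mem ((seqN Y).val U) ((natName n).val U) y ↔ y = (Y n).val U :=
  ⟨fun h => forall_app_fun (Φ := fun U x y => x = (natName n).val U → y = (Y n).val U)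
    (fun _ _ e => natName_inj e ▸ rfl) U _ _ h rfl, fun e => e ▸ app_funName _ _ n U⟩

theorem forces_isFunOn_seqN {Y : ℕ → Name P} {V : ∀ U : Gen P, Mod U → Prop}
    [∀ a : Name P, Clopen fun U => V U (a.val U)] {p : P}
    (h : ∀ n, ∀ q ≤ p, ∃ r ≤ q, Forces r fun U => V U ((Y n).val U)) :
    Forces p fun U => IsFunOn Mod.mem ((seqN Y).val U) (omegaName.val U) (V U) :=
  forces_isFunOn_graph (fun n q hq _ => (h n q hq).imp fun _ x =>
      ⟨x.1, x.2.imp fun U y => ⟨natName_mem_omega n U, y⟩⟩)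
    (fun j q _ _ => ⟨q, le_rfl, j.down, le_top, Forces.of_forall (fun _ => rfl) q⟩)
    fun _ _ q _ _ _ e => ⟨q, le_rfl, e.natName_inj ▸ Forces.of_forall (fun _ => rfl) q⟩

theorem isFin_of (a : ℕ → Name P) (N : ℕ) {U : Gen P} {F : Mod U}
    (h : ∀ z, Mod.mem z F → ∃ i < N, z = (a i).val U) : IsFin Mod.mem (omegaName.val U) F :=
  ⟨_, (seqN a).val U, natName_mem_omega N U,
    (of_forces_all (Φ := fun U => IsFunOn Mod.mem ((seqN a).val U) (omegaName.val U) fun _ => True)
      (fun p => ⟨p, le_rfl, forces_isFunOn_seqN fun _ q _ =>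
        ⟨q, le_rfl, Forces.of_forall (fun _ => trivial) q⟩⟩) U).2.2,
    fun z hz => (h z hz).elim fun _ x => ⟨_, natName_mem x.1 U, app_seqN_iff.2 x.2⟩⟩

theorem fin_enum {p : P} {F : Name P}
    (h : Forces p fun U => IsFin Mod.mem (omegaName.val U) (F.val U)) :
    ∃ q ≤ p, ∃ (N : ℕ) (a : ℕ → Name P),
      Forces q fun U => ∀ z, Mod.mem z (F.val U) → ∃ i < N, z = (a i).val U := by
  obtain ⟨q, h1, N, h2⟩ := exists_nat (Φ := fun U n => ∃ h,
    (∀ i y y', App Mod.mem h i y → App Mod.mem h i y' → y = y') ∧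
    ∀ x, Mod.mem x (F.val U) → ∃ i, Mod.mem i n ∧ App Mod.mem h i x)
    (h.imp fun U ⟨n, h, x, y⟩ => ⟨n, x, h, y⟩)
  obtain ⟨f, hf⟩ := Forces.exists_name h2
  choose a ha using fun i : ℕ => max_principle fun (U : Gen P) z =>
    App Mod.mem (f.val U) ((natName (P := P) i).val U) z
  refine ⟨q, h1, N, a, hf.imp fun U x z hz => ?_⟩
  obtain ⟨i, i1, i2⟩ := x.2 z hz
  obtain ⟨m, hm, rfl⟩ := (mem_natName U i).1 i1
  exact ⟨m, hm, x.1 _ _ _ i2 (ha m U ⟨z, i2⟩)⟩

theorem not_isFin {X : Name P} (a : ℕ → Name P)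
    (h1 : ∀ i j U, (a i).val U = (a j).val U → i = j)
    (h2 : ∀ i U, Mod.mem ((a i).val U) (X.val U)) (U : Gen P) :
    ¬ IsFin Mod.mem (omegaName.val U) (X.val U) := fun h => by
  refine of_dense (H := fun U => IsFin Mod.mem (omegaName.val U) (X.val U)) (Φ := fun _ => False)
    (fun q hq => ?_) U h
  obtain ⟨r, -, N, b, hb⟩ := fin_enum hq
  obtain ⟨V, hV⟩ := hb.exists
  choose f f1 f2 using fun j => hV _ (h2 j V)
  obtain ⟨i, j, x, y⟩ := Finite.exists_ne_map_eq_of_infinite fun j => (⟨f j, f1 j⟩ : Fin N)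
  exact absurd (h1 i j V (by rw [f2 i, f2 j, Fin.mk.inj y])) x

/-- a finite choice from an increasing family is bounded -/
theorem choice_bound {V : ℕ → ℕ → Name P} {g : Name P}
    (hV : ∀ n m m' U, m ≤ m' → IsSub Mod.mem ((V n m).val U) ((V n m').val U)) (n : ℕ) {p : P}
    (h : Forces p fun U => IsChoice Mod.mem (omegaName.val U)
      ((seqN fun n => fam (V n)).val U) (g.val U)) :
    ∃ r ≤ p, ∃ m, Forces r fun U =>
      ∀ x, InStep Mod.mem (g.val U) ((natName n).val U) x → Mod.mem x ((V n m).val U) := by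
  obtain ⟨G, hG⟩ := Forces.exists_name (h.imp fun U x => x.1.2.1 _ (natName_mem_omega n U))
  obtain ⟨q, h1, N, a, h2⟩ := fin_enum (F := G)
    ((h.and hG).imp fun U x => ((isZFC U).app_val x.1.1 x.2).2)
  obtain ⟨r, h3, h4⟩ := dense_fin (D := fun i r => ∃ m, Forces r fun U =>
      Mod.mem ((a i).val U) (G.val U) → (a i).val U = (V n m).val U)
    (fun i q r x => Exists.imp fun m y => y.mono x) N (p := q) fun i _ r hr => dense_imp fun x =>
      Forces.exists_fam ((((h.and hG).mono (hr.trans h1)).and x).imp fun U y =>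
        y.1.1.2 _ _ _ (app_seqN_iff.2 rfl) y.1.2 _ y.2)
  choose! m hm using h4
  refine ⟨r, h3.trans h1, (Finset.range N).sup m, fun U hU x ⟨G', W, x1, x2, x3⟩ => ?_⟩
  obtain rfl := (h.mono (h3.trans h1) U hU).1.2.2 _ _ _ x1 (hG.mono (h3.trans h1) U hU)
  obtain ⟨i, hi, rfl⟩ := h2.mono h3 U hU W x2
  exact hV n _ _ U (Finset.le_sup (Finset.mem_range.2 hi)) _ (hm i hi U hU x2 ▸ x3)

/-- enumeration of the rationals -/
noncomputable def rat (n : ℕ) : ℝ := ((Denumerable.eqv ℚ).symm n : ℚ)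

theorem rat_inj {i j : ℕ} (h : rat i = rat j) : i = j :=
  (Denumerable.eqv ℚ).symm.injective (Rat.cast_injective h)

theorem exists_rat {r s : ℝ} (h : r < s) : ∃ n, r < rat n ∧ rat n < s := by
  obtain ⟨q, hq⟩ := exists_rat_btwn h
  exact ⟨Denumerable.eqv ℚ q, by simpa [rat] using hq⟩

/-- the order of the rationals -/
def ltN : Name P :=
  funName (fun x : {x : ℕ × ℕ // rat x.1 < rat x.2} => natName x.1.1) fun x => natName x.1.2

theorem forall_lt {Φ : ∀ U : Gen P, Mod U → Mod U → Prop}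
    [∀ a b : Name P, Clopen fun U => Φ U (a.val U) (b.val U)]
    (h : ∀ i j U, rat i < rat j → Φ U ((natName i).val U) ((natName j).val U)) (U : Gen P) :
    ∀ x y, App Mod.mem (ltN.val U) x y → Φ U x y := forall_app_fun (fun i U => h _ _ U i.2) U

theorem app_lt {i j : ℕ} {U : Gen P} :
    App Mod.mem (ltN.val U) ((natName i).val U) ((natName j).val U) ↔ rat i < rat j :=
  ⟨fun h => forall_lt (Φ := fun U x y => x = (natName i).val U → y = (natName j).val U →
    rat i < rat j) (fun _ _ _ x e e' => by rwa [← natName_inj e, ← natName_inj e']) U _ _ h rfl rfl,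
    fun h => app_funName (fun x : {x : ℕ × ℕ // rat x.1 < rat x.2} => natName x.1.1)
      (fun x => natName x.1.2) ⟨(i, j), h⟩ U⟩

theorem isDLO (U : Gen P) : IsDLO Mod.mem (omegaName.val U) (ltN.val U) where
  sub := forall_mem_fam (Φ := fun U p => ∃ a b, IsPair Mod.mem p a b ∧
      Mod.mem a (omegaName.val U) ∧ Mod.mem b (omegaName.val U))
    (fun _ U => ⟨_, _, isPair_pairName _ _ U, natName_mem_omega _ U, natName_mem_omega _ U⟩) U
  irrefl a h := forall_lt (Φ := fun _ x y => x ≠ y)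
    (fun _ _ _ x e => absurd (natName_inj e ▸ x) (lt_irrefl _)) U a a h rfl
  trans a b c h h' := forall_lt (Φ := fun U a b => ∀ b' c, App Mod.mem (ltN.val U) b' c → b = b' →
      App Mod.mem (ltN.val U) a c)
    (fun i j U x => forall_lt (Φ := fun U b' c => (natName j).val U = b' →
      App Mod.mem (ltN.val U) ((natName i).val U) c)
      (fun _ _ _ y e => app_lt.2 (x.trans (by rwa [natName_inj e]))) U) U a b h b c h' rfl
  total := forall_mem_omega (Φ := fun U a => ∀ b, Mod.mem b (omegaName.val U) →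
      App Mod.mem (ltN.val U) a b ∨ a = b ∨ App Mod.mem (ltN.val U) b a)
    (fun i => forall_mem_omega (Φ := fun U b => App Mod.mem (ltN.val U) ((natName i).val U) b ∨
      (natName i).val U = b ∨ App Mod.mem (ltN.val U) b ((natName i).val U))
      fun j _ => (lt_trichotomy (rat i) (rat j)).imp app_lt.2
        (Or.imp (fun e => rat_inj e ▸ rfl) app_lt.2)) U
  dense := forall_lt (Φ := fun U a b => ∃ c, App Mod.mem (ltN.val U) a c ∧
      App Mod.mem (ltN.val U) c b)
    (fun _ _ _ x => (exists_rat x).elim fun _ y => ⟨_, app_lt.2 y.1, app_lt.2 y.2⟩) U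
  no_min := forall_mem_omega (Φ := fun U a => ∃ b, App Mod.mem (ltN.val U) b a)
    (fun i _ => (exists_rat (sub_one_lt (rat i))).elim fun _ y => ⟨_, app_lt.2 y.2⟩) U
  no_max := forall_mem_omega (Φ := fun U a => ∃ b, App Mod.mem (ltN.val U) a b)
    (fun i _ => (exists_rat (lt_add_one (rat i))).elim fun _ y => ⟨_, app_lt.2 y.1⟩) U

/-- an old real -/
def cutN (r : ℝ) : Name P := fam fun n : {n // rat n < r} => natName n.1

theorem mem_cutN {r : ℝ} {n : ℕ} {U : Gen P} :
    Mod.mem ((natName n).val U) ((cutN r).val U) ↔ rat n < r :=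
  ⟨fun h => forall_mem_fam (Φ := fun U x => x = (natName n).val U → rat n < r)
    (fun i _ e => by rw [← natName_inj e]; exact i.2) U _ h rfl,
    fun h => mem_fam (fun n : {n // rat n < r} => natName n.1) ⟨n, h⟩ U⟩

theorem cutN_inj {r s : ℝ} {U : Gen P} (h : (cutN r).val U = (cutN s).val U) : r = s := by
  refine le_antisymm (not_lt.1 fun x => ?_) (not_lt.1 fun x => ?_)
  · obtain ⟨n, y, z⟩ := exists_rat x
    exact absurd (mem_cutN.1 (h ▸ mem_cutN.2 z)) (not_lt.2 y.le)
  · obtain ⟨n, y, z⟩ := exists_rat x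
    exact absurd (mem_cutN.1 (h.symm ▸ mem_cutN.2 z)) (not_lt.2 y.le)

theorem isReal_cutN (r : ℝ) (U : Gen P) :
    IsReal Mod.mem (omegaName.val U) (ltN.val U) ((cutN r).val U) :=
  ⟨forall_mem_fam (Φ := fun U x => Mod.mem x (omegaName.val U))
      (fun _ U => natName_mem_omega _ U) U,
    (exists_rat (sub_one_lt r)).elim fun _ x => ⟨_, mem_cutN.2 x.2⟩,
    (exists_rat (lt_add_one r)).elim fun n x =>
      ⟨_, natName_mem_omega n U, fun y => absurd (mem_cutN.1 y) (not_lt.2 x.1.le)⟩,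
    forall_lt (Φ := fun U a b => Mod.mem b ((cutN r).val U) → Mod.mem a ((cutN r).val U))
      (fun _ _ _ x y => mem_cutN.2 (x.trans (mem_cutN.1 y))) U,
    forall_mem_fam (Φ := fun U a => ∃ b, Mod.mem b ((cutN r).val U) ∧ App Mod.mem (ltN.val U) a b)
      (fun i _ => (exists_rat i.2).elim fun _ x => ⟨_, mem_cutN.2 x.2, app_lt.2 x.1⟩) U⟩

theorem inI_cutN {r : ℝ} {a b : ℕ} {U : Gen P} :
    InI Mod.mem (ltN.val U) ((cutN r).val U) ((natName a).val U) ((natName b).val U) ↔
      rat a < r ∧ r < rat b := by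
  refine and_congr mem_cutN ⟨fun ⟨c, x, y⟩ => ?_, fun x => ?_⟩
  · exact forall_lt (Φ := fun U c b' => b' = (natName b).val U →
      ¬ Mod.mem c ((cutN r).val U) → r < rat b)
      (fun _ _ _ x e y => (not_lt.1 fun z => y (mem_cutN.2 z)).trans_lt (by rwa [← natName_inj e]))
      U c _ x rfl y
  · obtain ⟨n, y, z⟩ := exists_rat x
    exact ⟨_, app_lt.2 z, fun c => absurd (mem_cutN.1 c) (not_lt.2 y.le)⟩

theorem isRealSet_fam {ι : Type} (r : ι → ℝ) (U : Gen P) :
    IsRealSet Mod.mem (omegaName.val U) (ltN.val U) ((fam fun i => cutN (r i)).val U) :=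
  forall_mem_fam (Φ := fun U x => IsReal Mod.mem (omegaName.val U) (ltN.val U) x)
    (fun _ U => isReal_cutN _ U) U

theorem exists_emb : ∃ e : (ℕ → ℕ) → ℝ, ∀ x n, ∃ a b, rat a < e x ∧ e x < rat b ∧
    ∀ x', rat a < e x' → e x' < rat b → x' n = x n := by
  obtain ⟨f, -, h1, h2⟩ := isClosed_univ.exists_nat_bool_injection_of_not_countable (α := ℝ)
    Cardinal.not_countable_real
  refine ⟨fun x => f fun k => decide (x k.unpair.1 = k.unpair.2), fun x n => ?_⟩
  obtain ⟨O, o1, o2⟩ := (h1.isClosedEmbedding h2).isInducing.isOpen_iff.1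
    ((isOpen_discrete {true}).preimage (continuous_apply (Nat.pair n (x n))))
  have : f (fun k => decide (x k.unpair.1 = k.unpair.2)) ∈ O := by
    rw [← Set.mem_preimage, o2]; simp
  obtain ⟨u, v, ⟨a1, a2⟩, a3⟩ := mem_nhds_iff_exists_Ioo_subset.1 (o1.mem_nhds this)
  obtain ⟨a, a4, a5⟩ := exists_rat a1
  obtain ⟨b, b4, b5⟩ := exists_rat a2
  refine ⟨a, b, a5, b4, fun x' y z => ?_⟩
  have := a3 ⟨a4.trans y, z.trans b5⟩
  rw [← Set.mem_preimage, o2] at this
  simpa using this

end Pool.Agent.P.MP_56695d_gt
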