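import Pool.Agent.P.MP_56695d_gt.Sem
import Pool.Agent.P.MP_56695d_gt.Core

set_option autoImplicit false

/-! The generic ultrafilter; the old Baire space is not Menger with respect to it. -/

open Pool.Agent.Lib.PosetForcing

namespace Pool.Agent.P.MP_56695d_gt

variable {L : Type} [LinearOrder L]

/-- marks of the total moves of `p` along the generic path -/
def EN (p : Cond L) : Name (Cond L) :=
  subN natName fun n q => ∃ h k G, q ≤ p.rr (h ++ [(⊤, k)]) G ∧ p.mark (clk h) k = n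

/-- the generic ultrafilter -/
def WN : Name (Cond L) := sepName (powName omegaName) fun U A =>
  ∃ E, Mod.mem E ((subN EN fun p q => q = p).val U) ∧ IsSub Mod.mem E A

theorem mem_WN (U : Gen (Cond L)) (A : Mod U) : Mod.mem A (WN.val U) ↔
    IsSub Mod.mem A (omegaName.val U) ∧
      ∃ E, Mod.mem E ((subN EN fun p q => q = p).val U) ∧ IsSub Mod.mem E A := by
  rw [WN, mem_sepName, mem_powName]; rfl

theorem total_le {q p : Cond L} (e : q ≤ p) {h : Hist L} {k : ℕ} (G : Lg q.st (h ++ [(⊤, k)])) :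
    ∃ h' k' G', q.rr _ G ≤ p.rr (h' ++ [(⊤, k')]) G' ∧ p.mark (clk h') k' = q.mark (clk h) k := by
  obtain ⟨π, S⟩ := e
  obtain ⟨pre, ⟨w, k'⟩, post, g1, g2, g3, -⟩ := S.mrk _ _ G
  obtain rfl : w = ⊤ := top_le_iff.1 g2
  obtain ⟨X, y⟩ := S.prefix_rr (x := π h ++ pre ++ [(⊤, k')]) G ⟨post, by simp [g1]⟩
  exact ⟨_, k', X, y, g3⟩

theorem forces_mem_WN {q : Cond L} {A : Name (Cond L)}
    (h1 : Forces q fun U => IsSub Mod.mem (A.val U) (omegaName.val U))
    (h2 : ∀ h k G, Forces (q.rr (h ++ [(⊤, k)]) G) fun U =>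
      Mod.mem ((natName (q.mark (clk h) k)).val U) (A.val U)) :
    Forces q fun U => Mod.mem (A.val U) (WN.val U) := by
  have a : Forces q fun U => IsSub Mod.mem ((EN q).val U) (A.val U) :=
    forces_forall_subN (Φ := fun U x => Mod.mem x (A.val U))
      fun n q' ⟨h, k, G, x, y⟩ r _ z => ⟨r, le_rfl, y ▸ (h2 h k G).mono (z.trans x)⟩
  exact (h1.and ((forces_mem_subN (O := EN) (R := fun p q => q = p) rfl le_rfl).and a)).imp
    fun U x => (mem_WN U _).2 ⟨x.1, _, x.2⟩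

theorem exists_of_mem_WN {q : Cond L} {A : Name (Cond L)}
    (h : Forces q fun U => Mod.mem (A.val U) (WN.val U)) :
    ∃ r ≤ q, ∀ s ≤ r, ∀ h k G, Forces (s.rr (h ++ [(⊤, k)]) G) fun U =>
      Mod.mem ((natName (s.mark (clk h) k)).val U) (A.val U) := by
  obtain ⟨E, hE⟩ := Forces.exists_name (h.imp fun U x => ((mem_WN U _).1 x).2)
  obtain ⟨r, h1, ⟨⟨p, p'⟩, e⟩, h2, h3⟩ := (hE.imp fun _ x => x.1).exists_el
  obtain rfl : p' = p := e
  refine ⟨r, h1, fun s hs h k G => ?_⟩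
  obtain ⟨h', k', G', x, y⟩ := total_le (hs.trans h2) G
  have z := (s.rr_le G).trans hs
  have a : Forces (s.rr _ G) fun U => Mod.mem ((natName (s.mark (clk h) k)).val U) ((EN p').val U) :=
    forces_mem_subN (q := s.rr _ G) ⟨h', k', G', x, y⟩ le_rfl
  exact (a.and ((h3.mono z).and (hE.mono (z.trans h1)))).imp fun U a => a.2.2.2 _ (a.2.1 ▸ a.1)

theorem exists_late (p : Cond L) (n : ℕ) : ∃ q ≤ p, ∀ ks k, n ≤ q.mark ks k :=
  ⟨_, p.rr_le (lg_replicate p.st n), fun ks k => le_trans (by simp)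
    ((p.length_le_kap _ k).trans (p.e3 _ k))⟩

theorem cofinite_mem_WN {H : Gen (Cond L) → Prop} [Clopen H] {A : Name (Cond L)} (n : ℕ)
    (h1 : ∀ U, IsSub Mod.mem (A.val U) (omegaName.val U))
    (h2 : ∀ m U, n ≤ m → H U → Mod.mem ((natName m).val U) (A.val U)) (U : Gen (Cond L)) :
    H U → Mod.mem (A.val U) (WN.val U) :=
  of_dense (Φ := fun U => Mod.mem (A.val U) (WN.val U)) (fun q hq => by
    obtain ⟨r, x, y⟩ := exists_late q n
    exact ⟨r, x, forces_mem_WN (Forces.of_forall h1 r) fun h k G =>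
      (hq.mono ((r.rr_le G).trans x)).imp fun U => h2 _ U (y _ _)⟩) U

theorem isFreeUltra [WellFoundedLT L] (U : Gen (Cond L)) :
    IsFreeUltra Mod.mem (omegaName.val U) (WN.val U) := by
  refine ⟨fun A hA => ⟨((mem_WN U A).1 hA).1, ?_⟩, fun A B hA h1 h2 => ?_, fun A B X => ?_,
    fun A B => ?_, ?_⟩
  · obtain ⟨A, rfl⟩ := A.exists_name
    refine of_dense (H := fun U => Mod.mem (A.val U) (WN.val U))
      (Φ := fun U => ∃ n, Mod.mem n (A.val U)) (fun q hq => ?_) U hA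
    obtain ⟨r, x, y⟩ := exists_of_mem_WN hq
    have G : Lg r.st ([] ++ [(⊤, 0)]) := lg_single.2 (ok_top _)
    exact ⟨_, (r.rr_le G).trans x, (y r le_rfl _ _ G).imp fun _ z => ⟨_, z⟩⟩
  · obtain ⟨-, E, x, y⟩ := (mem_WN U A).1 hA
    exact (mem_WN U B).2 ⟨h2, E, x, fun z hz => h1 z (y z hz)⟩
  · obtain ⟨A, rfl⟩ := A.exists_name
    obtain ⟨B, rfl⟩ := B.exists_name
    obtain ⟨X, rfl⟩ := X.exists_name
    intro h1 h2 h3
    refine of_dense (H := fun U => Mod.mem (A.val U) (WN.val U) ∧ Mod.mem (B.val U) (WN.val U) ∧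
      ∀ x, Mod.mem x (X.val U) ↔ Mod.mem x (A.val U) ∧ Mod.mem x (B.val U))
      (Φ := fun U => Mod.mem (X.val U) (WN.val U)) (fun q hq => ?_) U ⟨h1, h2, h3⟩
    obtain ⟨r, x, y⟩ := exists_of_mem_WN (hq.imp fun _ x => x.1)
    obtain ⟨s, x', y'⟩ := exists_of_mem_WN ((hq.mono x).imp fun _ x => x.2.1)
    refine ⟨s, x'.trans x, forces_mem_WN ((hq.mono (x'.trans x)).imp fun U a z hz =>
      ((mem_WN U _).1 a.1).1 z ((a.2.2 z).1 hz).1) fun h k G => ?_⟩
    exact ((hq.mono ((s.rr_le G).trans (x'.trans x))).and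
      ((y s x' h k G).and (y' s le_rfl h k G))).imp fun U a => (a.1.2.2 _).2 a.2
  · obtain ⟨A, rfl⟩ := A.exists_name
    obtain ⟨B, rfl⟩ := B.exists_name
    intro h1 h2
    refine of_dense (H := fun U => IsSub Mod.mem (A.val U) (omegaName.val U) ∧
      ∀ x, Mod.mem x (B.val U) ↔ Mod.mem x (omegaName.val U) ∧ ¬ Mod.mem x (A.val U))
      (Φ := fun U => Mod.mem (A.val U) (WN.val U) ∨ Mod.mem (B.val U) (WN.val U))
      (fun q hq => ?_) U ⟨h1, h2⟩
    obtain ⟨r, x, i, y⟩ := exists_ultra (D := fun n i q => Forces q fun U =>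
      Mod.mem ((natName n).val U) (A.val U) ↔ i = true) (fun _ _ _ _ a b => b.mono a)
      (fun n p => dense_dec _ p) q
    refine ⟨r, x, ?_⟩
    cases i
    · exact (forces_mem_WN ((hq.mono x).imp fun U a z hz => ((a.2 z).1 hz).1) fun h k G =>
        ((hq.mono ((r.rr_le G).trans x)).and (y h k G)).imp fun U a =>
          (a.1.2 _).2 ⟨natName_mem_omega _ U, by simpa using a.2⟩).imp fun _ => Or.inr
    · exact (forces_mem_WN ((hq.mono x).imp fun U a => a.1) fun h k G =>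
        (y h k G).imp fun U a => a.2 rfl).imp fun _ => Or.inl
  · refine forall_mem_omega (Φ := fun U n => ∃ A, Mod.mem A (WN.val U) ∧ ¬ Mod.mem n A)
      (fun n U => ⟨(sepName omegaName fun U x => x ≠ (natName n).val U).val U,
        cofinite_mem_WN (H := fun _ => True) (n + 1) (fun U z hz => ((mem_sepName _ _ U z).1 hz).1)
        (fun m U x _ => (mem_sepName _ _ U _).2 ⟨natName_mem_omega m U, fun e => ?_⟩) U trivial,
        fun x => ((mem_sepName _ _ U _).1 x).2 rfl⟩) U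
    have := natName_inj e
    omega

/-- a countable set is Menger with respect to the generic ultrafilter -/
theorem uMenger_fam (y : ℕ → Name (Cond L)) (Op : ∀ U : Gen (Cond L), Mod U → Prop)
    [∀ a : Name (Cond L), Clopen fun U => Op U (a.val U)] (U : Gen (Cond L)) :
    UMenger Mod.mem (omegaName.val U) (WN.val U) ((fam y).val U) (Op U) := by
  intro f
  obtain ⟨f, rfl⟩ := f.exists_name
  choose O hO using fun n i : ℕ => max_principle fun (U : Gen (Cond L)) V =>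
    InStep Mod.mem (f.val U) ((natName (P := Cond L) n).val U) ((y i).val U) →
    (∃ F, App Mod.mem (f.val U) ((natName (P := Cond L) n).val U) F ∧ Mod.mem V F) ∧
      Mod.mem ((y i).val U) V
  have k : ∀ n i U, IsCovers Mod.mem (omegaName.val U) ((fam y).val U) (Op U) (f.val U) →
      (∃ F, App Mod.mem (f.val U) ((natName n).val U) F ∧ Mod.mem ((O n i).val U) F) ∧
      Mod.mem ((y i).val U) ((O n i).val U) := by
    intro n i U h
    obtain ⟨F, hF⟩ := h.2.1 _ (natName_mem_omega n U)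
    obtain ⟨V, v1, v2⟩ := ((isZFC U).app_val h hF).2.2 _ (mem_fam y i U)
    exact hO n i U ⟨V, fun _ => ⟨⟨F, hF, v1⟩, v2⟩⟩ ⟨F, V, hF, v1, v2⟩
  let g : Name (Cond L) := seqN fun n => fam fun i : Fin (n + 1) => O n i
  intro hf
  refine ⟨g.val U, ⟨?_, fun n F G x y' => ?_⟩, fun x hx => ?_⟩
  · exact of_forces_all (Φ := fun U => IsFunOn Mod.mem (g.val U) (omegaName.val U)
      (IsFin Mod.mem (omegaName.val U))) (fun p => ⟨p, le_rfl, forces_isFunOn_seqN fun n q _ =>
        ⟨q, le_rfl, Forces.of_forall (fun U => isFin_of (O n) (n + 1) (forall_mem_fam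
          (A := fun i : Fin (n + 1) => O n i) (Φ := fun U z => ∃ i < n + 1, z = (O n i).val U) (fun i _ => ⟨i, i.2, rfl⟩) U)) q⟩⟩) U
  · refine forall_app_fun (Φ := fun U n G =>
      IsCovers Mod.mem (omegaName.val U) ((fam y).val U) (Op U) (f.val U) →
      ∀ F, App Mod.mem (f.val U) n F → IsSub Mod.mem G F) (fun n U h F a z hz => ?_) U n G y' hf F x
    refine forall_mem_fam (Φ := fun U z =>
      IsCovers Mod.mem (omegaName.val U) ((fam y).val U) (Op U) (f.val U) →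
      ∀ F, App Mod.mem (f.val U) ((natName n).val U) F → Mod.mem z F)
      (fun i U h F a => ?_) U z hz h F a
    obtain ⟨⟨F', b, c⟩, -⟩ := k n i U h
    exact h.2.2 _ _ _ b a ▸ c
  · refine forall_mem_fam (Φ := fun U x =>
      IsCovers Mod.mem (omegaName.val U) ((fam y).val U) (Op U) (f.val U) →
      ∃ B, Mod.mem B (WN.val U) ∧ ∀ n, Mod.mem n B ↔ InStep Mod.mem (g.val U) n x)
      (fun i U h => ⟨(sepName omegaName fun U n =>
        InStep Mod.mem (g.val U) n ((y i).val U)).val U, cofinite_mem_WN i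
        (fun U z hz => ((mem_sepName _ _ U z).1 hz).1) (fun m U a b => (mem_sepName _ _ U _).2
          ⟨natName_mem_omega m U, _, _, app_seqN_iff.2 rfl,
            mem_fam (fun i : Fin (m + 1) => O m i) ⟨i, by omega⟩ U, (k m i U b).2⟩) U h,
        fun n => (mem_sepName _ _ U n).trans ⟨fun a => a.2, fun a => ⟨?_, a⟩⟩⟩) U x hx hf
    obtain ⟨G, -, a, -⟩ := a
    exact forall_app_fun (Φ := fun U n _ => Mod.mem n (omegaName.val U))
      (fun n U => natName_mem_omega n U) U n G a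

theorem isProd_fam {ι κ : Type} (x : ι → Name (Cond L)) (y : κ → Name (Cond L))
    (U : Gen (Cond L)) : IsProd Mod.mem
      ((funName (fun z : ι × κ => x z.1) fun z => y z.2).val U) ((fam x).val U) ((fam y).val U) := by
  refine fun p => ⟨forall_mem_fam (Φ := fun U p => ∃ a b, IsPair Mod.mem p a b ∧
    Mod.mem a ((fam x).val U) ∧ Mod.mem b ((fam y).val U))
    (fun i U => ⟨_, _, isPair_pairName _ _ U, mem_fam x _ U, mem_fam y _ U⟩) U p, ?_⟩
  rintro ⟨a, b, h1, h2, h3⟩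
  obtain ⟨p', h4, h5⟩ := forall_mem_fam (Φ := fun U a => ∀ b, Mod.mem b ((fam y).val U) →
    App Mod.mem ((funName (fun z : ι × κ => x z.1) fun z => y z.2).val U) a b)
    (fun i => forall_mem_fam (Φ := fun U b =>
      App Mod.mem ((funName (fun z : ι × κ => x z.1) fun z => y z.2).val U) ((x i).val U) b)
      fun j => app_funName (fun z : ι × κ => x z.1) (fun z => y z.2) (i, j)) U a h2 b h3
  exact (isZFC U).pair_unique h5 h1 ▸ h4

/-- old points of the plane -/
def ptN (e : (ℕ → ℕ) → ℝ) (z : (ℕ → ℕ) × ℕ) : Name (Cond L) := pairName (cutN (e z.1)) (cutN z.2)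

/-- the product of the old Baire space with a countable set -/
def ZN (e : (ℕ → ℕ) → ℝ) : Name (Cond L) :=
  funName (fun z : (ℕ → ℕ) × ℕ => cutN (e z.1)) fun z => cutN z.2

/-- the canonical open sets -/
def ON (e : (ℕ → ℕ) → ℝ) (n m : ℕ) : Name (Cond L) :=
  fam fun z : {z : (ℕ → ℕ) × ℕ // z.1 n ≤ m} => ptN e z.1

theorem not_uMenger {e : (ℕ → ℕ) → ℝ} (he : ∀ x n, ∃ a b, rat a < e x ∧ e x < rat b ∧
    ∀ x', rat a < e x' → e x' < rat b → x' n = x n) (U : Gen (Cond L)) :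
    ¬ UMenger Mod.mem (omegaName.val U) (WN.val U) ((ZN e).val U)
      (OpenIn2 Mod.mem (ltN.val U) ((ZN e).val U)) := by
  have o1 : ∀ {n m z} (U : Gen (Cond L)), z.1 n ≤ m → Mod.mem ((ptN e z).val U) ((ON e n m).val U) := fun U x =>
    mem_fam (fun z : {z : (ℕ → ℕ) × ℕ // z.1 _ ≤ _} => ptN e z.1) ⟨_, x⟩ U
  have o2 : ∀ {n m z} (U : Gen (Cond L)), Mod.mem ((ptN e z).val U) ((ON e n m).val U) → z.1 n ≤ m := by
    intro n m z U x
    refine forall_mem_fam (Φ := fun U x => x = (ptN e z).val U → z.1 n ≤ m) (fun i U a => ?_) U _ x rfl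
    have b := cutN_inj ((isZFC U).pair_inj (isPair_pairName _ _ U) (a ▸ isPair_pairName _ _ U)).1
    obtain ⟨_, _, c1, c2, c3⟩ := he z.1 n
    exact c3 i.1.1 (b ▸ c1) (b ▸ c2) ▸ i.2
  have cov : IsCovers Mod.mem (omegaName.val U) ((ZN e).val U)
      (OpenIn2 Mod.mem (ltN.val U) ((ZN e).val U)) ((seqN fun n => fam (ON e n)).val U) := by
    refine of_forces_all (P := Cond L) (Φ := fun U => IsCovers Mod.mem (omegaName.val U)
      ((ZN e).val U) (OpenIn2 Mod.mem (ltN.val U) ((ZN e).val U))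
      ((seqN fun n => fam (ON e n)).val U)) (fun p => ⟨p, le_rfl, ?_⟩) U
    refine forces_isFunOn_seqN fun n q _ => ⟨q, le_rfl, Forces.of_forall (fun U => ⟨forall_mem_fam
      (Φ := fun U V => OpenIn2 Mod.mem (ltN.val U) ((ZN e).val U) V) (fun m U => ⟨?_, ?_⟩) U,
      forall_mem_fam (Φ := fun U x => ∃ V, Mod.mem V ((fam (ON e n)).val U) ∧ Mod.mem x V)
        (fun z U => ⟨_, mem_fam (ON e n) (z.1 n) U, o1 U le_rfl⟩) U⟩) q⟩
    · exact forall_mem_fam (Φ := fun U x => Mod.mem x ((ZN e).val U)) (fun z U => mem_fam (ptN e) z.1 U) U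
    · refine forall_app_fun (Φ := fun U x y => ∃ a b c d, InI Mod.mem (ltN.val U) x a b ∧
        InI Mod.mem (ltN.val U) y c d ∧ ∀ x' y', App Mod.mem ((ZN e).val U) x' y' →
        InI Mod.mem (ltN.val U) x' a b → InI Mod.mem (ltN.val U) y' c d →
        App Mod.mem ((ON e n m).val U) x' y') (fun z U => ?_) U
      obtain ⟨a, b, c1, c2, c3⟩ := he z.1.1 n
      obtain ⟨c, -, c4⟩ := exists_rat (sub_one_lt (z.1.2 : ℝ))
      obtain ⟨d, c5, -⟩ := exists_rat (lt_add_one (z.1.2 : ℝ))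
      refine ⟨_, _, _, _, inI_cutN.2 ⟨c1, c2⟩, inI_cutN.2 ⟨c4, c5⟩, fun x' y' a1 a2 _ => ?_⟩
      exact forall_app_fun (Φ := fun U x' y' => InI Mod.mem (ltN.val U) x' ((natName a).val U)
        ((natName b).val U) → App Mod.mem ((ON e n m).val U) x' y') (fun z' U a3 => ⟨_, o1 U
          ((c3 _ (inI_cutN.1 a3).1 (inI_cutN.1 a3).2).trans_le z.2), isPair_pairName _ _ U⟩)
        U x' y' a1 a2
  intro h
  obtain ⟨g, hg⟩ := h _ cov
  obtain ⟨g, rfl⟩ := g.exists_name
  refine of_dense (H := fun U => IsChoice Mod.mem (omegaName.val U) ((seqN fun n => fam (ON e n)).val U) (g.val U) ∧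
    ∀ x, Mod.mem x ((ZN e).val U) → ∃ B, Mod.mem B (WN.val U) ∧
      ∀ n, Mod.mem n B ↔ InStep Mod.mem (g.val U) n x) (Φ := fun _ => False) (fun p hp => ?_) U hg
  obtain ⟨q, h1, h2⟩ := exists_str (D := fun n q => ∃ m, Forces q fun U =>
      IsChoice Mod.mem (omegaName.val U) ((seqN fun n => fam (ON e n)).val U) (g.val U) →
      ∀ x, InStep Mod.mem (g.val U) ((natName n).val U) x → Mod.mem x ((ON e n m).val U))
    (fun _ _ _ x => Exists.imp fun _ y => y.mono x) (fun n q => dense_imp (choice_bound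
      (fun n m m' U x => forall_mem_fam (Φ := fun U z => Mod.mem z ((ON e n m').val U))
        (fun z U => o1 U (z.2.trans x)) U) n)) p
  have : ∀ h : Hist L, ∃ m, ∀ g' k (G : Lg q.st (g' ++ [(⊤, k)])), h = g' ++ [(⊤, k)] →
      Forces (q.rr _ G) fun U => IsChoice Mod.mem (omegaName.val U) ((seqN fun n => fam (ON e n)).val U) (g.val U) → ∀ x,
        InStep Mod.mem (g.val U) ((natName (q.mark (clk g') k)).val U) x →
        Mod.mem x ((ON e (q.mark (clk g') k) m).val U) := by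
    intro h
    by_cases x : ∃ g' k, Lg q.st (g' ++ [(⊤, k)]) ∧ h = g' ++ [(⊤, k)]
    · obtain ⟨g', k, G, rfl⟩ := x
      refine (h2 g' k G).imp fun m y g'' k' G' z => ?_
      obtain ⟨rfl, z⟩ := List.append_inj' z rfl
      obtain rfl : k = k' := by simpa using z
      exact y
    · exact ⟨0, fun g' k G y => absurd ⟨g', k, G, y⟩ x⟩
  choose m hm using this
  choose b hb using fun v => ((q.fin_kap v).image m).bddAbove
  obtain ⟨z, hz⟩ : ∃ z : (ℕ → ℕ) × ℕ, ∀ n, b n < z.1 n := ⟨(fun n => b n + 1, 0), by simp⟩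
  obtain ⟨B, hB⟩ := Forces.exists_name ((hp.mono h1).imp fun U x => x.2 _ (mem_fam (ptN e) z U))
  obtain ⟨r, h3, h4⟩ := exists_of_mem_WN (hB.imp fun _ x => x.1)
  have G : Lg r.st ([] ++ [(⊤, 0)]) := lg_single.2 (ok_top _)
  obtain ⟨g', k, G', h5, h6⟩ := total_le h3 G
  obtain ⟨V, ⟨v1, v2⟩, v3, v4⟩ := (((h4 r le_rfl _ _ G).and ((hm _ g' k G' rfl).mono h5)).and
    (((hp.mono h1).and hB).mono ((r.rr_le G).trans h3))).exists
  have := o2 V (v2 v3.1 _ (h6 ▸ (v4.2 _).1 v1))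
  exact absurd (this.trans (hb _ ⟨_, ⟨G', lastLe_snoc.2 (q.e3 _ _)⟩, rfl⟩)) (not_le.2 (hz _))

end Pool.Agent.P.MP_56695d_gt
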